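import Pool.Agent.MP_db5b97_nt.H85.Spec

/-! Divisors, norms and congruences in number fields. -/

namespace Pool.Agent.MP_db5b97_nt.H85

open NumberField IsDedekindDomain WithZero

variable {F : Type} [Field F] [NumberField F] {l : ℕ}

theorem ord_apply (w : Sp F) (x : Un F) : ord w x = -log (w.valuation F x.val) := rfl

theorem val_eq_exp (w : Sp F) (x : Un F) : w.valuation F x.val = exp (-ord w x) := by
  rw [ord_apply, neg_neg, exp_log (by simp)]

theorem ord_eq_zero_iff (w : Sp F) (x : Un F) : ord w x = 0 ↔ w.valuation F x.val = 1 := by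
  rw [val_eq_exp, ← exp_zero, exp_inj, neg_eq_zero]

theorem mem_Ru {x : Un F} :
    x ∈ Ru F l ↔ ∀ w : Sp F, (l : 𝓞 F) ∈ w.asIdeal → w.valuation F x.val = 1 := Iff.rfl

theorem mem_Ru_iff_ord {x : Un F} : x ∈ Ru F l ↔ ∀ w : Pl F l, ord w.1 x = 0 :=
  ⟨fun h w => (ord_eq_zero_iff _ _).2 (h w.1 w.2), fun h w hw => (ord_eq_zero_iff _ _).1 (h ⟨w, hw⟩)⟩

theorem mem_Ray {M : ℕ} {x : Un F} : x ∈ Ray F l M ↔ x ∈ Ru F l ∧ ∀ w : Sp F,
    (l : 𝓞 F) ∈ w.asIdeal → w.valuation F (x.val - 1) ≤ w.valuation F (l : F) ^ M := Iff.rfl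

theorem val_coe (w : Sp F) (x : 𝓞 F) : w.valuation F (x : F) = w.intValuation x :=
  w.valuation_of_algebraMap x

theorem val_le_one (w : Sp F) (x : 𝓞 F) : w.valuation F (x : F) ≤ 1 := w.valuation_le_one x

theorem val_lt_one_iff (w : Sp F) (x : 𝓞 F) : w.valuation F (x : F) < 1 ↔ x ∈ w.asIdeal :=
  w.valuation_lt_one_iff_mem x

theorem val_eq_one_iff (w : Sp F) (x : 𝓞 F) : w.valuation F (x : F) = 1 ↔ x ∉ w.asIdeal :=
  w.valuation_eq_one_iff_notMem

theorem val_nat_lt_one {w : Sp F} (hw : (l : 𝓞 F) ∈ w.asIdeal) : w.valuation F (l : F) < 1 := by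
  simpa using (val_lt_one_iff w l).2 hw

theorem val_nat_le_one (w : Sp F) (n : ℕ) : w.valuation F (n : F) ≤ 1 := by
  simpa using val_le_one w n

theorem val_coprime {w : Sp F} (hw : (l : 𝓞 F) ∈ w.asIdeal) {s : ℕ} (hs : s.Coprime l) :
    w.valuation F (s : F) = 1 := by
  have : (s : 𝓞 F) ∉ w.asIdeal := fun h => w.isPrime.ne_top <| by
    obtain ⟨a, b, e⟩ := (Nat.isCoprime_iff_coprime.2 hs).map (Int.castRingHom (𝓞 F))
    rw [Ideal.eq_top_iff_one, ← e]
    exact add_mem (Ideal.mul_mem_left _ _ (by simpa using h)) (Ideal.mul_mem_left _ _ (by simpa using hw))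
  simpa using (val_eq_one_iff w s).2 this

theorem mem_Rl_iff (hl : l ≠ 0) {x : F} :
    x ∈ Rl F l ↔ ∀ w : Sp F, (l : 𝓞 F) ∈ w.asIdeal → w.valuation F x ≤ 1 := by
  constructor
  · rintro ⟨s, hs, h⟩ w hw
    have : w.valuation F (s * x) ≤ 1 := val_le_one w ⟨_, h⟩
    rwa [map_mul, val_coprime hw hs, one_mul] at this
  · intro h
    let J : Ideal (𝓞 F) :=
      { carrier := {a | IsIntegral ℤ ((a : F) * x)}
        add_mem' := fun ha hb => by simpa [add_mul] using IsIntegral.add ha hb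
        zero_mem' := by simpa using isIntegral_zero
        smul_mem' := fun c a ha => by
          simpa [mul_assoc] using (RingOfIntegers.isIntegral_coe c).mul ha }
    have : J.comap (algebraMap ℤ (𝓞 F)) ⊔ Ideal.span {(l : ℤ)} = ⊤ := by
      by_contra hne
      obtain ⟨m, hm, hle⟩ := Ideal.exists_le_maximal _ hne
      obtain ⟨Q, hQ, hQp, hQm⟩ :=
        Ideal.exists_ideal_over_prime_of_isIntegral m J (le_sup_left.trans hle)
      have hlQ : (l : 𝓞 F) ∈ Q := by
        have : (l : ℤ) ∈ Q.comap (algebraMap ℤ (𝓞 F)) :=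
          hQm ▸ hle (Ideal.mem_sup_right (Ideal.mem_span_singleton_self _))
        simpa [Ideal.mem_comap] using this
      let w : Sp F := ⟨Q, hQp, fun h0 => hl (by simpa [h0] using hlQ)⟩
      obtain ⟨n, d, e⟩ := w.exists_primeCompl_mul_eq_of_integer x (h w hlQ)
      refine d.2 (hQ ?_)
      show IsIntegral ℤ (((d : 𝓞 F) : F) * x)
      rw [mul_comm, show x * ((d : 𝓞 F) : F) = n from e]
      exact RingOfIntegers.isIntegral_coe n
    obtain ⟨a, ha, b, hb, e⟩ := Submodule.mem_sup.1 ((Ideal.eq_top_iff_one _).1 this)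
    obtain ⟨c, rfl⟩ := Ideal.mem_span_singleton'.1 hb
    refine ⟨a.natAbs, ?_, ?_⟩
    · have : IsCoprime a (l : ℤ) := ⟨1, c, by rw [one_mul, e]⟩
      exact Int.isCoprime_iff_gcd_eq_one.1 this
    · have ha' : IsIntegral ℤ ((a : F) * x) := by simpa [J, Ideal.mem_comap] using ha
      rcases Int.natAbs_eq a with h1 | h1
      · rw [h1] at ha'; simpa using ha'
      · rw [h1] at ha'; simpa using ha'.neg

omit [NumberField F] in
theorem coe_mem_Rl (x : 𝓞 F) : (x : F) ∈ Rl F l :=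
  ⟨1, by simp, by simpa using RingOfIntegers.isIntegral_coe x⟩

theorem mem_Ru_iff (hl : l ≠ 0) {x : Un F} : x ∈ Ru F l ↔ x.val ∈ Rl F l ∧ x.val⁻¹ ∈ Rl F l := by
  simp only [mem_Rl_iff hl, mem_Ru]
  refine ⟨fun h => ⟨fun w hw => (h w hw).le, fun w hw => by simp [h w hw]⟩, fun h w hw => ?_⟩
  refine le_antisymm (h.1 w hw) ?_
  have := h.2 w hw
  rwa [map_inv₀, inv_le_one₀ (by simp [zero_lt_iff])] at this

theorem val_one_add {w : Sp F} (hw : (l : 𝓞 F) ∈ w.asIdeal) (hl : l ≠ 0) {y : F}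
    (hy : y ∈ Rl F l) : w.valuation F (1 + l * y) = 1 := by
  refine Valuation.map_one_add_of_lt _ ?_
  rw [map_mul]
  exact mul_lt_one_of_lt_of_le (val_nat_lt_one hw) ((mem_Rl_iff hl).1 hy w hw)

theorem mem_Ray_iff (hl : l ≠ 0) {M : ℕ} (hM : 1 ≤ M) {x : Un F} :
    x ∈ Ray F l M ↔ ∃ y ∈ Rl F l, x.val = 1 + (l : F) ^ M * y := by
  have hl' : (l : F) ≠ 0 := by exact_mod_cast hl
  constructor
  · rintro ⟨-, h⟩
    refine ⟨(x.val - 1) / l ^ M, (mem_Rl_iff hl).2 fun w hw => ?_, by field_simp; ring⟩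
    rw [map_div₀, map_pow, div_le_one₀ (pow_pos (by simpa [zero_lt_iff] using hl) _)]
    exact h w hw
  · rintro ⟨y, hy, e⟩
    refine ⟨fun w hw => ?_, fun w hw => ?_⟩
    · obtain ⟨M, rfl⟩ := Nat.exists_eq_add_of_le' hM
      rw [e, pow_succ', mul_assoc]
      exact val_one_add hw hl (mul_mem (pow_mem (natCast_mem _ l) _) hy)
    · rw [e, add_sub_cancel_left, map_mul, map_pow]
      exact mul_le_of_le_one_right' ((mem_Rl_iff hl).1 hy w hw)

theorem Ray_anti {M M' : ℕ} (h : M ≤ M') : Ray F l M' ≤ Ray F l M := fun _ hx =>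
  ⟨hx.1, fun w hw => (hx.2 w hw).trans (pow_le_pow_of_le_one zero_le (val_nat_le_one w l) h)⟩

theorem Ray_le_Ru (M : ℕ) : Ray F l M ≤ Ru F l := fun _ hx => hx.1

theorem Pl_finite (hl : l ≠ 0) : Finite (Pl F l) := by
  have := Ideal.finite_factors (I := Ideal.span {(l : 𝓞 F)}) (by simpa using hl)
  refine (this.subset fun w (hw : (l : 𝓞 F) ∈ w.asIdeal) => ?_).to_subtype
  simpa [Ideal.dvd_span_singleton] using hw

/-- every nonzero element divides a power of `l` locally at `l` -/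
theorem exists_pow_div_mem (hl : l ≠ 0) {c : F} (hc : c ≠ 0) :
    ∃ b : ℕ, (l : F) ^ b / c ∈ Rl F l := by
  have := Pl_finite (F := F) hl
  have h : ∀ w : Pl F l, ∃ b : ℕ, w.1.valuation F (l : F) ^ b ≤ w.1.valuation F c := fun w =>
    (exists_pow_lt₀ (val_nat_lt_one w.2) (Units.mk0 _ (by simpa using hc))).imp fun _ h => h.le
  choose b hb using h
  obtain ⟨B, hB⟩ := (Set.finite_range b).bddAbove
  refine ⟨B, (mem_Rl_iff hl).2 fun w hw => ?_⟩
  rw [map_div₀, map_pow, div_le_one₀ (by simpa [zero_lt_iff] using hc)]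
  exact (pow_le_pow_of_le_one zero_le (val_nat_le_one w l) (hB ⟨⟨w, hw⟩, rfl⟩)).trans (hb ⟨w, hw⟩)

omit [NumberField F] in
/-- approximation by integers -/
theorem exists_int_approx {x : F} (hx : x ∈ Rl F l) (M : ℕ) :
    ∃ z : 𝓞 F, ∃ y ∈ Rl F l, x = z + (l : F) ^ M * y := by
  obtain ⟨s, hs, h⟩ := id hx
  obtain ⟨a, b, e⟩ := Nat.isCoprime_iff_coprime.2 (hs.pow_right M)
  refine ⟨a * ⟨_, h⟩, b * x, mul_mem (intCast_mem _ b) hx, ?_⟩
  have e' := congrArg (fun t : ℤ => (t : F)) e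
  push_cast at e'
  simp only [map_mul, map_intCast, RingOfIntegers.map_mk]
  linear_combination (-x) * e'

theorem Ray_relIndex_ne (hl : l ≠ 0) (M : ℕ) : (Ray F l M).relIndex (Ru F l) ≠ 0 := by
  have hfin : Finite (𝓞 F ⧸ Ideal.span {(l : 𝓞 F) ^ M}) :=
    Ideal.finiteQuotientOfFreeOfNeBot _ (by simp [hl])
  choose z y hy e using fun x : Ru F l => exists_int_approx ((mem_Ru_iff hl).1 x.2).1 M
  refine AddSubgroup.index_ne_zero_of_finite (hH := ?_)
  refine Finite.of_injective (fun q => Ideal.Quotient.mk (Ideal.span {(l : 𝓞 F) ^ M}) (z q.out))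
    fun q q' h => ?_
  rw [← QuotientAddGroup.out_eq' q, ← QuotientAddGroup.out_eq' q', QuotientAddGroup.eq]
  obtain ⟨c, hc⟩ := Ideal.mem_span_singleton'.1 (Ideal.Quotient.eq.1 h)
  have hc' := congrArg (fun t : 𝓞 F => (t : F)) hc
  simp only [map_mul, map_pow, map_natCast, map_sub] at hc'
  refine ⟨(-q.out + q'.out).2, fun w hw => ?_⟩
  have e1 : ((-q.out + q'.out : Ru F l) : Un F).val - 1 =
      (q.out : Un F).val⁻¹ * ((l : F) ^ M * (y q'.out - y q.out - c)) := by
    have h0 := (q.out : Un F).val_ne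
    simp only [AddSubgroup.coe_add, AddSubgroup.coe_neg, Un.val_add, Un.val_neg]
    field_simp
    linear_combination e q'.out - e q.out + hc'
  rw [AddSubgroup.coe_subtype, e1, map_mul, map_mul, map_inv₀, q.out.2 w hw, inv_one, one_mul,
    map_pow]
  exact mul_le_of_le_one_right' ((mem_Rl_iff hl).1
    (sub_mem (sub_mem (hy _) (hy _)) (coe_mem_Rl c)) w hw)

/-! ### Divisors of ideals -/

theorem mult_prime (w v : Sp F) [Decidable (w = v)] :
    multiplicity w.asIdeal v.asIdeal = if w = v then 1 else 0 := by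
  split_ifs with h
  · rw [h, multiplicity_self]
  · rw [multiplicity_eq_zero, Ideal.dvd_iff_le]
    exact fun h' => h (HeightOneSpectrum.ext (v.isMaximal.eq_of_le w.isPrime.ne_top h').symm)

theorem mult_mul (w : Sp F) {I J : Ideal (𝓞 F)} (hI : I ≠ ⊥) (hJ : J ≠ ⊥) :
    multiplicity w.asIdeal (I * J) = multiplicity w.asIdeal I + multiplicity w.asIdeal J :=
  multiplicity_mul w.prime (FiniteMultiplicity.of_prime_left w.prime (mul_ne_zero hI hJ))

variable (l) in
open Classical in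
/-- the part prime to `l` of the divisor of an ideal -/
noncomputable def dI (I : Ideal (𝓞 F)) : Dv F l :=
  if h : I = ⊥ then 0 else Finsupp.ofSupportFinite (fun w => (multiplicity w.1.asIdeal I : ℤ))
    (((Ideal.finite_factors h).preimage Subtype.val_injective.injOn).subset fun w hw => by
      by_contra h'
      exact hw (by simpa using multiplicity_eq_zero.2 h'))

theorem dI_apply {I : Ideal (𝓞 F)} (h : I ≠ ⊥) (w : Pr F l) :
    dI l I w = multiplicity w.1.asIdeal I := by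
  rw [dI, dif_neg h]
  rfl

theorem dI_mul {I J : Ideal (𝓞 F)} (hI : I ≠ ⊥) (hJ : J ≠ ⊥) :
    dI l (I * J) = dI l I + dI l J := by
  ext w
  rw [Finsupp.add_apply, dI_apply (mul_ne_zero hI hJ), dI_apply hI, dI_apply hJ, mult_mul _ hI hJ,
    Nat.cast_add]

theorem dI_top : dI l (⊤ : Ideal (𝓞 F)) = 0 := by
  ext w
  rw [dI_apply top_ne_bot, ← Ideal.one_eq_top, multiplicity_of_one_right w.1.prime.not_isUnit]
  rfl

theorem dI_pow {I : Ideal (𝓞 F)} (hI : I ≠ ⊥) (n : ℕ) : dI l (I ^ n) = n • dI l I := by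
  induction n with
  | zero => simpa using dI_top
  | succ n ih => rw [pow_succ, dI_mul (pow_ne_zero _ hI) hI, ih, succ_nsmul]

theorem dI_pr (v : Pr F l) : dI l v.1.asIdeal = Finsupp.single v 1 := by
  classical
  ext w
  rw [dI_apply v.1.ne_bot, mult_prime, Finsupp.single_apply]
  by_cases h : v = w
  · simp [h]
  · rw [if_neg h, if_neg fun h' => h (Subtype.ext h'.symm), Nat.cast_zero]

theorem dI_pl (v : Pl F l) : dI l v.1.asIdeal = 0 := by
  classical
  ext w
  rw [dI_apply v.1.ne_bot, mult_prime, if_neg fun h : w.1 = v.1 => w.2 (h ▸ v.2)]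
  rfl

/-- a nonzero integer as a unit of the field -/
noncomputable def mkI (a : 𝓞 F) (ha : a ≠ 0) : Un F := Un.mk (a : F) (by simpa using ha)

omit [NumberField F] in
@[simp] theorem val_mkI (a : 𝓞 F) (ha : a ≠ 0) : (mkI a ha).val = a := rfl

theorem ord_mkI (w : Sp F) (a : 𝓞 F) (ha : a ≠ 0) :
    ord w (mkI a ha) = multiplicity w.asIdeal (Ideal.span {a}) := by
  rw [ord_apply, val_mkI, val_coe, w.intValuation_eq_exp_neg_multiplicity ha, log_exp, neg_neg]

theorem dv_mkI (a : 𝓞 F) (ha : a ≠ 0) : dv F l (mkI a ha) = dI l (Ideal.span {a}) := by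
  ext w
  rw [dv_apply, ord_mkI, dI_apply (by simpa using ha)]

theorem exists_mkI (x : Un F) : ∃ a ha b hb, x = mkI a ha - mkI b hb := by
  obtain ⟨a, b, hb, e⟩ := IsFractionRing.div_surjective (A := 𝓞 F) x.val
  have ha : a ≠ 0 := fun h => x.val_ne (by simp [← e, h])
  exact ⟨a, ha, b, nonZeroDivisors.ne_zero hb, Un.ext (by simp [← e])⟩

/-- every divisor is a difference of divisors of ideals prime to `l` -/
theorem exists_dI (D : Dv F l) : ∃ I J : Ideal (𝓞 F), I ≠ ⊥ ∧ J ≠ ⊥ ∧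
    (∀ w : Pl F l, multiplicity w.1.asIdeal I = 0 ∧ multiplicity w.1.asIdeal J = 0) ∧
    D = dI l I - dI l J := by
  classical
  have htop : ∀ w : Sp F, multiplicity w.asIdeal (⊤ : Ideal (𝓞 F)) = 0 := fun w => by
    rw [← Ideal.one_eq_top, multiplicity_of_one_right w.prime.not_isUnit]
  induction D using Finsupp.induction_linear with
  | zero => exact ⟨⊤, ⊤, top_ne_bot, top_ne_bot, fun w => ⟨htop _, htop _⟩, by simp⟩
  | add D E hD hE =>
    obtain ⟨I, J, hI, hJ, h, rfl⟩ := hD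
    obtain ⟨I', J', hI', hJ', h', rfl⟩ := hE
    refine ⟨I * I', J * J', mul_ne_zero hI hI', mul_ne_zero hJ hJ', fun w => ?_, ?_⟩
    · simp [mult_mul, *]
    · rw [dI_mul hI hI', dI_mul hJ hJ']
      abel
  | single v n =>
    have hp : ∀ (w : Pl F l) m, multiplicity w.1.asIdeal (v.1.asIdeal ^ m) = 0 := fun w m => by
      rw [multiplicity_eq_zero]
      intro h
      have := multiplicity_eq_zero.1
        ((mult_prime w.1 v.1).trans (if_neg fun h : w.1 = v.1 => v.2 (h ▸ w.2)))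
      exact this (w.1.prime.dvd_of_dvd_pow h)
    refine ⟨v.1.asIdeal ^ n.toNat, v.1.asIdeal ^ (-n).toNat, pow_ne_zero _ v.1.ne_bot,
      pow_ne_zero _ v.1.ne_bot, fun w => ⟨hp _ _, hp _ _⟩, ?_⟩
    rw [dI_pow v.1.ne_bot, dI_pow v.1.ne_bot, dI_pr, ← natCast_zsmul, ← natCast_zsmul, ← sub_smul,
      Int.toNat_sub_toNat_neg]
    simp

theorem Ru_index_ne : ((Ru F l).map (dv F l)).index ≠ 0 := by
  choose I J hI hJ h e using exists_dI (F := F) (l := l)
  refine AddSubgroup.index_ne_zero_of_finite (hH := ?_)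
  refine Finite.of_injective (fun q => (ClassGroup.mk0 ⟨I q.out, mem_nonZeroDivisors_of_ne_zero
    (hI _)⟩, ClassGroup.mk0 ⟨J q.out, mem_nonZeroDivisors_of_ne_zero (hJ _)⟩)) fun q q' hq => ?_
  rw [← QuotientAddGroup.out_eq' q, ← QuotientAddGroup.out_eq' q', QuotientAddGroup.eq]
  have key : ∀ A B : Ideal (𝓞 F), ∀ (hA : A ≠ ⊥) (hB : B ≠ ⊥),
      (∀ w : Pl F l, multiplicity w.1.asIdeal A = 0) →
      (∀ w : Pl F l, multiplicity w.1.asIdeal B = 0) →
      ClassGroup.mk0 ⟨A, mem_nonZeroDivisors_of_ne_zero hA⟩ =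
        ClassGroup.mk0 ⟨B, mem_nonZeroDivisors_of_ne_zero hB⟩ →
      dI l A - dI l B ∈ (Ru F l).map (dv F l) := by
    intro A B hA hB h1 h2 h3
    obtain ⟨x, y, hx, hy, e⟩ := ClassGroup.mk0_eq_mk0_iff.1 h3
    refine ⟨mkI y hy - mkI x hx, mem_Ru_iff_ord.2 fun w => ?_, ?_⟩
    · have := congrArg (multiplicity w.1.asIdeal) e
      rw [mult_mul _ (by simpa using hx) hA, mult_mul _ (by simpa using hy) hB, h1, h2] at this
      rw [map_sub, ord_mkI, ord_mkI]
      omega
    · have := congrArg (dI l) e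
      rw [dI_mul (by simpa using hx) hA, dI_mul (by simpa using hy) hB] at this
      rw [map_sub, dv_mkI, dv_mkI]
      linear_combination (norm := abel1) -this
  have h1 := key _ _ (hI _) (hI _) (fun w => (h _ w).1) (fun w => (h _ w).1) (Prod.ext_iff.1 hq).1
  have h2 := key _ _ (hJ _) (hJ _) (fun w => (h _ w).2) (fun w => (h _ w).2) (Prod.ext_iff.1 hq).2
  convert sub_mem h2 h1 using 1
  conv_lhs => rw [e q.out, e q'.out]
  abel

theorem Ray_index_ne (hl : l ≠ 0) (M : ℕ) : ((Ray F l M).map (dv F l)).index ≠ 0 := by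
  rw [← AddSubgroup.relIndex_mul_index (AddSubgroup.map_mono (f := dv F l) (Ray_le_Ru M))]
  refine mul_ne_zero ?_ Ru_index_ne
  intro h
  refine Ray_relIndex_ne (F := F) hl M (AddSubgroup.relIndex_eq_zero_of_le_left
    (AddSubgroup.le_comap_map (dv F l) _) ?_)
  rwa [AddSubgroup.relIndex_comap]

/-- homomorphisms to a torsion free group are determined by their values on principal divisors -/
theorem hom_ext {B : Type} [AddCommGroup B] [IsAddTorsionFree B] {f g : Dv F l →+ B}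
    (h : ∀ x, f (dv F l x) = g (dv F l x)) : f = g := by
  refine AddMonoidHom.ext fun D => ?_
  obtain ⟨x, -, e⟩ := AddSubgroup.nsmul_index_mem ((Ru F l).map (dv F l)) D
  refine nsmul_right_injective (Ru_index_ne (F := F) (l := l)) ?_
  simp only [← map_nsmul, ← e, h]

end Pool.Agent.MP_db5b97_nt.H85
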