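import Pool.Agent.MP_db5b97_nt.H85.Spec

/-! Basic properties of cocycles. -/

namespace Pool.Agent.MP_db5b97_nt.H85

variable {G V A : Type} [Group G] [AddCommGroup V] [DistribMulAction G V] [AddCommGroup A]
  [DistribMulAction G A] {U S : Subgroup G} {Y Y' : AddSubgroup V} {c : G → V → A} {β : V → A}
  {n m : ℕ}

/-- the homomorphism attached to an additive function -/
def AddOn.hom (h : AddOn Y β) : Y →+ A :=
  AddMonoidHom.mk' (fun y => β y) fun x y => h x x.2 y y.2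

theorem AddOn.zero (h : AddOn Y β) : β 0 = 0 := h.hom.map_zero

theorem AddOn.neg (h : AddOn Y β) {y : V} (hy : y ∈ Y) : β (-y) = -β y := h.hom.map_neg ⟨y, hy⟩

theorem AddOn.sub (h : AddOn Y β) {x y : V} (hx : x ∈ Y) (hy : y ∈ Y) : β (x - y) = β x - β y :=
  h.hom.map_sub ⟨x, hx⟩ ⟨y, hy⟩

theorem AddOn.nsmul (h : AddOn Y β) {y : V} (hy : y ∈ Y) (k : ℕ) : β (k • y) = k • β y :=
  h.hom.map_nsmul k ⟨y, hy⟩

theorem AddOn.zsmul (h : AddOn Y β) {y : V} (hy : y ∈ Y) (k : ℤ) : β (k • y) = k • β y :=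
  h.hom.map_zsmul k ⟨y, hy⟩

theorem AddOn.sum (h : AddOn Y β) {ι : Type} (s : Finset ι) {f : ι → V} (hf : ∀ i ∈ s, f i ∈ Y) :
    β (∑ i ∈ s, f i) = ∑ i ∈ s, β (f i) := by
  classical
  induction s using Finset.induction_on with
  | empty => simpa using h.zero
  | insert i s hi ih =>
    rw [Finset.sum_insert hi, Finset.sum_insert hi, h _ (hf i (by simp)) _
      (sum_mem fun j hj => hf j (by simp [hj])), ih fun j hj => hf j (by simp [hj])]

theorem AddOn.mono (h : AddOn Y β) (hY : Y' ≤ Y) : AddOn Y' β :=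
  fun x hx y hy => h x (hY hx) y (hY hy)

open Classical in
/-- extension by zero of a homomorphism -/
noncomputable def extH (f : Y →+ A) (v : V) : A := if h : v ∈ Y then f ⟨v, h⟩ else 0

theorem extH_apply (f : Y →+ A) {v : V} (h : v ∈ Y) : extH f v = f ⟨v, h⟩ := dif_pos h

theorem extH_addOn (f : Y →+ A) : AddOn Y (extH f) := fun x hx y hy => by
  rw [extH_apply f hx, extH_apply f hy, extH_apply f (add_mem hx hy), ← map_add]
  rfl

theorem Stab.mono (h : Stab U Y) (hS : S ≤ U) : Stab S Y := fun s hs => h s (hS hs)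

theorem Coc.mono (h : Coc U Y c) (hS : S ≤ U) (hY : Y' ≤ Y) : Coc S Y' c :=
  ⟨fun s hs => (h.1 s (hS hs)).mono hY, fun s hs t ht y hy => h.2 s (hS hs) t (hS ht) y (hY hy)⟩

theorem Coc.one (h : Coc U Y c) {y : V} (hy : y ∈ Y) : c 1 y = 0 := by
  simpa using h.2 1 U.one_mem 1 U.one_mem y hy

theorem Bd.mono (h : Bd U Y n c β) (hS : S ≤ U) (hY : Y' ≤ Y) : Bd S Y' n c β :=
  ⟨h.1.mono hY, fun s hs y hy => h.2 s (hS hs) y (hY hy)⟩

theorem Bd.mul (h : Bd U Y n c β) (k : ℕ) : Bd U Y (k * n) c fun y => k • β y :=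
  ⟨fun x hx y hy => by simp only [h.1 x hx y hy, smul_add], fun s hs y hy => by
    rw [mul_smul, h.2 s hs y hy, smul_sub, smul_comm]⟩

theorem Bd.of_dvd (h : Bd U Y n c β) (hd : n ∣ m) : ∃ β', Bd U Y m c β' := by
  obtain ⟨k, rfl⟩ := hd
  exact ⟨_, mul_comm k n ▸ h.mul k⟩

theorem Kill.of_dvd (h : Kill A U Y n) (hd : n ∣ m) : Kill A U Y m := fun c hc =>
  (h c hc).elim fun _ hβ => hβ.of_dvd hd

theorem Bd.gcd {γ : V → A} (h : Bd U Y n c β) (h' : Bd U Y m c γ) :
    ∃ β', Bd U Y (n.gcd m) c β' := by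
  refine ⟨fun y => n.gcdA m • β y + n.gcdB m • γ y, fun x hx y hy => ?_, fun s hs y hy => ?_⟩
  · simp only [h.1 x hx y hy, h'.1 x hx y hy, smul_add]
    abel
  · rw [← natCast_zsmul, Nat.gcd_eq_gcd_ab, add_smul, mul_comm, mul_smul, mul_comm, mul_smul,
      natCast_zsmul, natCast_zsmul, h.2 s hs y hy, h'.2 s hs y hy, smul_add, smul_comm s,
      smul_comm s, smul_sub, smul_sub]
    beta_reduce
    abel

/-- subtracting a coboundary from a multiple of a cocycle -/
theorem Coc.sub_bd (h : Coc U Y c) (hY : Stab U Y) (hβ : AddOn Y β) (n : ℕ) :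
    Coc U Y fun s y => n • c s y - (s • β y - β (s • y)) := by
  refine ⟨fun s hs x hx y hy => ?_, fun s hs t ht y hy => ?_⟩
  · simp only [h.1 s hs x hx y hy, hβ x hx y hy, smul_add, hβ _ (hY s hs x hx) _ (hY s hs y hy)]
    abel
  · simp only [h.2 s hs t ht y hy, smul_add, smul_sub, mul_smul, smul_comm s n]
    abel

/-- a cocycle that vanishes on a subgroup is killed by the index -/
theorem cores_zero (hi : S.relIndex U ≠ 0) (hY : Stab U Y) (h : Coc U Y c)
    (h0 : ∀ s ∈ S, ∀ y ∈ Y, c s y = 0) : ∃ β, Bd U Y (S.relIndex U) c β := by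
  have : (S.subgroupOf U).FiniteIndex := ⟨hi⟩
  have := Fintype.ofFinite (U ⧸ S.subgroupOf U)
  let F : (U ⧸ S.subgroupOf U) → V → A := fun q y => c q.out ((q.out : G)⁻¹ • y)
  have hF : ∀ (g : U) y, y ∈ Y → F (g : U ⧸ S.subgroupOf U) y = c g ((g : G)⁻¹ • y) := by
    intro g y hy
    obtain ⟨s, hs⟩ := QuotientGroup.mk_out_eq_mul (S.subgroupOf U) g
    have hy' := hY _ (U.inv_mem (U.mul_mem g.2 s.1.2)) y hy
    simp only [F, hs, Subgroup.coe_mul]
    rw [h.2 _ g.2 _ s.1.2 _ hy', h0 (s : U) s.2 _ hy', smul_smul]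
    simp
  refine ⟨fun y => -∑ q, F q y, fun x hx y hy => ?_, fun u hu y hy => ?_⟩
  · simp only [F, smul_add]
    rw [← neg_add, ← Finset.sum_add_distrib]
    exact congrArg _ (Finset.sum_congr rfl fun q _ => h.1 _ q.out.2 _
      (hY _ (U.inv_mem q.out.2) x hx) _ (hY _ (U.inv_mem q.out.2) y hy))
  · have e : ∑ q, F q (u • y) = ∑ q, (c u y + u • F q y) := by
      rw [← Equiv.sum_comp (MulAction.toPerm (⟨u, hu⟩ : U))]
      refine Finset.sum_congr rfl fun q _ => ?_
      conv_lhs => rw [MulAction.toPerm_apply, ← QuotientGroup.out_eq' q,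
        MulAction.Quotient.smul_mk, hF _ _ (hY u hu y hy)]
      simp only [smul_eq_mul, Subgroup.coe_mul, mul_inv_rev, mul_smul, inv_smul_smul]
      rw [h.2 u hu _ q.out.2 _ (hY _ (U.inv_mem q.out.2) y hy), smul_inv_smul]
    beta_reduce
    rw [e, Finset.sum_add_distrib, Finset.sum_const, Finset.card_univ, ← Finset.smul_sum,
      Subgroup.relIndex, Subgroup.index, Nat.card_eq_fintype_card, smul_neg]
    abel

/-- corestriction -/
theorem cores (hi : S.relIndex U ≠ 0) (hY : Stab U Y) (h : Coc U Y c)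
    (hβ : Bd S Y n c β) : ∃ β', Bd U Y (S.relIndex U * n) c β' := by
  obtain ⟨γ, hγ⟩ := cores_zero hi hY (h.sub_bd hY hβ.1 n)
    fun s hs y hy => sub_eq_zero.2 (hβ.2 s hs y hy)
  refine ⟨fun y => γ y + S.relIndex U • β y, fun x hx y hy => ?_, fun s hs y hy => ?_⟩
  · simp only [hγ.1 x hx y hy, hβ.1 x hx y hy, smul_add]
    abel
  · have := hγ.2 s hs y hy
    rw [smul_sub, sub_eq_iff_eq_add] at this
    rw [mul_smul, this, smul_add, smul_sub, smul_comm s]
    beta_reduce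
    abel

theorem Kill.cores (hS : S ≤ U) (hi : S.relIndex U ≠ 0) (hY : Stab U Y) (h : Kill A S Y n) :
    Kill A U Y (S.relIndex U * n) := fun c hc =>
  (h c (hc.mono hS le_rfl)).elim fun _ hβ => H85.cores hi hY hc hβ

/-- transfer along a pair of equivariant maps whose composite is multiplication by `m` -/
theorem Kill.retract {V' : Type} [AddCommGroup V'] [DistribMulAction G V'] {Z : AddSubgroup V'}
    (φ : V → V') (ψ : V' → V) (hφ : AddOn Y φ) (hψ : AddOn Z ψ) (hφm : ∀ y ∈ Y, φ y ∈ Z)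
    (hψm : ∀ z ∈ Z, ψ z ∈ Y) (hφe : ∀ s ∈ U, ∀ y ∈ Y, φ (s • y) = s • φ y)
    (hψe : ∀ s ∈ U, ∀ z ∈ Z, ψ (s • z) = s • ψ z) (hm : ∀ y ∈ Y, ψ (φ y) = m • y)
    (h : Kill A U Z n) : Kill A U Y (n * m) := by
  intro c hc
  obtain ⟨β, hβ⟩ := h (fun s z => c s (ψ z)) ⟨fun s hs x hx y hy => by
    simp only [hψ x hx y hy, hc.1 s hs _ (hψm x hx) _ (hψm y hy)], fun s hs t ht z hz => by
    simp only [hc.2 s hs t ht _ (hψm z hz), hψe t ht z hz]⟩
  refine ⟨fun y => β (φ y), fun x hx y hy => ?_, fun s hs y hy => ?_⟩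
  · simp only [hφ x hx y hy, hβ.1 _ (hφm x hx) _ (hφm y hy)]
  · have := hβ.2 s hs _ (hφm y hy)
    simp only [hm y hy, (hc.1 s hs).nsmul hy] at this
    simp only [hφe s hs y hy, mul_smul, this]

/-- passage to a sublattice of finite exponent -/
theorem Kill.scale (hY : Y' ≤ Y) (hm : ∀ y ∈ Y, m • y ∈ Y') (h : Kill A U Y' n) :
    Kill A U Y (n * m) :=
  h.retract (fun y => m • y) id (fun _ _ _ _ => smul_add _ _ _) (fun _ _ _ _ => rfl) hm hY
    (fun s _ y _ => (smul_comm s m y).symm) (fun _ _ _ _ => rfl) fun _ _ => rfl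

/-- trivial action on a free lattice -/
theorem kill_triv [Module.Free ℤ Y] (h : H90 A U) (h0 : ∀ s ∈ U, ∀ y ∈ Y, s • y = y) :
    Kill A U Y 1 := by
  intro c hc
  let b := Module.Free.chooseBasis ℤ Y
  choose a ha using fun i => h (fun s => c s (b i)) fun s hs t ht => by
    rw [hc.2 s hs t ht _ (b i).2, h0 t ht _ (b i).2]
  let f : Y →+ A := (b.constr ℤ a).toAddMonoidHom
  refine ⟨extH f, extH_addOn f, fun s hs y hy => ?_⟩
  rw [h0 s hs y hy, extH_apply f hy, one_smul]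
  have : (hc.1 s hs).hom.toIntLinearMap = ((Df s).comp f).toIntLinearMap :=
    b.ext fun i => by simpa [f, Df_apply, AddOn.hom] using ha i s hs
  exact LinearMap.congr_fun this ⟨y, hy⟩

open scoped Pointwise in
/-- Shapiro's lemma: an independent family of subgroups permuted by `U` -/
theorem shapiro {ι : Type} [MulAction U ι] (Z : ι → AddSubgroup V) (hZ : iSupIndep Z)
    (hp : ∀ (u : U) i, ∀ y ∈ Z i, (u : G) • y ∈ Z (u • i))
    (h : ∀ i, Kill A ((MulAction.stabilizer U i).map U.subtype) (Z i) n) :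
    Kill A U (⨆ i, Z i) n := by
  classical
  intro c hc
  have hle : ∀ i, Z i ≤ ⨆ i, Z i := le_iSup Z
  choose β0 hβ0 using fun i => h i c (hc.mono (Subgroup.map_subtype_le _) (hle i))
  -- orbit representatives
  let r : ι → ι := fun i => (Quotient.mk (MulAction.orbitRel U ι) i).out
  have hr : ∀ i, ∃ g : U, g • r i = i := fun i =>
    (MulAction.orbitRel U ι).symm (Quotient.mk_out (s := MulAction.orbitRel U ι) i)
  choose g hg using hr
  have hru : ∀ (u : U) i, r (u • i) = r i := fun u i =>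
    congrArg Quotient.out (Quotient.sound ⟨u, rfl⟩)
  have hinv : ∀ i, ∀ y ∈ Z i, (g i : G)⁻¹ • y ∈ Z (r i) := fun i y hy => by
    have := hp (g i)⁻¹ i y hy
    rwa [inv_smul_eq_iff.2 (hg i).symm] at this
  let B : ι → V → A := fun i y =>
    (g i : G) • β0 (r i) ((g i : G)⁻¹ • y) - n • c (g i) ((g i : G)⁻¹ • y)
  have hB : ∀ i, AddOn (Z i) (B i) := fun i x hx y hy => by
    simp only [B, smul_add, (hβ0 (r i)).1 _ (hinv i x hx) _ (hinv i y hy),
      hc.1 _ (g i).2 _ (hle _ (hinv i x hx)) _ (hle _ (hinv i y hy))]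
    abel
  have hBe : ∀ (u : U) i, ∀ y ∈ Z i, n • c u y = (u : G) • B i y - B (u • i) ((u : G) • y) := by
    intro u i y hy
    set k : U := (g (u • i))⁻¹ * u * g i with hk
    have hkm : (k : G) ∈ (MulAction.stabilizer U (r i)).map U.subtype := by
      refine ⟨k, ?_, rfl⟩
      rw [SetLike.mem_coe, MulAction.mem_stabilizer_iff, hk, mul_smul, mul_smul, hg,
        inv_smul_eq_iff, ← hru u i, hg]
    have e1 := (hβ0 (r i)).2 k hkm _ (hinv i y hy)
    have e2 := hc.2 _ (g (u • i)).2 _ k.2 _ (hle _ (hinv i y hy))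
    have e3 := hc.2 _ u.2 _ (g i).2 _ (hle _ (hinv i y hy))
    have e4 : (g (u • i) : G) * k = u * g i := by simp [hk, mul_assoc]
    have e5 : (k : G) • (g i : G)⁻¹ • y = (g (u • i) : G)⁻¹ • (u : G) • y := by
      simp [hk, mul_smul]
    rw [e4, e3, smul_inv_smul, e5] at e2
    rw [e5] at e1
    have e6 := congrArg (fun z => (g (u • i) : G) • z) e1
    simp only [smul_sub, smul_smul, e4, smul_comm _ n] at e6
    have e7 := congrArg (fun z => n • z) e2
    simp only [smul_add, e6] at e7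
    simp only [B, hru, smul_sub, smul_smul, smul_comm _ n] at e7 ⊢
    linear_combination (norm := abel1) e7
  -- glue
  let e : (Π₀ i, Z i) →+ V := DFinsupp.sumAddHom fun i => (Z i).subtype
  have he : Function.Injective e := hZ.dfinsuppSumAddHom_injective
  have hrange : e.range = ⨆ i, Z i := by
    refine le_antisymm ?_ (iSup_le fun i y hy => ⟨DFinsupp.single i ⟨y, hy⟩, by simp [e]⟩)
    rintro _ ⟨d, rfl⟩
    simp only [e, DFinsupp.sumAddHom_apply]
    exact dfinsuppSum_mem _ _ _ fun i _ => hle i (d i).2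
  let f0 : (Π₀ i, Z i) →+ A := DFinsupp.sumAddHom fun i => (hB i).hom
  let f : e.range →+ A := f0.comp (AddMonoidHom.ofInjective he).symm.toAddMonoidHom
  have hf : ∀ i, ∀ y ∈ Z i, extH f y = B i y := by
    intro i y hy
    have h1 : e (DFinsupp.single i ⟨y, hy⟩) = y := by simp [e]
    rw [extH_apply f ⟨_, h1⟩]
    have h2 : (AddMonoidHom.ofInjective he).symm ⟨y, ⟨_, h1⟩⟩ = DFinsupp.single i ⟨y, hy⟩ :=
      (AddEquiv.symm_apply_eq _).2 (Subtype.ext h1.symm)
    simp only [f, AddMonoidHom.comp_apply, AddEquiv.coe_toAddMonoidHom, h2]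
    simp [f0, AddOn.hom]
  have hfa : AddOn (⨆ i, Z i) (extH f) := hrange ▸ extH_addOn f
  refine ⟨extH f, hfa, fun u hu y hy => ?_⟩
  have key : (y ∈ ⨆ i, Z i) ∧ (u • y ∈ ⨆ i, Z i) ∧ n • c u y = u • extH f y - extH f (u • y) := by
    refine AddSubgroup.iSup_induction Z (C := fun y => (y ∈ ⨆ i, Z i) ∧ (u • y ∈ ⨆ i, Z i) ∧
      n • c u y = u • extH f y - extH f (u • y)) hy (fun i y hy => ?_) ?_ ?_
    · refine ⟨hle i hy, hle _ (hp ⟨u, hu⟩ i y hy), ?_⟩
      rw [hf i y hy, hf _ _ (hp ⟨u, hu⟩ i y hy)]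
      exact hBe ⟨u, hu⟩ i y hy
    · simp [hfa.zero, (hc.1 u hu).zero]
    · rintro x y ⟨hx, hx', ex⟩ ⟨hy, hy', ey⟩
      refine ⟨add_mem hx hy, by simpa [smul_add] using add_mem hx' hy', ?_⟩
      rw [hc.1 u hu x hx y hy, smul_add, ex, ey, smul_add u x, hfa x hx y hy, hfa _ hx' _ hy',
        smul_add]
      abel
  exact key.2.2

/-- permutation lattices -/
theorem kill_perm {ι : Type} [MulAction U ι] (v : ι → V) (hv : LinearIndependent ℤ v)
    (hp : ∀ (u : U) i, (u : G) • v i = v (u • i)) (h : ∀ Q : Subgroup G, H90 A Q) :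
    Kill A U (Submodule.span ℤ (Set.range v)).toAddSubgroup 1 := by
  have h1 := hv.iSupIndep_span_singleton.map_orderIso AddSubgroup.toIntSubmodule.symm
  have h2 := shapiro (A := A) (U := U) (n := 1) _ h1 (fun u i y hy => ?_) fun i => ?_
  · simp only [Function.comp_apply] at h2
    rwa [← OrderIso.map_iSup, ← Submodule.span_range_eq_iSup] at h2
  · obtain ⟨a, rfl⟩ := Submodule.mem_span_singleton.1 hy
    exact Submodule.mem_span_singleton.2 ⟨a, by rw [smul_comm, hp]⟩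
  · have hb := Module.Basis.span (hv.comp (fun _ : Unit => i) fun _ _ _ => rfl)
    rw [show Set.range (v ∘ fun _ : Unit => i) = {v i} from Set.range_const] at hb
    have : Module.Free ℤ ((AddSubgroup.toIntSubmodule.symm ∘ fun i => ℤ ∙ v i) i) :=
      Module.Free.of_basis hb
    refine kill_triv (h _) ?_
    rintro _ ⟨u, hu, rfl⟩ y hy
    obtain ⟨a, rfl⟩ := Submodule.mem_span_singleton.1 hy
    rw [smul_comm, Subgroup.subtype_apply, hp, MulAction.mem_stabilizer_iff.1 hu]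

end Pool.Agent.MP_db5b97_nt.H85
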