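import Pool.Agent.MP_db5b97_nt.H85.Defs

/-! Statements of the pieces. -/

namespace Pool.Agent.MP_db5b97_nt.H85

open NumberField IsDedekindDomain Filter Topology Polynomial

/-! ### Group theory -/

/-- bound for the period -/
def RowD : Prop :=
  ∀ (p : ℕ), p.Prime → ∀ (G X A : Type) [Group G] [Finite G] [Fintype X] [MulAction G X]
    [AddCommGroup A] [DistribMulAction G A], (∀ Q : Subgroup G, H90 A Q) →
    ∀ (U : Subgroup G) (M : AddSubgroup (X →₀ ℤ)), IsPGroup p U → Stab U M →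
    Kill A U M (p ^ jb (Nat.log p (Fintype.card X)))

/-- the Herbrand quotient of a lattice -/
def RowHQ : Prop :=
  ∀ (p : ℕ), p.Prime → ∀ (R A G : Type) [CommRing R] [IsDomain R] [IsPrincipalIdealRing R]
    [CharZero R] [AddCommGroup A] [Module R A] [Module.Finite R A] [Module.Free R A] [Group G]
    [DistribMulAction G A] [SMulCommClass G R A] (σ : G) (F : Submodule R A),
    Nat.card (R ⧸ Ideal.span {(p : R)}) = p → (∀ x : A, σ ^ p • x = x) →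
    (∀ x, x ∈ F ↔ σ • x = x) →
    hc (A := A) (Df σ) (Nm σ p) ≠ 0 ∧ hc (A := A) (Nm σ p) (Df σ) ≠ 0 ∧
      hc (A := A) (Df σ) (Nm σ p) ^ (p - 1) * p ^ Module.finrank R A =
        hc (A := A) (Nm σ p) (Df σ) ^ (p - 1) * p ^ (p * Module.finrank R F)

/-- outside a sparse set of primes the lattices have no odd cohomology -/
def RowE1 : Prop :=
  ∀ (G X : Type) [Group G] [Finite G] [Fintype X] [MulAction G X] (x : ℕ → G),
    ∃ Act : Finset ℕ, (∀ y, 2 ≤ y → (Act.filter (y ≤ ·)).card * (y - 1) ≤ Fintype.card X) ∧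
      ∀ p, p.Prime → p ∉ Act → (∀ a : X, x p ^ p • a = a) → ∀ P : Subgroup G, P.index.Coprime p →
        (∀ g ∈ P, ∀ v : X →₀ ℤ,
          g • Nm (x p) p v = Nm (x p) p v ∧ Nm (x p) p (g • v) = Nm (x p) p v) →
        ∀ M : AddSubgroup (X →₀ ℤ), Stab (⊤ : Subgroup G) M →
          ∀ m ∈ M, Nm (x p) p m = 0 → ∃ m' ∈ M, m = x p • m' - m'

/-- large primes outside a sparse set do not divide the period -/
def RowE : Prop :=
  ∀ (G X : Type) [Group G] [Finite G] [Fintype X] [MulAction G X],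
    ∃ Act : Finset ℕ, (∀ y, 2 ≤ y → (Act.filter (y ≤ ·)).card * (y - 1) ≤ Fintype.card X) ∧
      ∀ p, p.Prime → p ∉ Act → Fintype.card X < p ^ 2 →
        ∀ (A : Type) [AddCommGroup A] [DistribMulAction G A], (∀ Q : Subgroup G, H90 A Q) →
        ∀ M : AddSubgroup (X →₀ ℤ), Stab (⊤ : Subgroup G) M →
          ∃ t : ℕ, t.Coprime p ∧ Kill A (⊤ : Subgroup G) M t

section Lay

variable {P U' I' U I : Type} [Group P] [AddCommGroup U'] [DistribMulAction P U']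
  [AddCommGroup I'] [DistribMulAction P I'] [AddCommGroup U] [DistribMulAction P U]
  [AddCommGroup I] [DistribMulAction P I]

variable (U) in
/-- elements of norm zero are differences -/
def H1z (p : ℕ) (Q : Subgroup P) (σ : P) : Prop :=
  ∀ x ∈ Fix U Q, Nm σ p x = 0 → ∃ y ∈ Fix U Q, x = σ • y - y

variable (U) in
/-- norms -/
def Ns (p : ℕ) (Q : Subgroup P) (σ : P) : AddSubgroup U := (Fix U Q).map (Nm σ p)

/-- the hypotheses on a cyclic layer -/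
structure LayHyp (p : ℕ) (Q : Subgroup P) (σ : P) (a' : U' →+ I') (a : U →+ I) (nU : U' →+ U)
    (nI : I' →+ I) : Prop where
  hU' : H1z U' p Q σ
  hU : H1z U p Q σ
  hI' : H1z I' p Q σ
  hI : H1z I p Q σ
  kinj : ∀ x ∈ Fix U' Q, σ • x = x → a' x ∈ Ns I' p Q σ → nU x ∈ Ns U p Q σ → x ∈ Ns U' p Q σ
  ksurj : ∀ x ∈ Fix U Q, σ • x = x → a x ∈ Ns I p Q σ →
    ∃ x' ∈ Fix U' Q, σ • x' = x' ∧ a' x' ∈ Ns I' p Q σ ∧ nU x' - x ∈ Ns U p Q σ
  cinj : ∀ D ∈ Fix I' Q, σ • D = D → ∀ x ∈ Fix U Q, σ • x = x → nI D - a x ∈ Ns I p Q σ →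
    ∃ x' ∈ Fix U' Q, σ • x' = x' ∧ D - a' x' ∈ Ns I' p Q σ
  csurj : ∀ D ∈ Fix I Q, σ • D = D → ∃ D' ∈ Fix I' Q, σ • D' = D' ∧
    ∃ x ∈ Fix U Q, σ • x = x ∧ D - nI D' - a x ∈ Ns I p Q σ

end Lay

/-- a map of two-term complexes that is an isomorphism on the cohomology of all cyclic layers
detects coboundaries -/
def RowCT : Prop :=
  ∀ (p : ℕ), p.Prime → ∀ (P U' I' U I M : Type) [Group P] [Finite P] [AddCommGroup U']
    [DistribMulAction P U'] [AddCommGroup I'] [DistribMulAction P I'] [AddCommGroup U]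
    [DistribMulAction P U] [AddCommGroup I] [DistribMulAction P I] [AddCommGroup M]
    [DistribMulAction P M] [Module.Free ℤ M] (a' : U' →+ I') (a : U →+ I) (nU : U' →+ U)
    (nI : I' →+ I), IsPGroup p P →
    (∀ (s : P) x, a' (s • x) = s • a' x) → (∀ (s : P) x, a (s • x) = s • a x) →
    (∀ (s : P) x, nU (s • x) = s • nU x) → (∀ (s : P) x, nI (s • x) = s • nI x) →
    (∀ x, a (nU x) = nI (a' x)) → (∀ Q : Subgroup P, H90 U' Q) → (∀ Q : Subgroup P, H90 U Q) →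
    (∀ (Q : Subgroup P) (σ : P), σ ∈ Subgroup.normalizer (Q : Set P) → σ ^ p ∈ Q → σ ∉ Q →
      LayHyp p Q σ a' a nU nI) →
    ∀ c : P → M → U', Coc ⊤ ⊤ c → (∀ s y, a' (c s y) = 0) →
    ∀ β : M → U, Bd ⊤ ⊤ 1 (fun s y => nU (c s y)) β → (∀ y, a (β y) = 0) →
    ∃ β', Bd ⊤ ⊤ 1 c β'

/-! ### Analytic number theory -/

/-- the term of a Dirichlet series -/
noncomputable def nz {k : Type} [Field k] [NumberField k] (I : Ideal (𝓞 k)) (s : ℝ) : ℝ :=
  (Ideal.absNorm I : ℝ) ^ (-s)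

/-- the sum over all primes -/
def RowZ : Prop :=
  ∀ (k : Type) [Field k] [NumberField k],
    (∀ s : ℝ, 1 < s → Summable fun I : Ideal (𝓞 k) => nz I s) ∧
    (∃ C : ℝ, ∀ᶠ s in 𝓝[>] (1 : ℝ), (s - 1) * ∑' I : Ideal (𝓞 k), nz I s ≤ C) ∧
    ∃ C : ℝ, ∀ᶠ s in 𝓝[>] (1 : ℝ), |∑' v : Sp k, nz v.asIdeal s - Real.log (1 / (s - 1))| ≤ C

/-- periodic functions of mean zero give bounded Dirichlet series -/
def RowAL : Prop :=
  ∀ (k : Type) [Field k] [NumberField k] (Q : ℕ) (Θ : Ideal (𝓞 k) → ℂ) (R : Finset (𝓞 k)),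
    0 < Q → (∀ s : ℝ, 1 < s → Summable fun I : Ideal (𝓞 k) => nz I s) →
    (∀ I, ¬ I.IsPrincipal → Θ I = 0) →
    (∀ a b : 𝓞 k, Θ (Ideal.span {a + Q * b}) = Θ (Ideal.span {a})) →
    (∀ a : 𝓞 k, ∃! r, r ∈ R ∧ (Q : 𝓞 k) ∣ a - r) → ∑ r ∈ R, Θ (Ideal.span {r}) = 0 →
    ∃ C : ℝ, ∀ s : ℝ, 1 < s → s < 2 → ‖∑' I : Ideal (𝓞 k), Θ I * (nz I s : ℂ)‖ ≤ C

/-- upper density of the primes in the kernel of a quotient of a ray class group -/
def RowRC : Prop :=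
  ∀ (k : Type) [Field k] [NumberField k] (l M : ℕ) (B : Type) [AddCommGroup B] [Finite B]
    (χ : Dv k l →+ B), 2 ≤ l → Function.Surjective χ → (∀ x ∈ Ray k l M, χ (dv k l x) = 0) →
    ∃ C : ℝ, ∀ᶠ s in 𝓝[>] (1 : ℝ),
      Nat.card B * ∑' v : {v : Pr k l // χ (Finsupp.single v 1) = 0}, nz v.1.1.asIdeal s ≤
        Real.log (1 / (s - 1)) + C

/-- the second inequality -/
def RowSI : Prop :=
  ∀ (k F : Type) [Field k] [NumberField k] [Field F] [NumberField F] [Algebra k F] (l M : ℕ)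
    (B : Type) [AddCommGroup B] [Finite B] (χ : Dv k l →+ B), 2 ≤ l → Function.Surjective χ →
    (∀ x ∈ Ray k l M, χ (dv k l x) = 0) → (∀ D, χ (nrD F l k D) = 0) →
    Nat.card B ≤ Module.finrank k F

/-- unramified outside `l` -/
def Unr (k F : Type) [Field k] [NumberField k] [Field F] [NumberField F] [Algebra k F] (l : ℕ) :
    Prop :=
  ∀ w : Pr F l, w.1.asIdeal.ramificationIdx (𝓞 k) = 1

/-- norms from a disjoint extension are not all in the norm group -/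
def RowS2 : Prop :=
  ∀ (p : ℕ), p.Prime → ∀ (k F k' F' G G' : Type) [Field k] [NumberField k] [Field F]
    [NumberField F] [Field k'] [NumberField k'] [Field F'] [NumberField F'] [Algebra k F]
    [Algebra k k'] [Algebra F F'] [Algebra k' F'] [Algebra k F'] [IsScalarTower k F F']
    [IsScalarTower k k' F'] [Group G] [MulSemiringAction G F] [IsGaloisGroup G k F] [Group G']
    [MulSemiringAction G' F'] [IsGaloisGroup G' k' F'] (σ : G) (σ' : G') (l M : ℕ)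
    (B : Type) [AddCommGroup B] (χ : Dv k l →+ B), Nat.card G = p → Nat.card G' = p → σ ≠ 1 →
    (∀ x, algebraMap F F' (σ • x) = σ' • algebraMap F F' x) → 2 ≤ l → Unr k F l →
    Nat.card B = p → Function.Surjective χ → (∀ x ∈ Ray k l M, χ (dv k l x) = 0) →
    (∀ D, χ (nrD F l k D) = 0) → ∃ D, χ (nrD k' l k D) ≠ 0

/-! ### Algebraic number theory -/

/-- a congruence subgroup without cohomology -/
def RowU : Prop :=
  ∀ (p : ℕ), p.Prime → ∀ (k F G : Type) [Field k] [NumberField k] [Field F] [NumberField F]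
    [Algebra k F] [Group G] [MulSemiringAction G F] [IsGaloisGroup G k F] (σ : G) (l : ℕ),
    Nat.card G = p → σ ≠ 1 → 2 ≤ l →
    ∃ U : AddSubgroup (Un F), (∀ x ∈ U, σ • x ∈ U) ∧ U ≤ Ru F l ∧ (∃ M, Ray F l M ≤ U) ∧
      (∀ x ∈ U, Nm σ p x = 0 → ∃ y ∈ U, x = σ • y - y) ∧
      ∀ M, ∀ x ∈ U, σ • x = x → ∃ y ∈ U, x - Nm σ p y ∈ Ray F l M

/-- residue rings of a simple extension -/
def RowGEN : Prop :=
  ∀ (k F : Type) [Field k] [NumberField k] [Field F] [NumberField F] [Algebra k F] (α : 𝓞 F)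
    (g : (𝓞 k)[X]) (v : Sp k), g.Monic → aeval α g = 0 →
    IntermediateField.adjoin k {(α : F)} = ⊤ → (g.map (Ideal.Quotient.mk v.asIdeal)).Separable →
    ∀ x : 𝓞 F, ∃ h : (𝓞 k)[X], x - aeval α h ∈ v.asIdeal.map (algebraMap (𝓞 k) (𝓞 F))

/-- extensions inert at all primes dividing `l` -/
def RowIN : Prop :=
  ∀ (k F : Type) [Field k] [NumberField k] [Field F] [NumberField F] [Algebra k F] (l : ℕ)
    (α : 𝓞 F) (g : (𝓞 k)[X]), 2 ≤ l → g.Monic → aeval α g = 0 →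
    g.natDegree = Module.finrank k F →
    (∀ v : Pl k l, Irreducible (g.map (Ideal.Quotient.mk v.1.asIdeal))) →
    Function.Injective (fun w : Pl F l => w.und k) ∧
      ∀ M, ∀ x ∈ Ru k l, ∃ y ∈ Ru F l, x - Un.nrm k F y ∈ Ray k l M

/-- norm indices in a cyclic extension of prime degree -/
def RowLAY : Prop :=
  ∀ (p : ℕ), p.Prime → ∀ (k F G : Type) [Field k] [NumberField k] [Field F] [NumberField F]
    [Algebra k F] [Group G] [MulSemiringAction G F] [IsGaloisGroup G k F] (σ : G) (l : ℕ),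
    Nat.card G = p → σ ≠ 1 → 2 ≤ l → (∃ i : k, i ^ 2 = -1) → Unr k F l →
    ∃ M0, ∀ M, M0 ≤ M →
      (∀ x ∈ Ray k l M, dv k l x ∈ (nrD F l k).range → x ∈ (Un.nrm k F).range) ∧
      ((nrD F l k).range ⊔ (Ray k l M).map (dv k l)).index = p ∧
      ((Un.nrm k F).range ⊔ Ray k l M).index = hc (A := Pl F l →₀ ℤ) (Df σ) (Nm σ p) ∧
      hc (A := Pl F l →₀ ℤ) (Df σ) (Nm σ p) ≠ 0

/-- base change to an inert extension kills a class whose period divides the degree -/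
def RowCORE : Prop :=
  ∀ (p : ℕ), p.Prime → ∀ (P F F' M : Type) [Group P] [Finite P] [Field F] [NumberField F]
    [Field F'] [NumberField F'] [Algebra F F'] [MulSemiringAction P F] [MulSemiringAction P F']
    [FaithfulSMul P F] [AddCommGroup M] [DistribMulAction P M] [Module.Free ℤ M] (l : ℕ)
    (α : 𝓞 F') (g : (𝓞 F)[X]), IsPGroup p P →
    (∀ (s : P) x, algebraMap F F' (s • x) = s • algebraMap F F' x) →
    (∃ i : F, i ^ 2 = -1 ∧ ∀ s : P, s • i = i) → 2 ≤ l →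
    (∃ θ : 𝓞 F, ∀ s : P, s ≠ 1 → ∀ w : Pr F l, s • θ - θ ∉ w.1.asIdeal) →
    (∀ (w : Pl F l) (x : 𝓞 F), ∃ y : 𝓞 F, (∀ s : P, s • y = y) ∧ x - y ∈ w.1.asIdeal) →
    g.Monic → aeval α g = 0 → g.natDegree = Module.finrank F F' →
    (∀ w : Pl F l, Irreducible (g.map (Ideal.Quotient.mk w.1.asIdeal))) →
    (∀ s : P, s • α = α) → (∀ (s : P) n, s • g.coeff n = g.coeff n) →
    ∀ c : P → M → Un F, Coc ⊤ ⊤ c → (∀ s y, dv F l (c s y) = 0) →
    ∀ β : M → Un F, Bd ⊤ ⊤ (Module.finrank F F') c β → (∀ y, dv F l (β y) = 0) →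
    ∃ β' : M → Un F', Bd ⊤ ⊤ 1 (fun s y => Un.inc F F' (c s y)) β'

/-- bound for the index in terms of the period -/
def RowIDX : Prop :=
  ∀ (p : ℕ), p.Prime → ∀ (V : Type) [AddCommGroup V] [DistribMulAction Ga V] (H N : Subgroup Ga)
    (M : AddSubgroup V) [Module.Free ℤ M] [Module.Finite ℤ M] (c : Ga → V → Un Om) (a j : ℕ),
    IsOpen (N : Set Ga) → N ≤ H → (∀ σ ∈ H, ∀ ν ∈ N, σ * ν * σ⁻¹ ∈ N) →
    (∃ i : Om, i ^ 2 = -1 ∧ ∀ σ ∈ H, σ i = i) → Stab H M → (∀ ν ∈ N, ∀ y ∈ M, ν • y = y) →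
    Coc H M c → (∀ ν ∈ N, ∀ y ∈ M, c ν y = 0) →
    (∀ σ ∈ H, ∃ q : ℕ, q.Coprime p ∧ σ ^ (q * p ^ a) ∈ N) →
    (∀ S : Subgroup Ga, N ≤ S → S ≤ H → (∀ σ ∈ S, ∃ k, σ ^ p ^ k ∈ N) →
      ∃ β, Bd S M (p ^ j) c β) →
    ∃ H' : Subgroup Ga, IsOpen (H' : Set Ga) ∧ H' ≤ H ∧ H'.relIndex H ≤ p ^ (a + j) ∧
      ∃ t : ℕ, t.Coprime p ∧ ∃ β, Bd H' M t c β

/-! ### Semilinear actions -/

/-- removing an abelian kernel -/
def RowC : Prop :=
  ∀ (E W : Type) [Group E] [AddCommGroup W] [Module Om W] [FiniteDimensional Om W]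
    [DistribMulAction E W] (π : E →* Ga) (E0 : Subgroup E) (r : ℕ),
    (∀ (e : E) (a : Om) (w : W), e • a • w = π e a • e • w) →
    IsOpen ((E0.map π : Subgroup Ga) : Set Ga) → (∀ w : W, Opn π E0 (MulAction.stabilizer E w)) →
    (∃ i : Om, i ^ 2 = -1 ∧ ∀ e, π e i = i) → Finite π.ker → 0 < r →
    (∀ g, π g = 1 → ∀ w : W, g ^ r • w = w) →
    (∀ g h, π g = 1 → π h = 1 → ∀ w : W, g • h • w = h • g • w) →
    ∃ (E' : Subgroup E) (T : Finset ℕ), Opn π E0 E' ∧ (∀ g ∈ E', π g = 1 → ∀ w : W, g • w = w) ∧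
      (∀ p ∈ T, p.Prime ∧ p ∣ r) ∧
      (∀ y, 2 ≤ y → Module.finrank Om W < y ^ 2 →
        (T.filter (y ≤ ·)).card * (y - 1) ≤ Module.finrank Om W) ∧
      (E'.map π).relIndex π.range ≤ ∏ p ∈ T, p ^ Jb (Nat.log p (Module.finrank Om W))

/-- removing a finite kernel -/
def RowB : Prop :=
  ∀ (E W : Type) [Group E] [AddCommGroup W] [Module Om W] [FiniteDimensional Om W]
    [DistribMulAction E W] (π : E →* Ga) (E0 : Subgroup E),
    (∀ (e : E) (a : Om) (w : W), e • a • w = π e a • e • w) →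
    IsOpen ((E0.map π : Subgroup Ga) : Set Ga) → (∀ w : W, Opn π E0 (MulAction.stabilizer E w)) →
    (∃ i : Om, i ^ 2 = -1 ∧ ∀ e, π e i = i) → Finite π.ker →
    (∀ g, π g = 1 → (∀ w : W, g • w = w) → g = 1) →
    ∃ (E' : Subgroup E) (T : Finset ℕ), Opn π E0 E' ∧ (∀ g ∈ E', π g = 1 → g = 1) ∧
      (∀ p ∈ T, p.Prime) ∧
      (∀ y, 2 ≤ y → Module.finrank Om W < y ^ 2 →
        (T.filter (y ≤ ·)).card * (y - 1) ≤ 2 * Module.finrank Om W) ∧
      (E'.map π).relIndex π.range ≤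
        ∏ p ∈ T, p ^ ((Nat.log p (Module.finrank Om W ^ 2) + 1) *
          Jb (Nat.log p (Module.finrank Om W ^ 2)))

/-- the automorphism group of a morphism of degree at least two is finite -/
def RowFIN : Prop :=
  ∀ (n d : ℕ) (f : Fin n → MvPolynomial (Fin n) Om), 2 ≤ d → (∀ i, (f i).IsHomogeneous d) →
    (∀ x : Fin n → Om, (∀ i, MvPolynomial.eval x (f i) = 0) → x = 0) →
    {φ : Matrix (Fin n) (Fin n) Om | φ.det = 1 ∧ ∃ c : Om, c ≠ 0 ∧ ∀ x : Fin n → Om,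
      (fun i => MvPolynomial.eval (φ.mulVec x) (f i)) =
        c • φ.mulVec fun i => MvPolynomial.eval x (f i)}.Finite

/-- the final estimate -/
def RowG : Prop :=
  ∃ c : ℝ, ∀ (N : ℕ) (T : Finset ℕ), 1 ≤ N → (∀ p ∈ T, p.Prime) →
    (∀ y, 2 ≤ y → N + 1 < y ^ 2 → (T.filter (y ≤ ·)).card * (y - 1) ≤ 2 * (N + 1)) →
    ((2 * ∏ p ∈ T, p ^ ((Nat.log p ((N + 1) ^ 2) + 1) * Jb (Nat.log p ((N + 1) ^ 2))) : ℕ) : ℝ) ≤
      Real.exp (c * Real.sqrt (N * Real.log (N + 1)))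

end Pool.Agent.MP_db5b97_nt.H85
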