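import Pool.Agent.MP_db5b97_nt.H85.D2
import Pool.Agent.MP_db5b97_nt.H85.Spec

/-! The period bound. -/

namespace Pool.Agent.MP_db5b97_nt.H85

open MulAction Polynomial commutatorElement

section

variable {G V O A : Type} [Group G] [Finite G] [CommRing O] [IsDomain O] [CharZero O]
  [AddCommGroup V] [Module O V] [Module.IsTorsionFree O V] [Module.Finite O V]
  [DistribMulAction G V] [SMulCommClass G O V] [AddCommGroup A] [DistribMulAction G A]
  {p k : ℕ} [hp : Fact p.Prime] {ζ : O}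

omit [CharZero O] [Module.Finite O V] in
theorem d_base (hζ : IsPrimitiveRoot ζ (p ^ k)) (hA : ∀ Q : Subgroup G, H90 A Q)
    (hfree : ∀ H : AddSubgroup V, Module.Free ℤ H) (U : Subgroup G) (Y : Submodule O V)
    (he : ∀ u ∈ U, ∀ y : V, u ^ p ^ k • y = y) (hY : ∀ u ∈ U, ∀ y ∈ Y, u • y ∈ Y)
    (hs : ∀ b : U, ∃ a : O, ∀ y ∈ Y, (b : G) • y = a • y) : Kill A U Y.toAddSubgroup (p ^ k) := by
  have := hfree Y.toAddSubgroup
  by_cases h0 : Y = ⊥
  · refine (kill_triv (hA U) fun s _ y hy => ?_).of_dvd (one_dvd _)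
    rw [(Submodule.eq_bot_iff _).1 h0 y hy, smul_zero]
  choose a ha using hs
  let χ : Chs Y U.subtype := ⟨a, fun h => h0 (eq_bot_iff.2 (h ▸ fun y hy => ⟨hy, fun g _ => ha g y hy⟩))⟩
  have hr : (χ.hom.toHomUnits.ker.map U.subtype).relIndex U = Nat.card χ.hom.toHomUnits.range := by
    rw [← Subgroup.index_ker, Subgroup.relIndex, Subgroup.subgroupOf,
      Subgroup.comap_map_eq_self_of_injective U.subtype_injective]
  refine (Kill.cores (S := χ.hom.toHomUnits.ker.map U.subtype) (Subgroup.map_subtype_le _)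
    Subgroup.FiniteIndex.index_ne_zero (Y := Y.toAddSubgroup) hY (kill_triv (hA _) ?_)).of_dvd ?_
  · rintro _ ⟨u, hu, rfl⟩ y hy
    exact (ha u y hy).trans (by rw [show a u = 1 from congrArg Units.val hu, one_smul])
  · rw [mul_one, hr, ← hζ.card_rootsOfUnity]
    refine Subgroup.card_dvd_of_le ?_
    rintro _ ⟨u, rfl⟩
    exact Units.ext (χ.pow (f := U.subtype) (fun g => he g g.2) u)

theorem d_claim (hζ : IsPrimitiveRoot ζ (p ^ k)) (hA : ∀ Q : Subgroup G, H90 A Q)
    (hfree : ∀ H : AddSubgroup V, Module.Free ℤ H) (hm : Module.finrank O V < p ^ (k + 1)) (l : ℕ)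
    (U : Subgroup G) (Y : Submodule O V) (hU : IsPGroup p U)
    (he : ∀ u ∈ U, ∀ y : V, u ^ p ^ k • y = y) (hY : ∀ u ∈ U, ∀ y ∈ Y, u • y ∈ Y)
    (hs : ∀ b ∈ derivedSeries U l, ∃ a : O, ∀ y ∈ Y, (b : G) • y = a • y) :
    Kill A U Y.toAddSubgroup (p ^ k * ((p ^ k) ^ (k + 1)) ^ l) := by
  induction l generalizing U Y with
  | zero => simpa using d_base hζ hA hfree U Y he hY fun b => hs b trivial
  | succ l ih =>
  let _ : MulAction U Y :=
    { smul := fun u y => ⟨(u : G) • (y : V), hY u u.2 y y.2⟩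
      one_smul := fun y => Subtype.ext (one_smul G y.1)
      mul_smul := fun u v y => Subtype.ext (mul_smul (u : G) v y.1) }
  obtain ⟨L, hB, hN, hc, hmax⟩ := d_exL hU (toPermHom U Y) (derivedSeries U l)
  let f : L →* G := U.subtype.comp L.subtype
  have hconj : ∀ (u : U) (χ : L → O), ∀ y ∈ eig Y f Set.univ χ,
      (u : G) • y ∈ eig Y f Set.univ fun g => χ (MulAut.conjNormal u⁻¹ g) := fun u χ y hy =>
    ⟨hY u u.2 y hy.1, fun g _ => by
      beta_reduce
      rw [← smul_comm (u : G) (χ _), ← hy.2 _ trivial, smul_smul, smul_smul]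
      simp [f, mul_assoc]⟩
  let _ : MulAction U (Chs Y f) :=
    { smul := fun u χ => ⟨fun g => χ.1 (MulAut.conjNormal u⁻¹ g), by
        obtain ⟨y, hy, h0⟩ := (Submodule.ne_bot_iff _).1 χ.2
        exact (Submodule.ne_bot_iff _).2 ⟨_, hconj u _ y hy,
          fun e => h0 ((smul_eq_zero_iff_eq _).1 e)⟩⟩
      one_smul := fun χ => Subtype.ext (funext fun g => by
        show χ.1 (MulAut.conjNormal 1⁻¹ g) = _
        simp)
      mul_smul := fun u v χ => Subtype.ext (funext fun g => by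
        show χ.1 (MulAut.conjNormal (u * v)⁻¹ g) =
          χ.1 (MulAut.conjNormal v⁻¹ (MulAut.conjNormal u⁻¹ g))
        simp) }
  have hL := hU.to_subgroup L
  have hfY : ∀ g, ∀ y ∈ Y, f g • y ∈ Y := fun g => hY _ g.1.2
  have hfe : ∀ g (y : V), f g ^ p ^ k • y = y := fun g => he _ g.1.2
  have he0 := pow_pos hp.out.pos k
  rw [pow_succ, ← mul_assoc]
  have hfc : ∀ g h, ∀ y ∈ Y, f g • f h • y = f h • f g • y := fun g h y hy => by
    exact congrArg Subtype.val (DFunLike.congr_fun (hc g g.2 h h.2).eq (⟨y, hy⟩ : Y))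
  refine Kill.scale (Y' := ⨆ χ : Chs Y f, (eig Y f Set.univ χ.1).toAddSubgroup)
    (iSup_le fun χ y hy => hy.1) (fun y hy => eig_dec hζ he0 hL hfY hfc hfe hm hy)
    (shapiro _ (fun χ => ?_) (fun u χ y hy => hconj u χ.1 y hy) fun χ => ih _ _
      ((hU.to_subgroup _).map _) (fun u hu => he u (Subgroup.map_subtype_le _ hu)) ?_ fun b hb => ?_)
  · refine AddSubgroup.disjoint_def.2 fun hy hy' => Submodule.disjoint_def.1
      (eig_ind he0 hL hfY hfe χ) _ hy ?_
    refine (?_ : _ ≤ (⨆ ψ, ⨆ (_ : ψ ≠ χ), eig Y f Set.univ ψ.1).toAddSubgroup) hy'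
    exact iSup₂_le fun ψ h x hx => Submodule.mem_iSup_of_mem ψ (Submodule.mem_iSup_of_mem h hx)
  · rintro _ ⟨u, hu, rfl⟩ y hy
    exact (congrArg Subtype.val hu : _ = χ.1) ▸ hconj u χ.1 y hy
  · obtain ⟨_, u, hu, rfl⟩ := b
    have hb' : u ∈ derivedSeries U l := map_derivedSeries_le_derivedSeries
      (Subgroup.inclusion (Subgroup.map_subtype_le _)) l ⟨_, hb, rfl⟩
    have huL : u ∈ L := hmax u hb' fun g hg => by
      obtain ⟨a, ha⟩ := hs _ (Subgroup.commutator_mem_commutator hb' (hB hg))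
      obtain ⟨y, hy, h0, h⟩ := χ.ex
      have h1 : χ.1 (MulAut.conjNormal u⁻¹⁻¹ ⟨g, hg⟩) = χ.1 ⟨g, hg⟩ :=
        congrFun (congrArg Subtype.val (inv_mem hu : u⁻¹ ∈ stabilizer U χ)) _
      have h2 := ha _ (hfY ⟨g, hg⟩ y hy)
      have h3 : ((⁅u, g⁆ : U) : G) • f ⟨g, hg⟩ • y = f (MulAut.conjNormal u⁻¹⁻¹ ⟨g, hg⟩) • y := by
        simp [f, smul_smul, commutatorElement_def]
      rw [h3, h, h1, ← h] at h2
      have h4 : a = 1 := smul_left_injective O (fun e => h0 ((smul_eq_zero_iff_eq _).1 e))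
        (h2.symm.trans (one_smul O _).symm)
      rw [← commutatorElement_eq_one_iff_commute, ← map_commutatorElement]
      exact Equiv.ext fun z => Subtype.ext ((ha z z.2).trans (by rw [h4, one_smul]; rfl))
    exact ⟨χ.1 ⟨u, huL⟩, fun y hy => hy.2 ⟨u, huL⟩ trivial⟩

end

theorem rowD : RowD := by
  intro p hp G X A _ _ _ _ _ _ hA U M hU hM
  have : Fact p.Prime := ⟨hp⟩
  set k := Nat.log p (Fintype.card X)
  have hk : Fintype.card X < p ^ (k + 1) := Nat.lt_pow_succ_log_self hp.one_lt _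
  have he0 := pow_pos hp.pos k
  let O := AdjoinRoot (cyclotomic (p ^ k) ℤ)
  have : IsDomain O := AdjoinRoot.isDomain_of_prime (cyclotomic.irreducible he0).prime
  let pb : PowerBasis ℤ O := AdjoinRoot.powerBasis' (cyclotomic.monic _ _)
  have := pb.finite
  have := Module.Free.of_basis pb.basis
  have : CharZero O := charZero_of_injective_algebraMap (FaithfulSMul.algebraMap_injective ℤ O)
  have hζ : IsPrimitiveRoot (AdjoinRoot.root _ : O) (p ^ k) := by
    have := AdjoinRoot.isRoot_root (cyclotomic (p ^ k) ℤ)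
    rwa [map_cyclotomic, isRoot_cyclotomic_iff] at this
  let τ : O →+ ℤ := (pb.basis.coord ⟨0, pb.dim_pos⟩).toAddMonoidHom
  have hτ : τ 1 = 1 := by
    rw [← show pb.basis ⟨0, pb.dim_pos⟩ = 1 by simp]
    simp only [τ, LinearMap.toAddMonoidHom_coe, Module.Basis.coord_apply, Module.Basis.repr_self,
      Finsupp.single_eq_same]
  have hτ' : ∀ (a : O) (n : ℤ), τ (a * n) = τ a * n := fun a n => by
    rw [mul_comm, ← zsmul_eq_mul, map_zsmul, smul_eq_mul, mul_comm]
  have : SMulCommClass G O (X →₀ O) := ⟨fun _ _ _ => Finsupp.ext fun _ => by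
    simp only [Finsupp.comapSMul_apply, Finsupp.smul_apply]⟩
  have hi : ∀ a : X, (stabilizer U a).index < p ^ (k + 1) := fun a => by
    rw [index_stabilizer]
    exact ((Set.ncard_le_card _).trans_eq Nat.card_eq_fintype_card).trans_lt hk
  have ht : ∀ u : U, (∀ a : X, u ∈ stabilizer U a) → ∀ y : X →₀ O, (u : G) • y = y := fun u h y =>
    Finsupp.ext fun a => (Finsupp.comapSMul_apply _ _ _).trans
      (congrArg y (inv_mem (h a) : u⁻¹ ∈ stabilizer U a))
  let φ : (X →₀ ℤ) →+ (X →₀ O) := Finsupp.mapRange.addMonoidHom (Int.castAddHom O)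
  let ψ : (X →₀ O) →+ (X →₀ ℤ) := Finsupp.mapRange.addMonoidHom τ
  have hφ : ∀ (u : G) y, φ (u • y) = u • φ y := fun _ _ => Finsupp.ext fun _ => by
    simp [φ, Finsupp.comapSMul_apply]
  have hψ : ∀ (u : G) y, ψ (u • y) = u • ψ y := fun _ _ => Finsupp.ext fun _ => by
    simp [ψ, Finsupp.comapSMul_apply]
  have h := d_claim (V := X →₀ O) hζ hA (fun H => by
      have := Module.Finite.of_injective H.subtype.toIntLinearMap Subtype.val_injective
      infer_instance) (by rwa [Module.finrank_finsupp_self]) k U (Submodule.span O (φ '' M)) hU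
    (fun u hu => ht (⟨u, hu⟩ ^ p ^ k) fun a => d_pow hU _ (hi a) _) (fun u hu y hy => ?_)
    fun b hb => ⟨1, fun y _ => by rw [one_smul]; exact ht b (fun a => d_der hU _ (hi a) hb) y⟩
  · refine (h.retract (m := 1) φ ψ (fun x _ y _ => map_add φ x y) (fun x _ y _ => map_add ψ x y)
      (fun y hy => Submodule.subset_span (Set.mem_image_of_mem φ hy)) (fun z hz => ?_)
      (fun u _ y _ => hφ u y) (fun u _ y _ => hψ u y)
      fun y _ => Finsupp.ext fun a => ?_).of_dvd (dvd_of_eq ?_)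
    · suffices ∀ a : O, ψ (a • z) ∈ M by simpa using this 1
      induction hz using Submodule.span_induction with
      | mem x hx =>
        obtain ⟨m, hm, rfl⟩ := hx
        exact fun a => (Finsupp.ext fun x => hτ' a (m x) : ψ (a • φ m) = τ a • m) ▸ zsmul_mem hm _
      | zero => simp
      | add x y _ _ hx hy => exact fun a => by simpa using add_mem (hx a) (hy a)
      | smul b x _ hx => exact fun a => smul_smul a b x ▸ hx _
    · simpa [hτ, φ, ψ] using hτ' 1 (y a)
    · rw [jb]; ring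
  · induction hy using Submodule.span_induction with
    | mem x hx =>
      obtain ⟨m, hm, rfl⟩ := hx
      exact Submodule.subset_span ⟨u • m, hM u hu m hm, hφ u m⟩
    | zero => simp
    | add x y _ _ hx hy => exact smul_add u x y ▸ add_mem hx hy
    | smul b x _ hx => exact smul_comm u b x ▸ Submodule.smul_mem _ b hx

end Pool.Agent.MP_db5b97_nt.H85
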