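import Pool.Agent.MP_db5b97_nt.H85.PI
import Pool.Agent.MP_db5b97_nt.H85.D3
import Pool.Agent.MP_db5b97_nt.H7.LA
import Pool.Agent.MP_db5b97_nt.H10.NT1
import Pool.Agent.MP_db5b97_nt.H19.DENS
import Pool.Agent.MP_db5b97_nt.H21.NT2
import Pool.Agent.MP_db5b97_nt.H25.HQ
import Pool.Agent.MP_db5b97_nt.H30.B
import Pool.Agent.MP_db5b97_nt.H35.C
import Pool.Agent.MP_db5b97_nt.H35.SQ
import Pool.Agent.MP_db5b97_nt.H36.AL
import Pool.Agent.MP_db5b97_nt.H41.FIN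
import Pool.Agent.MP_db5b97_nt.H47.U
import Pool.Agent.MP_db5b97_nt.H53.DT
import Pool.Agent.MP_db5b97_nt.H54.E
import Pool.Agent.MP_db5b97_nt.H55.CT
import Pool.Agent.MP_db5b97_nt.H57.E1
import Pool.Agent.MP_db5b97_nt.H61.TOP
import Pool.Agent.MP_db5b97_nt.H72.ZRC
import Pool.Agent.MP_db5b97_nt.H74.LAY
import Pool.Agent.MP_db5b97_nt.H76.CORE
import Pool.Agent.MP_db5b97_nt.H76.IN
import Pool.Agent.MP_db5b97_nt.H79.UQ
import Pool.Agent.MP_db5b97_nt.H95.G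
import Pool.Agent.MP_db5b97_nt.H95.RES

/-! Assembly. -/

namespace Pool.Agent.MP_db5b97_nt.H85

theorem allRC : RowRC := H72.rowRC H36.rowAL

theorem allSI : RowSI := H19.rowSI H72.rowZ allRC

theorem allS2 : RowS2 := H19.rowS2 H72.rowZ allRC

theorem allLAY : RowLAY :=
  H74.rowLAY H10.rowNT1 rowNT2 H25.rowHQ H7.rowLA (H79.rowUQ H25.rowHQ) H47.rowU allSI

theorem allCORE : RowCORE :=
  H76.rowCORE H10.rowNT1 rowNT2 (H35.rowSQ H10.rowNT1 rowNT2 allLAY allS2 H76.rowIN) H55.rowCT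

theorem allIDX : RowIDX := rowIDX (rowRES H76.rowGEN) allCORE

theorem allPI : RowPI := rowPI rowNT2 rowD (H54.rowE (H57.rowE1 H25.rowHQ)) allIDX

theorem allB : RowB := H30.rowB (H35.rowC (H53.rowTOR H53.rowDS) allPI)

theorem allTOP : RowTOP := H61.rowTOP H53.rowDS rowFIN allB rowG

end Pool.Agent.MP_db5b97_nt.H85
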