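import Pool.Agent.MP_db5b97_nt.H85.Bas

/-! Group theory for the period bound. -/

namespace Pool.Agent.MP_db5b97_nt.H85

open MulAction

variable {p : ℕ} [hp : Fact p.Prime] {P : Type} [Group P] [Finite P]

theorem d_comm_sup (hP : IsPGroup p P) {S : Subgroup P} (hS : S ≠ ⊤) : S ⊔ commutator P ≠ ⊤ := by
  obtain ⟨H, hH, hSH⟩ := (eq_top_or_exists_le_coatom S).resolve_left hS
  have := hP.isNilpotent
  have : H.Normal := Subgroup.NormalizerCondition.normal_of_coatom H
    Group.normalizerCondition_of_isNilpotent hH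
  have : Nontrivial (P ⧸ H) := QuotientGroup.nontrivial_iff.2 hH.1
  have h1 := Group.IsSolvable.commutator_lt_top_of_nontrivial (P ⧸ H)
  intro h
  refine h1.ne (eq_top_iff.2 ?_)
  rw [← Subgroup.map_top_of_surjective _ (QuotientGroup.mk'_surjective H), ← h, Subgroup.map_sup,
    sup_le_iff]
  refine ⟨?_, map_derivedSeries_le_derivedSeries (QuotientGroup.mk' H) 1⟩
  rintro _ ⟨x, hx, rfl⟩
  rw [QuotientGroup.mk'_apply, (QuotientGroup.eq_one_iff x).2 (hSH hx)]
  exact one_mem _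

theorem d_le_index (hP : IsPGroup p P) {S : Subgroup P} (hS : S ≠ ⊤) : p ≤ S.index := by
  obtain ⟨n, hn⟩ := hP.index S
  rcases n with _ | n
  · exact (hS (Subgroup.index_eq_one.1 hn)).elim
  · rw [hn]
    exact Nat.le_self_pow n.succ_ne_zero p

theorem d_rel_step (hP : IsPGroup p P) (D S : Subgroup P) (h : ¬ D ≤ S) :
    S.relIndex ⁅D, D⁆ * p ≤ S.relIndex D := by
  have h1 : S.subgroupOf D ≠ ⊤ := fun e => h (Subgroup.subgroupOf_eq_top.1 e)
  have h2 := d_le_index (hP.to_subgroup D) (d_comm_sup (hP.to_subgroup D) h1)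
  rw [← Subgroup.map_subtype_commutator, ← Subgroup.relIndex_comap]
  refine le_trans (Nat.mul_le_mul (Subgroup.relIndex_le_of_le_right le_sup_right
    Subgroup.FiniteIndex.index_ne_zero) h2) (Subgroup.relIndex_mul_index le_sup_left).le

theorem d_der (hP : IsPGroup p P) (S : Subgroup P) {k : ℕ} (h : S.index < p ^ (k + 1)) :
    derivedSeries P k ≤ S := by
  have h1 : ∀ i, derivedSeries P i ≤ S ∨ S.relIndex (derivedSeries P i) * p ^ i ≤ S.index := by
    intro i
    induction i with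
    | zero => simp
    | succ i ih =>
      by_cases hi : derivedSeries P i ≤ S
      · exact Or.inl ((Subgroup.commutator_le_left _ _).trans hi)
      · refine Or.inr (le_trans ?_ (ih.resolve_left hi))
        rw [pow_succ', ← mul_assoc]
        exact Nat.mul_le_mul_right _ (d_rel_step hP _ S hi)
  by_contra hk
  have h2 := d_le_index (hP.to_subgroup _) fun e => hk (Subgroup.subgroupOf_eq_top.1 e)
  have := (Nat.mul_le_mul_right (p ^ k) h2).trans ((h1 k).resolve_left hk)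
  rw [← pow_succ'] at this
  omega

theorem d_pow (hP : IsPGroup p P) (S : Subgroup P) {k : ℕ} (h : S.index < p ^ (k + 1)) (u : P) :
    u ^ p ^ k ∈ S := by
  obtain ⟨m, hm⟩ := (hP.to_subgroup (Subgroup.zpowers u)).index (S.subgroupOf _)
  have h1 : p ^ m ≤ S.index := by
    rw [← hm, ← S.relIndex_top_right]
    exact Subgroup.relIndex_le_of_le_right (H := S) le_top Subgroup.FiniteIndex.index_ne_zero
  have h2 : m ≤ k := Nat.lt_succ_iff.1 ((Nat.pow_lt_pow_iff_right hp.out.one_lt).1 (h1.trans_lt h))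
  have h3 : u ^ p ^ m ∈ S := by
    have := (S.subgroupOf (Subgroup.zpowers u)).pow_index_mem ⟨u, Subgroup.mem_zpowers u⟩
    rwa [hm] at this
  obtain ⟨j, rfl⟩ := Nat.exists_eq_add_of_le h2
  rw [pow_add, pow_mul]
  exact pow_mem h3 _

theorem d_avg (hP : IsPGroup p P) {ι : Type} (s : Finset ι) (K : ι → Subgroup P)
    (hK : ∀ i ∈ s, K i ≠ ⊤) [∀ g, DecidablePred fun i => g ∈ K i] :
    ∃ g : P, (s.filter fun i => g ∈ K i).card * p ≤ s.card := by
  classical
  have := Fintype.ofFinite P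
  obtain ⟨g, -, h⟩ := Finset.exists_le_of_sum_le (s := Finset.univ) Finset.univ_nonempty
    (f := fun g : P => (s.filter fun i => g ∈ K i).card * p) (g := fun _ => s.card) (by
      simp only [Finset.card_filter, ← Finset.sum_mul]
      rw [Finset.sum_comm, Finset.sum_mul, Finset.sum_const, smul_eq_mul, mul_comm, ← smul_eq_mul,
        ← Finset.sum_const]
      refine Finset.sum_le_sum fun i hi => ?_
      rw [← Finset.card_filter, Finset.card_univ, ← Nat.card_eq_fintype_card,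
        ← (K i).card_mul_index, Nat.card_eq_fintype_card, Fintype.card_subtype]
      exact Nat.mul_le_mul_left _ (d_le_index hP (hK i hi)))
  exact ⟨g, h⟩

theorem d_center (hP : IsPGroup p P) (C : Subgroup P) [C.Normal] (h : C ≠ ⊥) :
    ∃ z ∈ C, z ≠ 1 ∧ z ∈ Subgroup.center P := by
  let _ : MulAction P C := MulAction.compHom C (MulAut.conjNormal (H := C))
  obtain ⟨n, hn⟩ := (hP.to_subgroup C).exists_card_eq
  have hn0 : n ≠ 0 := fun e => h (Subgroup.card_eq_one.1 (by simpa [e] using hn))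
  obtain ⟨z, hz, hz1⟩ := hP.exists_fixed_point_of_prime_dvd_card_of_fixed_point C
    (hn ▸ dvd_pow_self p hn0) (a := 1) fun g => map_one (MulAut.conjNormal g)
  refine ⟨z, z.2, fun e => hz1 (Subtype.ext e.symm), Subgroup.mem_center_iff.2 fun g => ?_⟩
  exact mul_inv_eq_iff_eq_mul.1 (congrArg Subtype.val (hz g))

theorem d_exL (hP : IsPGroup p P) {E : Type} [Group E] (φ : P →* E) (B : Subgroup P) [B.Normal] :
    ∃ L : Subgroup P, L ≤ B ∧ L.Normal ∧ (∀ g ∈ L, ∀ h ∈ L, Commute (φ g) (φ h)) ∧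
      ∀ b ∈ B, (∀ g ∈ L, Commute (φ b) (φ g)) → b ∈ L := by
  obtain ⟨L, ⟨hB, hN, hc⟩, hmax⟩ := (Set.toFinite {L : Subgroup P | L ≤ B ∧ L.Normal ∧
    ∀ g ∈ L, ∀ h ∈ L, Commute (φ g) (φ h)}).exists_maximal
    ⟨⊥, bot_le, inferInstance, fun g hg h _ => by simp [Subgroup.mem_bot.1 hg]⟩
  refine ⟨L, hB, hN, hc, fun b hb h => by_contra fun hbL => ?_⟩
  let C : Subgroup P :=
    { carrier := {b | b ∈ B ∧ ∀ g ∈ L, Commute (φ b) (φ g)}
      mul_mem' := fun hx hy => ⟨mul_mem hx.1 hy.1, fun g hg => by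
        rw [map_mul]; exact (hx.2 g hg).mul_left (hy.2 g hg)⟩
      one_mem' := ⟨one_mem B, by simp⟩
      inv_mem' := fun hx => ⟨inv_mem hx.1, fun g hg => by
        rw [map_inv]; exact (hx.2 g hg).inv_left⟩ }
  have : C.Normal := ⟨fun x hx u => ⟨‹B.Normal›.conj_mem x hx.1 u, fun g hg => by
    have := (hx.2 _ (hN.conj_mem' g hg u)).map (MulAut.conj (φ u))
    simpa [mul_assoc] using this⟩⟩
  have := Subgroup.Normal.map this _ (QuotientGroup.mk'_surjective L)
  obtain ⟨_, ⟨z, hz, rfl⟩, hz1, hz2⟩ := d_center (hP.to_quotient L) (C.map (QuotientGroup.mk' L))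
    fun e => hbL ((QuotientGroup.eq_one_iff b).1 (Subgroup.mem_bot.1 (e.le ⟨b, ⟨hb, h⟩, rfl⟩)))
  have hm : ∀ g ∈ (Subgroup.zpowers (QuotientGroup.mk' L z)).comap (QuotientGroup.mk' L),
      ∃ n : ℤ, ∃ l ∈ L, g = z ^ n * l := fun g ⟨n, hn⟩ =>
    ⟨n, (z ^ n)⁻¹ * g, QuotientGroup.eq.1 hn, by simp⟩
  have hL : L ≤ (Subgroup.zpowers (QuotientGroup.mk' L z)).comap (QuotientGroup.mk' L) :=
    fun g hg => ⟨0, (zpow_zero _).trans ((QuotientGroup.eq_one_iff g).2 hg).symm⟩
  refine hz1 ((QuotientGroup.eq_one_iff z).2 (hmax ⟨fun g hg => ?_, ?_, fun g hg h hh => ?_⟩ hL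
    (Subgroup.mem_zpowers _)))
  · obtain ⟨n, l, hl, rfl⟩ := hm g hg
    exact mul_mem (zpow_mem hz.1 n) (hB hl)
  · refine Subgroup.Normal.comap ⟨fun x hx u => ?_⟩ _
    rwa [Subgroup.mem_center_iff.1 ((Subgroup.zpowers_le.2 hz2) hx) u, mul_inv_cancel_right]
  · obtain ⟨n, l, hl, rfl⟩ := hm g hg
    obtain ⟨m, l', hl', rfl⟩ := hm h hh
    simp only [map_mul, map_zpow]
    exact (((Commute.refl _).zpow_zpow n m).mul_right ((hz.2 l' hl').zpow_left n)).mul_left
      (((hz.2 l hl).symm.zpow_right m).mul_right (hc l hl l' hl'))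

end Pool.Agent.MP_db5b97_nt.H85
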