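import Pool.Agent.MP_db5b97_nt.H85.IDX
import Pool.Agent.MP_db5b97_nt.H85.D1

/-! Period and index for sublattices of permutation lattices. -/

namespace Pool.Agent.MP_db5b97_nt.H85

open MulAction

variable {H N : Subgroup Ga}

theorem transfer {V V' : Type} [AddCommGroup V] [DistribMulAction Ga V] [AddCommGroup V']
    [Nrm H N] [DistribMulAction (Qt H N) V'] {M : AddSubgroup V} {c : Ga → V → Un Om}
    (j : V' →+ V) (ρ : V →+ V') (hj : Function.Injective j) (hρ : ∀ y ∈ M, j (ρ y) = y)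
    (he : ∀ (s : H) z, j ((s : Qt H N) • z) = (s : Ga) • j z) (hNH : N ≤ H) (hM : Stab H M)
    (hNM : ∀ ν ∈ N, ∀ y ∈ M, ν • y = y) (hc : Coc H M c) (hcN : ∀ ν ∈ N, ∀ y ∈ M, c ν y = 0)
    {P : Subgroup (Qt H N)} {n : ℕ} (h : Kill (Un (Fx N)) P (M.comap j) n) :
    ∃ β, Bd (pre P) M n c β := by
  have hI : ∀ (s : H), ∀ y ∈ M, Un.inc (Fx N) Om (lft N (c (s : Qt H N).out y)) = c s y :=
    fun s y hy => by
      obtain ⟨ν, e⟩ := QuotientGroup.mk_out_eq_mul (N.subgroupOf H) s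
      rw [e, Subgroup.coe_mul, hc.mul_right (ν := (ν : H)) hNH hNM hcN s.2 ν.2 hy,
        inc_lft fun t ht => hc.fix hNH hM hNM hcN s.2 ht hy]
  have hm : ∀ y ∈ M, ρ y ∈ M.comap j := fun y hy => by rwa [AddSubgroup.mem_comap, hρ y hy]
  obtain ⟨β, h1, h2⟩ := h (fun q z => lft N (c q.out (j z))) (by
    refine ⟨fun q _ x hx y hy => inc_inj _ Om ?_, fun q _ r _ y hy => inc_inj _ Om ?_⟩
    · induction q using QuotientGroup.induction_on with
      | H s =>
        rw [map_add (Un.inc _ _), hI _ _ hx, hI _ _ hy, hI _ _ (add_mem hx hy :), map_add]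
        exact hc.1 s s.2 _ hx _ hy
    · induction q using QuotientGroup.induction_on with
      | H s =>
        induction r using QuotientGroup.induction_on with
        | H t =>
          have := hc.2 s s.2 t t.2 _ hy
          rw [← hI t _ hy] at this
          beta_reduce
          rw [map_add, he, hI _ _ (hM t t.2 _ hy)]
          exact (hI (s * t) _ hy).trans this)
  refine ⟨fun y => Un.inc _ Om (β (ρ y)), fun x hx y hy => ?_, fun s hs y hy => ?_⟩
  · simp only [map_add, h1 _ (hm x hx) _ (hm y hy)]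
  · obtain ⟨hs, hs'⟩ := mem_pre.1 hs
    have := congrArg (Un.inc _ Om) (h2 _ hs' _ (hm y hy))
    beta_reduce at this
    rwa [map_nsmul, hρ y hy, hI _ _ hy, map_sub, inc_smul, show ((⟨s, hs⟩ : H) : Qt H N) • ρ y =
      ρ (s • y) from hj (by rw [he, hρ y hy, hρ _ (hM s hs y hy)])] at this

/-- action on a stable finite set -/
@[reducible] noncomputable def Qt.xact [Nrm H N] {X : Finset Om} (hX : ∀ σ ∈ H, ∀ x ∈ X, σ x ∈ X)
    (h : ∀ ν ∈ N, ∀ x ∈ X, ν x = x) : MulAction (Qt H N) X where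
  smul q x := Quotient.liftOn' q (fun s => ⟨(s : Ga) x, hX s s.2 x x.2⟩) fun a b hab => by
    have := congrArg (a : Ga)
      (h _ (Subgroup.mem_subgroupOf.1 (QuotientGroup.leftRel_apply.1 hab)) x x.2)
    exact Subtype.ext (by simpa using this.symm)
  one_smul _ := rfl
  mul_smul a b _ := Quotient.inductionOn₂' a b fun _ _ => rfl

/-- the inclusion of lattices -/
noncomputable def jX (X : Finset Om) : (X →₀ ℤ) →+ (Om →₀ ℤ) :=
  Finsupp.mapDomain.addMonoidHom Subtype.val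

theorem le_pre_map [Nrm H N] {S : Subgroup Ga} (h : S ≤ H) :
    S ≤ pre (N := N) ((S.subgroupOf H).map (QuotientGroup.mk' _)) := fun s hs =>
  mem_pre.2 ⟨h hs, ⟨s, h hs⟩, hs, rfl⟩

variable {X : Finset Om} {M : AddSubgroup (Om →₀ ℤ)} {c : Ga → (Om →₀ ℤ) → Un Om}

theorem jX_smul [Nrm H N] (hX : ∀ σ ∈ H, ∀ x ∈ X, σ x ∈ X) (h : ∀ ν ∈ N, ∀ x ∈ X, ν x = x)
    (s : H) (z : X →₀ ℤ) :
    jX X (letI := Qt.xact hX h; (s : Qt H N) • z) = (s : Ga) • jX X z :=
  Finsupp.mapDomain_comp.symm.trans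
    (Finsupp.mapDomain_comp (f := ((↑) : X → Om)) (g := ((s : Ga) • ·)))

theorem fix_supp (hs : ∀ y ∈ M, y.support ⊆ X) (h : ∀ ν ∈ N, ∀ x ∈ X, ν x = x) :
    ∀ ν ∈ N, ∀ y ∈ M, ν • y = y := fun ν hν y hy =>
  (Finsupp.mapDomain_congr fun x hx => h ν hν x (hs y hy hx)).trans Finsupp.mapDomain_id

theorem transferX [Nrm H N] (hX : ∀ σ ∈ H, ∀ x ∈ X, σ x ∈ X) (h : ∀ ν ∈ N, ∀ x ∈ X, ν x = x)
    (hs : ∀ y ∈ M, y.support ⊆ X) (hNH : N ≤ H) (hM : Stab H M) (hc : Coc H M c)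
    (hcN : ∀ ν ∈ N, ∀ y ∈ M, c ν y = 0) {P : Subgroup (Qt H N)} {n : ℕ}
    (hk : letI := Qt.xact hX h; Kill (Un (Fx N)) P (M.comap (jX X)) n) :
    ∃ β, Bd (pre P) M n c β :=
  letI := Qt.xact hX h
  transfer (jX X) (Finsupp.comapDomain.addMonoidHom Subtype.val_injective)
    (Finsupp.mapDomain_injective Subtype.val_injective)
    (fun y hy => Finsupp.mapDomain_comapDomain _ Subtype.val_injective y
      fun x hx => ⟨⟨x, hs y hy hx⟩, rfl⟩) (jX_smul hX h) hNH hM (fix_supp hs h) hc hcN hk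

theorem pi_main (h2 : RowNT2) (hD : RowD) (hE : RowE) (hI : RowIDX) [ho : Ope N] [hn : Nrm H N]
    {r : ℕ} (hNH : N ≤ H) (hi : ∃ i : Om, i ^ 2 = -1 ∧ ∀ σ ∈ H, σ i = i)
    (hX : ∀ σ ∈ H, ∀ x ∈ X, σ x ∈ X) (h : ∀ ν ∈ N, ∀ x ∈ X, ν x = x)
    (h' : ∀ σ ∈ H, (∀ x ∈ X, σ x = x) → σ ∈ N) (hr : 0 < r) (hs : ∀ y ∈ M, y.support ⊆ X)
    (hrM : ∀ x ∈ X, Finsupp.single x (r : ℤ) ∈ M) (hM : Stab H M) (hc : Coc H M c)
    (hcN : ∀ ν ∈ N, ∀ y ∈ M, c ν y = 0) :
    ∃ (H' : Subgroup Ga) (T : Finset ℕ), IsOpen (H' : Set Ga) ∧ H' ≤ H ∧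
      (∀ p ∈ T, p.Prime ∧ p ∣ r) ∧
      (∀ y, 2 ≤ y → X.card < y ^ 2 → (T.filter (y ≤ ·)).card * (y - 1) ≤ X.card) ∧
      H'.relIndex H ≤ ∏ p ∈ T, p ^ Jb (Nat.log p X.card) ∧ ∃ β, Bd H' M 1 c β := by
  classical
  let _ := Qt.xact hX h
  have := Qt.faithful (S := H) (N := N) (T := N) inf_le_right
  have hA := h2.h90 (Fx N) (Qt H N)
  have tr := fun P n => transferX hX h hs hNH hM hc hcN (P := P) (n := n)
  have hM' : Stab ⊤ (M.comap (jX X)) := fun (q : Qt H N) _ => Quotient.inductionOn' q fun s y hy =>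
    AddSubgroup.mem_comap.2 ((jX_smul hX h s y).symm ▸ hM s s.2 _ hy)
  have htop : H ≤ pre (⊤ : Subgroup (Qt H N)) := fun s hs => mem_pre.2 ⟨hs, trivial⟩
  have hfin : Module.Finite ℤ M := Module.Finite.of_injective
    ((Finsupp.comapDomain.addMonoidHom (f := ((↑) : X → Om)) Subtype.val_injective).comp
      M.subtype).toIntLinearMap fun x y e => Subtype.ext <| by
    have := congrArg (jX X) e
    exact (Finsupp.mapDomain_comapDomain _ Subtype.val_injective x.1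
      fun a ha => ⟨⟨a, hs _ x.2 ha⟩, rfl⟩).symm.trans (this.trans (Finsupp.mapDomain_comapDomain _
        Subtype.val_injective y.1 fun a ha => ⟨⟨a, hs _ y.2 ha⟩, rfl⟩))
  have hz : ∀ z, r • z ∈ M.comap (jX X) := fun z => by
    induction z using Finsupp.induction_linear with
    | zero => simp
    | add x y hx hy => exact smul_add r x y ▸ add_mem hx hy
    | single x n =>
      have := zsmul_mem (hrM x x.2) n
      rw [Finsupp.smul_single, smul_eq_mul, mul_comm] at this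
      rwa [Finsupp.smul_single, AddSubgroup.mem_comap, jX, Finsupp.mapDomain.addMonoidHom_apply,
        Finsupp.mapDomain_single, nsmul_eq_mul]
  obtain ⟨β0, h0⟩ := tr ⊤ (1 * r) <| (kill_perm (U := ⊤) (fun x : X => Finsupp.single x (1 : ℤ))
    (Finsupp.basisSingleOne (R := ℤ)).linearIndependent
    (fun u x => Finsupp.comapSMul_single _ _ _) hA).retract id (fun z => r • z)
    (fun _ _ _ _ => rfl) (fun x _ y _ => smul_add r x y)
    (fun y _ => (Finsupp.basisSingleOne (R := ℤ)).mem_span y) (fun z _ => hz z) (fun _ _ _ _ => rfl) (fun s _ z _ => (smul_comm s r z).symm)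
    fun _ _ => rfl
  obtain ⟨Act, hAct, hE⟩ := hE (Qt H N) X
  rw [Fintype.card_coe] at hAct hE
  have key : ∀ p ∈ r.primeFactors, ∃ H' : Subgroup Ga, IsOpen (H' : Set Ga) ∧ H' ≤ H ∧
      H'.relIndex H ≤ (if p ∈ Act ∨ p ^ 2 ≤ X.card then p ^ Jb (Nat.log p X.card) else 1) ∧
      ∃ t : ℕ, t.Coprime p ∧ ∃ β, Bd H' M t c β := fun p hp => by
    have hp := Nat.prime_of_mem_primeFactors hp
    have : Fact p.Prime := ⟨hp⟩
    split_ifs with hT
    · refine hI p hp _ H N M c _ _ ho.out hNH hn.conj hi hM (fix_supp hs h) hc hcN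
        (fun σ hσ => ?_) fun S h1 h2 h3 => ?_
      · let g : Qt H N := (⟨σ, hσ⟩ : H)
        have hg := (orderOf_pos g).ne'
        have hP : IsPGroup p (Subgroup.zpowers (g ^ ordCompl[p] (orderOf g))) := by
          rintro ⟨_, n, rfl⟩
          refine ⟨(orderOf g).factorization p, Subtype.ext ?_⟩
          rw [Subgroup.coe_pow, ← zpow_natCast, ← zpow_mul, mul_comm, zpow_mul, zpow_natCast,
            ← pow_mul, mul_comm, Nat.ordProj_mul_ordCompl_eq_self, pow_orderOf_eq_one, one_zpow]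
          rfl
        refine ⟨_, (Nat.coprime_ordCompl hp hg).symm, h' _ (pow_mem hσ _) fun x hx => ?_⟩
        have := d_pow hP (stabilizer _ (⟨x, hx⟩ : X)) (k := Nat.log p X.card) (by
          rw [index_stabilizer]
          exact ((Set.ncard_le_card _).trans_eq (by simp)).trans_lt
            (Nat.lt_pow_succ_log_self hp.one_lt _)) ⟨_, Subgroup.mem_zpowers _⟩
        rw [pow_mul]
        exact congrArg Subtype.val this
      · obtain ⟨β, hβ⟩ := tr _ _ (hD p hp (Qt H N) X _ hA ((S.subgroupOf H).map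
          (QuotientGroup.mk' _)) _ (by
            rintro ⟨_, s, hs, rfl⟩
            obtain ⟨k, hk⟩ := h3 s hs
            exact ⟨k, Subtype.ext ((QuotientGroup.eq_one_iff (s ^ p ^ k)).2 hk)⟩) (hM'.mono le_top))
        rw [Fintype.card_coe] at hβ
        exact ⟨β, hβ.mono (le_pre_map h2) le_rfl⟩
    · obtain ⟨t, ht, hk⟩ := hE p hp (fun e => hT (Or.inl e)) (not_le.1 fun e => hT (Or.inr e)) _ hA
        _ hM'
      obtain ⟨β, hβ⟩ := tr _ _ hk
      exact ⟨H, (Ope.mono hNH).out, le_rfl, H.relIndex_self.le, t, ht, β,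
        hβ.mono htop le_rfl⟩
  have all : ∀ s ⊆ r.primeFactors, ∃ H' : Subgroup Ga, IsOpen (H' : Set Ga) ∧ H' ≤ H ∧
      H'.relIndex H ≤ ∏ p ∈ s,
        (if p ∈ Act ∨ p ^ 2 ≤ X.card then p ^ Jb (Nat.log p X.card) else 1) ∧
      ∃ n, n ∣ r ∧ (∀ p ∈ s, n.Coprime p) ∧ ∃ β, Bd H' M n c β := fun s => by
    induction s using Finset.induction_on with
    | empty => exact fun _ => ⟨H, (Ope.mono hNH).out, le_rfl, by simp, _, by simp, by simp, β0,
        h0.mono htop le_rfl⟩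
    | insert p s hps ih =>
      intro hsub
      obtain ⟨H1, o1, l1, i1, n, hn, hn', β1, b1⟩ := ih ((Finset.subset_insert p s).trans hsub)
      obtain ⟨H2, o2, -, i2, t, ht, β2, b2⟩ := key p (hsub (Finset.mem_insert_self p s))
      refine ⟨H2 ⊓ H1, o2.inter o1, inf_le_right.trans l1, ?_, n.gcd t,
        (Nat.gcd_dvd_left n t).trans hn, fun q hq => ?_,
        (b1.mono inf_le_right le_rfl).gcd (b2.mono inf_le_left le_rfl)⟩
      · rw [Finset.prod_insert hps]
        exact Subgroup.relIndex_inf_le.trans (Nat.mul_le_mul i2 i1)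
      · rcases Finset.mem_insert.1 hq with rfl | hq
        · exact ht.coprime_dvd_left (Nat.gcd_dvd_right n t)
        · exact (hn' q hq).coprime_dvd_left (Nat.gcd_dvd_left n t)
  obtain ⟨H', o, l, i, n, hn, hn', hβ⟩ := all _ le_rfl
  obtain rfl : n = 1 := Nat.eq_one_iff_not_exists_prime_dvd.2 fun p hp hd =>
    hp.coprime_iff_not_dvd.1 (hn' p (Nat.mem_primeFactors.2 ⟨hp, hd.trans hn, hr.ne'⟩)).symm hd
  refine ⟨H', r.primeFactors.filter fun p => p ∈ Act ∨ p ^ 2 ≤ X.card, o, l, fun p hp => ?_,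
    fun y hy hy' => le_trans (Nat.mul_le_mul_right _ (Finset.card_le_card fun p hp => ?_))
      (hAct y hy), by rwa [Finset.prod_filter], hβ⟩
  · have := Nat.mem_primeFactors.1 (Finset.mem_filter.1 hp).1
    exact ⟨this.1, this.2.1⟩
  · simp only [Finset.mem_filter] at hp ⊢
    exact ⟨hp.1.2.resolve_right (not_le.2 (hy'.trans_le (Nat.pow_le_pow_left hp.2 2))), hp.2⟩

theorem rowPI (h2 : RowNT2) (hD : RowD) (hE : RowE) (hI : RowIDX) : RowPI := by
  intro X H N M c r hN hNH hi hX h hr hs hrM hM hc hcN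
  have : Ope N := ⟨hN⟩
  have : N.FiniteIndex := ⟨index_ne⟩
  have : Ope N.normalCore := ⟨Subgroup.isOpen_of_isClosed_of_finiteIndex _
    (N.normalCore_isClosed (N.isClosed_of_isOpen hN))⟩
  have : Nrm H N.normalCore := ⟨fun s _ t ht => N.normalCore_normal.conj_mem t ht s⟩
  have h1 := N.normalCore_le
  let N0 := H ⊓ fixingSubgroup Ga (X : Set Om)
  have hN0 : ∀ s, s ∈ N0 ↔ s ∈ H ∧ ∀ x ∈ X, s x = x := fun s =>
    and_congr_right' ((mem_fixingSubgroup_iff Ga).trans Iff.rfl)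
  have : Ope N0 := Ope.mono (S := N) fun s hs => (hN0 s).2 ⟨hNH hs, h s hs⟩
  have : Nrm H N0 := ⟨fun s hs t ht => (hN0 _).2 ⟨mul_mem (mul_mem hs ht.1) (inv_mem hs),
    fun x hx => by
      rw [AlgEquiv.mul_apply, AlgEquiv.mul_apply, ((hN0 t).1 ht).2 _ (hX _ (inv_mem hs) x hx)]
      exact s.apply_symm_apply x⟩⟩
  have := Qt.faithful (S := H) (N := N.normalCore) (T := N.normalCore) inf_le_right
  obtain ⟨β0, h0⟩ := transferX hX (fun ν hν => h ν (h1 hν)) hs (h1.trans hNH) hM hc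
    (fun ν hν => hcN ν (h1 hν)) (P := (N0.subgroupOf H).map (QuotientGroup.mk' _)) (n := 1) (by
      let _ := Qt.xact (N := N.normalCore) hX (fun ν hν => h ν (h1 hν))
      have := Module.Finite.of_injective (M.comap (jX X)).subtype.toIntLinearMap
        Subtype.val_injective
      refine kill_triv (h2.h90 _ _ _) ?_
      rintro _ ⟨s, hs, rfl⟩ y -
      exact (Finsupp.mapDomain_congr (g := id) fun (x : X) _ =>
        Subtype.ext (((hN0 s).1 hs).2 x x.2)).trans Finsupp.mapDomain_id)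
  obtain ⟨H', T, a1, a2, a3, a4, a5, β, hβ⟩ := pi_main (N := N0) h2 hD hE hI inf_le_left hi hX
    (fun ν hν => ((hN0 ν).1 hν).2) (fun s hs h => (hN0 s).2 ⟨hs, h⟩) hr hs hrM hM
    (hc.sub_bd hM h0.1 1) fun ν hν y hy => sub_eq_zero.2 (h0.2 ν (le_pre_map inf_le_left hν) y hy)
  refine ⟨H', T, a1, a2, a3, a4, a5, fun y => β y + β0 y, fun x hx y hy => ?_, fun s hs y hy => ?_⟩
  · simp only [hβ.1 x hx y hy, h0.1 x hx y hy]
    abel
  · have := hβ.2 s hs y hy
    rw [one_smul, sub_eq_iff_eq_add] at this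
    rw [this, smul_add, add_sub_add_comm]

end Pool.Agent.MP_db5b97_nt.H85
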