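import Pool.Agent.MP_db5b97_nt.H85.Spec
import Pool.Agent.MP_db5b97_nt.H85.NT
import Pool.Agent.MP_db5b97_nt.H58.Defs

/-! Statements of the remaining pieces. -/

namespace Pool.Agent.MP_db5b97_nt.H85

open NumberField IsDedekindDomain Polynomial

/-- order of the group `(E ⊓ ker f) / g E` (zero when infinite) -/
noncomputable def hs {A : Type} [AddCommGroup A] (E : AddSubgroup A) (f g : A →+ A) : ℕ :=
  (E.map g).relIndex (E ⊓ f.ker)

/-- the part above `l` of the divisor -/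
noncomputable def dvl (F : Type) [Field F] [NumberField F] (l : ℕ) : Un F →+ (Pl F l →₀ ℤ) where
  toFun x := Finsupp.ofSupportFinite (fun w => ord w.1 x)
    ((ord_finite F x).preimage Subtype.val_injective.injOn)
  map_zero' := by ext w; simp [Finsupp.ofSupportFinite_coe]
  map_add' x y := by ext w; simp [Finsupp.ofSupportFinite_coe]

@[simp] theorem dvl_apply {F : Type} [Field F] [NumberField F] {l : ℕ} (x : Un F) (w : Pl F l) :
    dvl F l x w = ord w.1 x := rfl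

theorem und_finite (k F : Type) [Field k] [NumberField k] [Field F] [NumberField F] [Algebra k F]
    (v : Sp k) : {w : Sp F | und k w = v}.Finite := by
  refine (Ideal.finite_factors (I := v.asIdeal.map (algebraMap (𝓞 k) (𝓞 F)))
    (Ideal.map_ne_bot_of_ne_bot v.ne_bot)).subset fun w (hw : und k w = v) => ?_
  show w.asIdeal ∣ _
  rw [Ideal.dvd_iff_le, Ideal.map_le_iff_le_comap, ← hw]
  exact le_rfl

/-- pulling back a divisor as a function on primes -/
noncomputable def con (k F : Type) [Field k] [NumberField k] [Field F] [NumberField F]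
    [Algebra k F] (l : ℕ) : Dv k l →+ Dv F l where
  toFun D := Finsupp.ofSupportFinite (fun w => D (w.und k)) (by
    refine ((D.support.finite_toSet.biUnion fun v _ => und_finite k F v.1).preimage
      (f := fun w : Pr F l => w.1) Subtype.val_injective.injOn).subset fun w hw => ?_
    exact Set.mem_biUnion (Finsupp.mem_support_iff.2 hw) rfl)
  map_zero' := by ext w; simp [Finsupp.ofSupportFinite_coe]
  map_add' x y := by ext w; simp [Finsupp.ofSupportFinite_coe]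

@[simp] theorem con_apply {k F : Type} [Field k] [NumberField k] [Field F] [NumberField F]
    [Algebra k F] {l : ℕ} (D : Dv k l) (w : Pr F l) : con k F l D w = D (w.und k) := rfl

/-- index computations for a cyclic extension -/
def RowLA : Prop :=
  ∀ (p : ℕ) (A I Z : Type) [AddCommGroup A] [AddCommGroup I] [AddCommGroup Z] (fA gA : A →+ A)
    (fI gI : I →+ I) (fZ gZ : Z →+ Z) (a : A →+ I) (b : A →+ Z) (U R : AddSubgroup A),
    (∀ x, fA (gA x) = 0) → (∀ x, gA (fA x) = 0) → (∀ x, fI (gI x) = 0) → (∀ x, gI (fI x) = 0) →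
    (∀ x, a (fA x) = fI (a x)) → (∀ x, a (gA x) = gI (a x)) →
    (∀ x, b (fA x) = fZ (b x)) → (∀ x, b (gA x) = gZ (b x)) → Function.Surjective b →
    (∀ x ∈ U, fA x ∈ U) → (∀ x ∈ U, gA x ∈ U) → U ≤ b.ker → U.relIndex b.ker ≠ 0 →
    (U.map a).index ≠ 0 → gA.ker ≤ fA.range → gI.ker ≤ fI.range → gZ.ker ≤ fZ.range →
    U ⊓ gA.ker ≤ U.map fA → R ≤ U ⊓ fA.ker → U ⊓ fA.ker ≤ gA.range ⊔ R →
    p * hs (U ⊓ a.ker) fA gA = hs (U ⊓ a.ker) gA fA → hs (U ⊓ a.ker) gA fA ≠ 0 →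
    (gI.range ⊔ R.map a).relIndex fI.ker ≠ 0 → (gI.range ⊔ R.map a).relIndex fI.ker ≤ p →
    (∀ x ∈ R, a x ∈ gI.range → x ∈ gA.range) ∧ (gI.range ⊔ R.map a).relIndex fI.ker = p ∧
      (gA.range ⊔ R).relIndex fA.ker = hc fZ gZ

/-- the Herbrand quotient of the units -/
def RowUQ : Prop :=
  ∀ (p : ℕ), p.Prime → ∀ (k F G : Type) [Field k] [NumberField k] [Field F] [NumberField F]
    [Algebra k F] [Group G] [MulSemiringAction G F] [IsGaloisGroup G k F] (σ : G) (l : ℕ)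
    (E : AddSubgroup (Un F)), Nat.card G = p → σ ≠ 1 → (∃ i : k, i ^ 2 = -1) →
    (∀ x ∈ E, σ • x ∈ E) → E ≤ Ru F l ⊓ (dv F l).ker → E.relIndex (Ru F l ⊓ (dv F l).ker) ≠ 0 →
    p * hs E (Df σ) (Nm σ p) = hs E (Nm σ p) (Df σ) ∧ hs E (Nm σ p) (Df σ) ≠ 0

/-- norms of elements and of divisors -/
structure RowNT1 : Prop where
  dv_nrm : ∀ (k F : Type) [Field k] [NumberField k] [Field F] [NumberField F] [Algebra k F] (l : ℕ)
    (x : Un F), dv k l (Un.nrm k F x) = nrD F l k (dv F l x)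
  nrm_Ru : ∀ (k F : Type) [Field k] [NumberField k] [Field F] [NumberField F] [Algebra k F] (l : ℕ),
    l ≠ 0 → ∀ x ∈ Ru F l, Un.nrm k F x ∈ Ru k l
  nrm_Ray : ∀ (k F : Type) [Field k] [NumberField k] [Field F] [NumberField F] [Algebra k F]
    (l M : ℕ), l ≠ 0 → ∀ x ∈ Ray F l M, Un.nrm k F x ∈ Ray k l M
  dvl_surj : ∀ (F : Type) [Field F] [NumberField F] (l : ℕ), l ≠ 0 → Function.Surjective (dvl F l)
  und_surj : ∀ (k F : Type) [Field k] [NumberField k] [Field F] [NumberField F] [Algebra k F]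
    (l : ℕ), Function.Surjective (fun w : Pl F l => w.und k) ∧
      Function.Surjective (fun w : Pr F l => w.und k)
  nrm_surj : ∀ (k F : Type) [Field k] [NumberField k] [Field F] [NumberField F] [Algebra k F]
    (l : ℕ), l ≠ 0 → (∀ w : Pl F l, w.1.asIdeal.inertiaDeg (𝓞 k) = 1) →
    ∀ x : Un k, ∃ y : Un F, x - Un.nrm k F y ∈ Ru k l

/-- inclusions and Galois actions -/
structure RowNT2 : Prop where
  ord_inc : ∀ (k F : Type) [Field k] [NumberField k] [Field F] [NumberField F] [Algebra k F]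
    (w : Sp F) (x : Un k), ord w (Un.inc k F x) = w.asIdeal.ramificationIdx (𝓞 k) * ord (und k w) x
  inc_Ray : ∀ (k F : Type) [Field k] [NumberField k] [Field F] [NumberField F] [Algebra k F]
    (l M : ℕ) (x : Un k), Un.inc k F x ∈ Ray F l M ↔ x ∈ Ray k l M
  ord_smul : ∀ (F G : Type) [Field F] [NumberField F] [Group G] [MulSemiringAction G F] (s : G)
    (w : Sp F) (x : Un F), ord (s • w) (s • x) = ord w x
  con_range : ∀ (k F G : Type) [Field k] [NumberField k] [Field F] [NumberField F] [Algebra k F]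
    [Group G] [MulSemiringAction G F] [IsGaloisGroup G k F] (l : ℕ) (D : Dv F l),
    D ∈ (con k F l).range ↔ ∀ s : G, s • D = D
  inc_range : ∀ (k F G : Type) [Field k] [Field F] [Algebra k F]
    [Group G] [MulSemiringAction G F] [IsGaloisGroup G k F] (x : Un F),
    x ∈ (Un.inc k F).range ↔ ∀ s : G, s • x = x
  inc_nrm : ∀ (k F G : Type) [Field k] [NumberField k] [Field F] [NumberField F] [Algebra k F]
    [Group G] [MulSemiringAction G F] [IsGaloisGroup G k F] (σ : G) (p : ℕ), p.Prime →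
    Nat.card G = p → σ ≠ 1 → ∀ x : Un F, Un.inc k F (Un.nrm k F x) = Nm σ p x
  h90 : ∀ (F G : Type) [Field F] [Group G] [Finite G] [MulSemiringAction G F] [FaithfulSMul G F]
    (Q : Subgroup G), H90 (Un F) Q
  h1u : ∀ (F G : Type) [Field F] [Group G] [Finite G] [MulSemiringAction G F] [FaithfulSMul G F]
    (p : ℕ) (Q : Subgroup G) (σ : G), p.Prime → σ ∈ Subgroup.normalizer (Q : Set G) → σ ^ p ∈ Q →
    σ ∉ Q → H1z (Un F) p Q σ
  h1p : ∀ (X G : Type) [Group G] [MulAction G X] (p : ℕ) (Q : Subgroup G) (σ : G), 0 < p →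
    σ ∈ Subgroup.normalizer (Q : Set G) → σ ^ p ∈ Q → H1z (X →₀ ℤ) p Q σ
  unr : ∀ (k F G : Type) [Field k] [NumberField k] [Field F] [NumberField F] [Algebra k F]
    [Group G] [MulSemiringAction G F] [IsGaloisGroup G k F] (l : ℕ),
    (∀ s : G, s ≠ 1 → ∀ w : Pr F l, ∃ θ : 𝓞 F, s • θ - θ ∉ w.1.asIdeal) → Unr k F l

/-- comparison of a cyclic layer with its base change to an inert extension -/
def RowSQ : Prop :=
  ∀ (p : ℕ), p.Prime → ∀ (k F k' F' G G' : Type) [Field k] [NumberField k] [Field F]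
    [NumberField F] [Field k'] [NumberField k'] [Field F'] [NumberField F'] [Algebra k F]
    [Algebra k k'] [Algebra F F'] [Algebra k' F'] [Algebra k F'] [IsScalarTower k F F']
    [IsScalarTower k k' F'] [Group G] [MulSemiringAction G F] [IsGaloisGroup G k F] [Group G']
    [MulSemiringAction G' F'] [IsGaloisGroup G' k' F'] (σ : G) (σ' : G') (l : ℕ) (α : 𝓞 k')
    (g : (𝓞 k)[X]), Nat.card G = p → Nat.card G' = p → σ ≠ 1 →
    (∀ x, algebraMap F F' (σ • x) = σ' • algebraMap F F' x) → 2 ≤ l → (∃ i : k, i ^ 2 = -1) →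
    Unr k F l → Unr k' F' l → (∀ w : Pl F l, w.1.asIdeal.inertiaDeg (𝓞 k) = 1) →
    g.Monic → aeval α g = 0 → g.natDegree = Module.finrank k k' →
    (∀ w : Pl F l,
      Irreducible ((g.map (algebraMap (𝓞 k) (𝓞 F))).map (Ideal.Quotient.mk w.1.asIdeal))) →
    (∀ x : Un k', dv k' l x ∈ (nrD F' l k').range → Un.nrm k k' x ∈ (Un.nrm k F).range →
      x ∈ (Un.nrm k' F').range) ∧
    (∀ x : Un k, dv k l x ∈ (nrD F l k).range →
      ∃ x' : Un k', dv k' l x' ∈ (nrD F' l k').range ∧ Un.nrm k k' x' - x ∈ (Un.nrm k F).range) ∧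
    (∀ (D : Dv k' l) (x : Un k), nrD k' l k D - dv k l x ∈ (nrD F l k).range →
      ∃ x' : Un k', D - dv k' l x' ∈ (nrD F' l k').range) ∧
    ∀ D : Dv k l, ∃ (D' : Dv k' l) (x : Un k), D - nrD k' l k D' - dv k l x ∈ (nrD F l k).range

/-- residue fields -/
structure RowRES : Prop where
  key : ∀ (p a : ℕ), p.Prime → ∀ (K F0 K1 F1 G : Type) [Field K] [NumberField K] [Field F0]
    [NumberField F0] [Field K1] [NumberField K1] [Field F1] [NumberField F1] [Algebra K F0]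
    [Algebra K K1] [Algebra F0 F1] [Algebra K1 F1] [Algebra K F1] [IsScalarTower K F0 F1]
    [IsScalarTower K K1 F1] [Group G] [MulSemiringAction G F0] [IsGaloisGroup G K F0] (α : 𝓞 K1)
    (g : (𝓞 K)[X]) (w : Sp F1), (∀ σ : G, ∃ q : ℕ, q.Coprime p ∧ σ ^ (q * p ^ a) = 1) → g.Monic →
    aeval α g = 0 → g.natDegree = p ^ a →
    IntermediateField.adjoin F0 {algebraMap K1 F1 α} = ⊤ →
    Irreducible (g.map (Ideal.Quotient.mk (und K w).asIdeal)) →
    (w.asIdeal.inertiaDeg (𝓞 K1)).Coprime p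
  ex : ∀ (K : Type) [Field K] [NumberField K] (l n : ℕ), l ≠ 0 → 0 < n →
    ∃ g : (𝓞 K)[X], g.Monic ∧ g.natDegree = n ∧
      ∀ v : Pl K l, Irreducible (g.map (Ideal.Quotient.mk v.1.asIdeal))
  up : ∀ (K F : Type) [Field K] [NumberField K] [Field F] [NumberField F] [Algebra K F] (w : Sp F)
    (g : (𝓞 K)[X]), g.Monic → Irreducible (g.map (Ideal.Quotient.mk (und K w).asIdeal)) →
    (w.asIdeal.inertiaDeg (𝓞 K)).Coprime g.natDegree →
    Irreducible ((g.map (algebraMap (𝓞 K) (𝓞 F))).map (Ideal.Quotient.mk w.asIdeal))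
  fld : ∀ (K : Type) [Field K] [NumberField K] (l : ℕ) (g : (𝓞 K)[X]), 2 ≤ l → g.Monic →
    (∀ v : Pl K l, Irreducible (g.map (Ideal.Quotient.mk v.1.asIdeal))) →
    Irreducible (g.map (algebraMap (𝓞 K) K))
  res : ∀ (p : ℕ), p.Prime → ∀ (P K F : Type) [Group P] [Finite P] [Field K] [NumberField K]
    [Field F] [NumberField F] [Algebra K F] [MulSemiringAction P F] (w : Sp F), IsPGroup p P →
    (∀ (s : P) (x : K), s • algebraMap K F x = algebraMap K F x) →
    (w.asIdeal.inertiaDeg (𝓞 K)).Coprime p →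
    ∀ x : 𝓞 F, ∃ y : 𝓞 F, (∀ s : P, s • y = y) ∧ x - y ∈ w.asIdeal
  lu : ∀ T : Set Om, T.Finite → 0 ∉ T → ∃ l : ℕ, 2 ≤ l ∧
    ∀ (F : IntermediateField ℚ Om) [NumberField F] (x : Un F), (x.val : Om) ∈ T → dv F l x = 0

/-- Galois descent -/
def RowDS : Prop :=
  ∀ (E W : Type) [Group E] [AddCommGroup W] [Module Om W] [DistribMulAction E W] (π : E →* Ga)
    (E0 U : Subgroup E), (∀ (e : E) (a : Om) (w : W), e • a • w = π e a • e • w) →
    IsOpen ((E0.map π : Subgroup Ga) : Set Ga) → (∀ w : W, Opn π E0 (MulAction.stabilizer E w)) →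
    Opn π E0 U → (∀ g ∈ U, π g = 1 → ∀ w : W, g • w = w) →
    Submodule.span Om {w : W | ∀ e ∈ U, e • w = w} = ⊤

/-- a permuted family of lines -/
def RowTOR : Prop :=
  ∀ (E W : Type) [Group E] [AddCommGroup W] [Module Om W] [FiniteDimensional Om W]
    [DistribMulAction E W] (π : E →* Ga) (E0 : Subgroup E),
    (∀ (e : E) (a : Om) (w : W), e • a • w = π e a • e • w) →
    IsOpen ((E0.map π : Subgroup Ga) : Set Ga) → (∀ w : W, Opn π E0 (MulAction.stabilizer E w)) →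
    Finite π.ker → (∀ g h, π g = 1 → π h = 1 → ∀ w : W, g • h • w = h • g • w) →
    ∃ (X : Finset Om) (w : Om → W), X.card = Module.finrank Om W ∧
      LinearIndependent Om (fun x : X => w x) ∧ Submodule.span Om (w '' X) = ⊤ ∧
      ∀ e : E, ∀ x ∈ X, π e x ∈ X ∧ ∃ u : Om, e • w x = u • w (π e x)

/-- period and index for a sublattice of a permutation lattice -/
def RowPI : Prop :=
  ∀ (X : Finset Om) (H N : Subgroup Ga) (M : AddSubgroup (Om →₀ ℤ))
    (c : Ga → (Om →₀ ℤ) → Un Om) (r : ℕ), IsOpen (N : Set Ga) → N ≤ H →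
    (∃ i : Om, i ^ 2 = -1 ∧ ∀ σ ∈ H, σ i = i) → (∀ σ ∈ H, ∀ x ∈ X, σ x ∈ X) →
    (∀ ν ∈ N, ∀ x ∈ X, ν x = x) → 0 < r → (∀ y ∈ M, y.support ⊆ X) →
    (∀ x ∈ X, Finsupp.single x (r : ℤ) ∈ M) → Stab H M → Coc H M c →
    (∀ ν ∈ N, ∀ y ∈ M, c ν y = 0) →
    ∃ (H' : Subgroup Ga) (T : Finset ℕ), IsOpen (H' : Set Ga) ∧ H' ≤ H ∧
      (∀ p ∈ T, p.Prime ∧ p ∣ r) ∧
      (∀ y, 2 ≤ y → X.card < y ^ 2 → (T.filter (y ≤ ·)).card * (y - 1) ≤ X.card) ∧
      H'.relIndex H ≤ ∏ p ∈ T, p ^ Jb (Nat.log p X.card) ∧ ∃ β, Bd H' M 1 c β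

/-- the theorem -/
def RowTOP : Prop :=
  ∃ c : ℝ, ∀ (N d : ℕ), 1 ≤ N → 2 ≤ d →
    ∀ f : Fin (N + 1) → MvPolynomial (Fin (N + 1)) (AlgebraicClosure ℚ),
      (∀ i, (f i).IsHomogeneous d) →
      (∀ x : Fin (N + 1) → AlgebraicClosure ℚ, (∀ i, MvPolynomial.eval x (f i) = 0) → x = 0) →
      ∀ K : IntermediateField ℚ (AlgebraicClosure ℚ),
        (∀ x, x ∈ K ↔ ∀ σ : AlgebraicClosure ℚ ≃ₐ[ℚ] AlgebraicClosure ℚ,
          (∃ (φ : GL (Fin (N + 1)) (AlgebraicClosure ℚ)) (c : AlgebraicClosure ℚ), c ≠ 0 ∧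
            ∀ i, MvPolynomial.map (σ : AlgebraicClosure ℚ →+* AlgebraicClosure ℚ) (f i)
              = MvPolynomial.C c * H58.conj φ f i) → σ x = x) →
        ∃ L : IntermediateField ℚ (AlgebraicClosure ℚ), FiniteDimensional ℚ L ∧ K ≤ L ∧
          (∃ (φ : GL (Fin (N + 1)) (AlgebraicClosure ℚ)) (c : AlgebraicClosure ℚ), c ≠ 0 ∧
            ∀ i m, MvPolynomial.coeff m (MvPolynomial.C c * H58.conj φ f i) ∈ L) ∧
          (IntermediateField.relfinrank K L : ℝ) ≤ Real.exp (c * Real.sqrt (N * Real.log (N + 1)))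

end Pool.Agent.MP_db5b97_nt.H85
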