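import Pool.Agent.MP_db5b97_nt.H85.Bas
import Pool.Agent.MP_db5b97_nt.H85.NT

/-! Fixed fields of open subgroups and actions of finite quotients. -/

namespace Pool.Agent.MP_db5b97_nt.H85

open NumberField Polynomial MulAction

instance : IsAlgClosure ℚ Om := AlgebraicClosure.instIsAlgClosure ℚ

instance : Algebra.IsAlgebraic ℚ Om := AlgebraicClosure.isAlgebraic ℚ

/-- the fixed field -/
abbrev Fx (S : Subgroup Ga) : Type := IntermediateField.fixedField S

/-- `S` normalises `T` -/
class Nrm (S T : Subgroup Ga) : Prop where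
  conj : ∀ s ∈ S, ∀ t ∈ T, s * t * s⁻¹ ∈ T

/-- openness -/
class Ope (S : Subgroup Ga) : Prop where
  out : IsOpen (S : Set Ga)

/-- inclusion -/
class Lq (S T : Subgroup Ga) : Prop where
  out : S ≤ T

/-- the quotient group -/
abbrev Qt (S N : Subgroup Ga) : Type := S ⧸ N.subgroupOf S

variable {S T N U : Subgroup Ga}

theorem mem_fx {x : Om} : x ∈ IntermediateField.fixedField S ↔ ∀ s ∈ S, s x = x :=
  IntermediateField.mem_fixedField_iff S x

theorem Fx.fix (x : Fx S) {s : Ga} (hs : s ∈ S) : s x = x := mem_fx.1 x.2 s hs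

theorem fixing_fx (S : Subgroup Ga) [h : Ope S] :
    (IntermediateField.fixedField S).fixingSubgroup = S :=
  InfiniteGalois.fixingSubgroup_fixedField ⟨S, S.isClosed_of_isOpen h.out⟩

theorem mem_of_fix [Ope S] {s : Ga} (h : ∀ x : Fx S, s x = x) : s ∈ S := by
  rw [← fixing_fx S, IntermediateField.mem_fixingSubgroup_iff]
  exact fun x hx => h ⟨x, hx⟩

instance Fx.fd [h : Ope S] : FiniteDimensional ℚ (Fx S) :=
  (InfiniteGalois.isOpen_iff_finite _).1 (by rw [fixing_fx]; exact h.out)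

instance Fx.nf [Ope S] : NumberField (Fx S) where

theorem finrank_fx [Ope S] : Module.finrank ℚ (Fx S) = S.index := by
  rw [IntermediateField.finrank_eq_fixingSubgroup_index, fixing_fx]

theorem index_ne [Ope S] : S.index ≠ 0 := finrank_fx (S := S) ▸ Module.finrank_pos.ne'

theorem relIndex_ne [Ope S] : S.relIndex T ≠ 0 := fun h =>
  index_ne (Subgroup.index_eq_zero_of_relIndex_eq_zero h)

instance Ope.inf [h : Ope S] [h' : Ope T] : Ope (S ⊓ T) := ⟨h.out.inter h'.out⟩

instance Ope.stab (x : Om) : Ope (stabilizer Ga x) := ⟨stabilizer_isOpen_of_isIntegral x⟩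

theorem Ope.mono [h : Ope S] (hS : S ≤ T) : Ope T := ⟨Subgroup.isOpen_mono hS h.out⟩

noncomputable instance Fx.alg [h : Fact (S ≤ T)] : Algebra (Fx T) (Fx S) :=
  (IntermediateField.inclusion (IntermediateField.fixedField_le h.out)).toAlgebra

@[simp] theorem Fx.coe_alg [Fact (S ≤ T)] (x : Fx T) :
    ((algebraMap (Fx T) (Fx S) x : Fx S) : Om) = x := rfl

instance Fx.tower [Fact (S ≤ T)] [Fact (T ≤ U)] [Fact (S ≤ U)] :
    IsScalarTower (Fx U) (Fx T) (Fx S) := IsScalarTower.of_algebraMap_eq fun _ => rfl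

instance Fx.tower' [Fact (S ≤ T)] : IsScalarTower (Fx T) (Fx S) Om :=
  IsScalarTower.of_algebraMap_eq fun _ => rfl

theorem finrank_fx_rel [Ope S] [h : Fact (S ≤ T)] :
    Module.finrank (Fx T) (Fx S) = S.relIndex T := by
  have := Ope.mono h.out
  have e := Module.finrank_mul_finrank ℚ (Fx T) (Fx S)
  rw [finrank_fx, finrank_fx, ← Subgroup.relIndex_mul_index h.out, mul_comm] at e
  exact Nat.eq_of_mul_eq_mul_right (Nat.pos_of_ne_zero index_ne) e

instance Nrm.normal [h : Nrm S N] : (N.subgroupOf S).Normal :=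
  ⟨fun n hn s => h.conj s s.2 n hn⟩

instance Qt.finite [Ope N] : Finite (Qt S N) :=
  Nat.finite_of_card_ne_zero (relIndex_ne (S := N) (T := S))

theorem Nrm.conj' [h : Nrm S N] {s n : Ga} (hs : s ∈ S) (hn : n ∈ N) : s⁻¹ * n * s ∈ N := by
  simpa using h.conj s⁻¹ (inv_mem hs) n hn

theorem Nrm.mem_fx [Nrm S T] {s : Ga} (hs : s ∈ S) (x : Fx T) :
    s x ∈ IntermediateField.fixedField T := H85.mem_fx.2 fun t ht => by
  have := congrArg s (x.fix (Nrm.conj' hs ht))
  simpa using this

noncomputable instance Qt.act [Nrm S N] [Nrm S T] [h : Lq N T] :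
    MulSemiringAction (Qt S N) (Fx T) where
  smul q x := Quotient.liftOn' q (fun s => ⟨(s : Ga) x, Nrm.mem_fx s.2 x⟩) fun a b hab => by
    have := congrArg (a : Ga) (x.fix (h.out (Subgroup.mem_subgroupOf.1 (QuotientGroup.leftRel_apply.1 hab))))
    exact Subtype.ext (by simpa using this.symm)
  one_smul _ := rfl
  mul_smul a b _ := Quotient.inductionOn₂' a b fun _ _ => rfl
  smul_zero a := Quotient.inductionOn' a fun s => Subtype.ext (map_zero (s : Ga))
  smul_add a x y := Quotient.inductionOn' a fun s => Subtype.ext (map_add (s : Ga) x.1 y.1)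
  smul_one a := Quotient.inductionOn' a fun s => Subtype.ext (map_one (s : Ga))
  smul_mul a x y := Quotient.inductionOn' a fun s => Subtype.ext (map_mul (s : Ga) x.1 y.1)

@[simp] theorem Qt.coe_smul [Nrm S N] [Nrm S T] [Lq N T] (s : S) (x : Fx T) :
    (((s : Qt S N) • x : Fx T) : Om) = (s : Ga) x := rfl

theorem Qt.eq_one [Nrm S N] [Nrm S T] [Lq N T] [Ope T] (h : S ⊓ T ≤ N) (q : Qt S N)
    (hq : ∀ x : Fx T, q • x = x) : q = 1 := by
  induction q using QuotientGroup.induction_on with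
  | H s => exact (QuotientGroup.eq_one_iff s).2 (h ⟨s.2, mem_of_fix fun x => congrArg Subtype.val (hq x)⟩)

theorem Qt.faithful [Nrm S N] [Nrm S T] [Lq N T] [Ope T] (h : S ⊓ T ≤ N) :
    FaithfulSMul (Qt S N) (Fx T) :=
  ⟨fun {a b} hab => inv_mul_eq_one.1 (Qt.eq_one h _ fun x => by rw [mul_smul, ← hab, inv_smul_smul])⟩

instance Lq.rfl : Lq N N := ⟨le_rfl⟩

instance Lq.fact [h : Fact (N ≤ T)] : Lq N T := ⟨h.out⟩

instance Qt.gal [Nrm S N] [Ope N] [Fact (N ≤ S)] : IsGaloisGroup (Qt S N) (Fx S) (Fx N) where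
  faithful := Qt.faithful inf_le_right
  commutes := ⟨fun q a x => Quotient.inductionOn' q fun s => Subtype.ext (by
    show (s : Ga) (a * x) = a * (s : Ga) x
    rw [map_mul, a.fix s.2])⟩
  isInvariant := ⟨fun x hx => ⟨⟨x, mem_fx.2 fun s hs => congrArg Subtype.val
    (hx ((⟨s, hs⟩ : S) : Qt S N))⟩, rfl⟩⟩

/-- action on a stable lattice -/
@[reducible] noncomputable def Qt.mact {V : Type} [AddCommGroup V] [DistribMulAction Ga V]
    [Nrm S N] {M : AddSubgroup V} (hM : Stab S M) (h : ∀ ν ∈ N, ∀ y ∈ M, ν • y = y) :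
    DistribMulAction (Qt S N) M where
  smul q x := Quotient.liftOn' q (fun s => ⟨(s : Ga) • (x : V), hM s s.2 x x.2⟩) fun a b hab => by
    have := congrArg ((a : Ga) • ·) (h _ (Subgroup.mem_subgroupOf.1 (QuotientGroup.leftRel_apply.1 hab)) x x.2)
    exact Subtype.ext (by simpa [mul_smul] using this.symm)
  one_smul x := Subtype.ext (one_smul Ga x.1)
  mul_smul a b x := Quotient.inductionOn₂' a b fun s t => Subtype.ext (mul_smul (s : Ga) t x.1)
  smul_zero a := Quotient.inductionOn' a fun s => Subtype.ext (smul_zero (s : Ga))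
  smul_add a x y := Quotient.inductionOn' a fun s => Subtype.ext (smul_add (s : Ga) x.1 y.1)

theorem inc_inj (E F : Type) [Field E] [Field F] [Algebra E F] : Function.Injective (Un.inc E F) :=
  fun _ _ h => Un.ext ((algebraMap E F).injective (congrArg Un.val h))

theorem inc_smul [Nrm S N] [Nrm S T] [Lq N T] (s : S) (x : Un (Fx T)) :
    Un.inc (Fx T) Om ((s : Qt S N) • x) = (s : Ga) • Un.inc (Fx T) Om x := rfl

theorem inc_inc [Fact (S ≤ T)] (x : Un (Fx T)) :
    Un.inc (Fx S) Om (Un.inc (Fx T) (Fx S) x) = Un.inc (Fx T) Om x := rfl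

open Classical in
variable (T) in
/-- an invariant unit as a unit of the fixed field -/
noncomputable def lft (x : Un Om) : Un (Fx T) :=
  if h : x.val ∈ IntermediateField.fixedField T then
    Un.mk ⟨x.val, h⟩ fun e => x.val_ne (congrArg Subtype.val e) else 0

theorem inc_lft {x : Un Om} (h : ∀ t ∈ T, t • x = x) : Un.inc (Fx T) Om (lft T x) = x := by
  rw [lft, dif_pos (mem_fx.2 fun t ht => congrArg Un.val (h t ht))]
  exact Un.ext rfl

instance fact_inf : Fact (S ⊓ T ≤ S) := ⟨inf_le_left⟩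

/-- an element in the field it generates -/
def gen (S : Subgroup Ga) (α : Om) : Fx (S ⊓ stabilizer Ga α) := ⟨α, mem_fx.2 fun _ hs => hs.2⟩

theorem adjoin_gen (S : Subgroup Ga) [Ope S] (α : Om) :
    IntermediateField.adjoin (Fx S) {gen S α} = ⊤ := by
  refine eq_top_iff.2 fun x _ => ?_
  let L : IntermediateField ℚ Om := ((IntermediateField.adjoin (Fx S) {gen S α}).toSubfield.map
    (algebraMap _ Om)).toIntermediateField fun q => SubfieldClass.ratCast_mem
      ((IntermediateField.adjoin (Fx S) {gen S α}).toSubfield.map (algebraMap _ Om)) q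
  have h1 : L.fixingSubgroup ≤ S ⊓ stabilizer Ga α := fun s hs => by
    rw [IntermediateField.mem_fixingSubgroup_iff] at hs
    exact ⟨mem_of_fix fun y => hs y ⟨algebraMap (Fx S) _ y, IntermediateField.algebraMap_mem _ y, rfl⟩,
      hs α ⟨gen S α, IntermediateField.mem_adjoin_simple_self _ _, rfl⟩⟩
  have h2 := IntermediateField.fixedField_le h1 x.2
  rw [InfiniteGalois.fixedField_fixingSubgroup] at h2
  obtain ⟨y, hy, e⟩ := h2
  exact (Subtype.ext e : y = x) ▸ hy

theorem relIndex_stab [Ope S] {α : Om} {g : (𝓞 (Fx S))[X]} (hg : g.Monic)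
    (hi : Irreducible (g.map (algebraMap (𝓞 (Fx S)) (Fx S)))) (h0 : aeval α g = 0) :
    (S ⊓ stabilizer Ga α).relIndex S = g.natDegree := by
  have h1 : aeval (gen S α) (g.map (algebraMap (𝓞 (Fx S)) (Fx S))) = 0 := by
    apply (algebraMap _ Om).injective
    rw [← aeval_algebraMap_apply, map_zero, aeval_map_algebraMap]
    exact h0
  rw [← finrank_fx_rel, ← IntermediateField.finrank_top', ← adjoin_gen,
    IntermediateField.adjoin.finrank (Algebra.IsIntegral.isIntegral _),
    ← minpoly.eq_of_irreducible_of_monic hi h1 (hg.map _), hg.natDegree_map]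

theorem exists_root [Ope S] {g : (𝓞 (Fx S))[X]} (hg : g.Monic) (hn : 0 < g.natDegree) :
    ∃ α : Om, aeval α g = 0 ∧ IsIntegral ℤ α := by
  obtain ⟨α, h⟩ := IsAlgClosed.exists_aeval_eq_zero Om g (natDegree_pos_iff_degree_pos.1 hn).ne'
  exact ⟨α, h, isIntegral_trans α ⟨g, hg, h⟩⟩

theorem exists_theta (N : Subgroup Ga) [Ope N] :
    ∃ θ : 𝓞 (Fx N), ∀ s : Ga, s (θ : Fx N) = (θ : Fx N) → s ∈ N := by
  obtain ⟨x, hx⟩ := Field.exists_primitive_element ℚ (Fx N)
  obtain ⟨n, hn, h⟩ := ((IsFractionRing.isAlgebraic_iff ℤ ℚ _).2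
    (Algebra.IsAlgebraic.isAlgebraic x)).exists_integral_multiple
  refine ⟨⟨n • x, h⟩, fun s hs => mem_of_fix fun y => ?_⟩
  have h1 : s x = x := by
    have : n • s x = n • (x : Om) := by simpa using hs
    exact smul_right_injective Om hn this
  have hy : y ∈ IntermediateField.adjoin ℚ {x} := hx ▸ trivial
  induction hy using IntermediateField.adjoin_induction with
  | mem y hy => rwa [hy]
  | algebraMap q => simp
  | add y z _ _ h h' => simp [h, h']
  | inv y _ h => simp [h]
  | mul y z _ _ h h' => simp [h, h']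

theorem finite_image {X : Type} [Ope N] (f : Ga → X) (h : ∀ s ∈ S, ∀ ν ∈ N, f (s * ν) = f s) :
    (f '' S).Finite := by
  refine (Set.finite_range fun q : Qt S N => f q.out).subset ?_
  rintro _ ⟨s, hs, rfl⟩
  obtain ⟨ν, e⟩ := QuotientGroup.mk_out_eq_mul (N.subgroupOf S) ⟨s, hs⟩
  exact ⟨((⟨s, hs⟩ : S) : Qt S N), by simp only [e]; exact h s hs _ ν.2⟩

theorem finite_over (N : Subgroup Ga) [h : Ope N] : {S : Subgroup Ga | N ≤ S}.Finite := by
  have := N.quotient_finite_of_isOpen h.out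
  refine Set.Finite.of_finite_image (f := fun S : Subgroup Ga => ((↑) : Ga → Ga ⧸ N) '' S)
    (Set.toFinite _) ?_
  have k : ∀ S T : Subgroup Ga, N ≤ T → ((↑) : Ga → Ga ⧸ N) '' S = (↑) '' (T : Set Ga) → S ≤ T :=
    fun S T hT e s hs => by
      obtain ⟨t, ht, e'⟩ := e.subset ⟨s, hs, rfl⟩
      simpa using mul_mem ht (hT (QuotientGroup.eq.1 e'))
  exact fun S hS T hT e => le_antisymm (k S T hT e) (k T S hS e.symm)

end Pool.Agent.MP_db5b97_nt.H85
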