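import Pool.Agent.MP_db5b97_nt.H85.D1

/-! Eigenspace decomposition up to a bounded multiple. -/

namespace Pool.Agent.MP_db5b97_nt.H85

open Finset

variable {G V O L : Type} [Group G] [CommRing O] [AddCommGroup V] [Module O V]
  [DistribMulAction G V] [SMulCommClass G O V] [Group L] {e : ℕ}

/-- a multiple of the projection to an eigenspace -/
def prj (e : ℕ) (g : G) (w : O) : V →ₗ[O] V :=
  ∑ t ∈ range e, w ^ (e - t) • DistribSMul.toLinearMap O V (g ^ t)

theorem prj_apply (g : G) (w : O) (y : V) :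
    prj e g w y = ∑ t ∈ range e, w ^ (e - t) • g ^ t • y := by
  simp [prj]

theorem pow_eig {g : G} {w : O} {y : V} (h : g • y = w • y) (t : ℕ) : g ^ t • y = w ^ t • y := by
  induction t with
  | zero => simp
  | succ t ih => rw [pow_succ', mul_smul, ih, smul_comm, h, smul_smul, pow_succ]

theorem prj_eig {g : G} {w' : O} {y : V} (h : g • y = w' • y) (w : O) :
    prj e g w y = (∑ t ∈ range e, w ^ (e - t) * w' ^ t) • y := by
  simp only [prj_apply, pow_eig h, smul_smul, sum_smul]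

theorem prj_same {w : O} (h : w ^ e = 1) : ∑ t ∈ range e, w ^ (e - t) * w ^ t = e := by
  rw [sum_congr rfl fun t ht => by rw [← pow_add, Nat.sub_add_cancel (mem_range.1 ht).le, h]]
  simp

theorem prj_ne [IsDomain O] {w w' : O} (h : w ^ e = 1) (h' : w' ^ e = 1) (hw : w' ≠ w) :
    ∑ t ∈ range e, w ^ (e - t) * w' ^ t = 0 := by
  have h1 := geom_sum₂_mul w' w e
  rw [h, h', sub_self, mul_eq_zero, or_iff_left (sub_ne_zero.2 hw)] at h1
  rw [← mul_zero w, ← h1, mul_sum]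
  refine sum_congr rfl fun t ht => ?_
  rw [show e - t = e - 1 - t + 1 by have := mem_range.1 ht; omega]
  ring

theorem prj_smul {g : G} {w : O} {y : V} (hg : g ^ e • y = y) (h : w ^ e = 1) :
    g • prj e g w y = w • prj e g w y := by
  have := sum_range_sub (fun t => w ^ (e + 1 - t) • g ^ t • y) e
  rw [sum_sub_distrib, hg, Nat.add_sub_cancel_left, Nat.sub_zero, pow_succ w e, h, pow_zero,
    one_smul, pow_one, one_mul, sub_self, sub_eq_zero] at this
  rw [prj_apply, smul_sum, smul_sum]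
  convert this using 2 with t ht t ht
  · rw [smul_comm, smul_smul, Nat.add_sub_add_right, pow_succ']
  · rw [smul_smul, ← pow_succ', Nat.sub_add_comm (mem_range.1 ht).le]

theorem prj_sum [IsDomain O] {ζ : O} (hζ : IsPrimitiveRoot ζ e) (he : 0 < e) (g : G) (y : V) :
    ∑ j ∈ range e, prj e g (ζ ^ j) y = (e : O) • y := by
  simp only [prj_apply]
  rw [sum_comm, sum_eq_single_of_mem 0 (mem_range.2 he) fun t ht h0 => ?_]
  · simp [pow_right_comm ζ _ e, hζ.pow_eq_one, Nat.cast_smul_eq_nsmul]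
  · have h1 := mul_geom_sum (ζ ^ (e - t)) e
    have ht := mem_range.1 ht
    rw [← pow_mul, mul_comm _ e, pow_mul, hζ.pow_eq_one, one_pow, sub_self, mul_eq_zero,
      or_iff_right (sub_ne_zero.2 (hζ.pow_ne_one_of_pos_of_lt (by omega) (by omega)))] at h1
    simp only [← pow_mul, mul_comm _ (e - t)]
    simp only [pow_mul, ← sum_smul, h1, zero_smul]

/-- simultaneous eigenspace -/
def eig (Y : Submodule O V) (f : L →* G) (s : Set L) (χ : L → O) : Submodule O V where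
  carrier := {y | y ∈ Y ∧ ∀ g ∈ s, f g • y = χ g • y}
  add_mem' := fun hx hy => ⟨add_mem hx.1 hy.1, fun g hg => by
    rw [smul_add, smul_add, hx.2 g hg, hy.2 g hg]⟩
  zero_mem' := ⟨zero_mem Y, by simp⟩
  smul_mem' := fun a y hy => ⟨Y.smul_mem a hy.1, fun g hg => by
    rw [smul_comm, hy.2 g hg, smul_comm]⟩

variable {Y : Submodule O V} {f : L →* G}

theorem prj_mem (hY : ∀ g, ∀ y ∈ Y, f g • y ∈ Y) (g : L) (w : O) {y : V} (hy : y ∈ Y) :
    prj e (f g) w y ∈ Y := by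
  rw [prj_apply]
  exact Y.sum_mem fun t _ => Y.smul_mem _ (map_pow f g t ▸ hY _ y hy)

theorem eig_mult [IsDomain O] {ζ : O} (hζ : IsPrimitiveRoot ζ e) (he : 0 < e)
    (hY : ∀ g, ∀ y ∈ Y, f g • y ∈ Y) (hc : ∀ g h, ∀ y ∈ Y, f g • f h • y = f h • f g • y)
    (hf : ∀ g (y : V), f g ^ e • y = y) (s : Finset L) {y : V} (hy : y ∈ Y) :
    (e : O) ^ s.card • y ∈ ⨆ χ, eig Y f s χ := by
  classical
  induction s using Finset.induction_on with
  | empty => exact Submodule.mem_iSup_of_mem 0 ⟨by simpa using hy, by simp⟩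
  | insert g s hg ih =>
    rw [card_insert_of_notMem hg, pow_succ', mul_smul]
    refine Submodule.iSup_induction _ (motive := fun x => (e : O) • x ∈ ⨆ χ, eig Y f _ χ) ih
      (fun χ x hx => ?_) (by simp) fun x y hx hy => by rw [smul_add]; exact add_mem hx hy
    rw [← prj_sum hζ he (f g)]
    refine Submodule.sum_mem _ fun j _ => Submodule.mem_iSup_of_mem (Function.update χ g (ζ ^ j))
      ⟨prj_mem hY g _ hx.1, fun h hh => ?_⟩
    rcases mem_insert.1 hh with rfl | hh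
    · rw [Function.update_self]
      exact prj_smul (hf _ _) (by rw [← pow_mul, mul_comm, pow_mul, hζ.pow_eq_one, one_pow])
    · rw [Function.update_of_ne (fun e : h = g => hg (e ▸ mem_coe.1 hh)),
        ← map_smul _ (χ h), ← hx.2 h hh, prj_apply, prj_apply, smul_sum]
      refine sum_congr rfl fun t _ => ?_
      rw [smul_comm, ← map_pow, hc _ _ x hx.1]

variable (Y f) in
/-- the characters that occur -/
abbrev Chs : Type := {χ : L → O // eig Y f Set.univ χ ≠ ⊥}

theorem Chs.ex (χ : Chs Y f) : ∃ y ∈ Y, y ≠ 0 ∧ ∀ g, f g • y = χ.1 g • y := by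
  obtain ⟨y, hy, h⟩ := (Submodule.ne_bot_iff _).1 χ.2
  exact ⟨y, hy.1, h, fun g => hy.2 g trivial⟩

variable [IsDomain O] [Module.IsTorsionFree O V]

/-- a character as a homomorphism -/
def Chs.hom (χ : Chs Y f) : L →* O where
  toFun := χ.1
  map_one' := by
    obtain ⟨y, -, h0, h⟩ := χ.ex
    exact smul_left_injective O h0 (by simpa using (h 1).symm)
  map_mul' a b := by
    obtain ⟨y, -, h0, h⟩ := χ.ex
    refine smul_left_injective O h0 ?_
    show χ.1 (a * b) • y = (χ.1 a * χ.1 b) • y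
    rw [← h, map_mul, mul_smul, h b, smul_comm, h a, smul_smul, mul_comm]

theorem Chs.pow (hf : ∀ g (y : V), f g ^ e • y = y) (χ : Chs Y f) (g : L) : χ.1 g ^ e = 1 := by
  obtain ⟨y, -, h0, h⟩ := χ.ex
  exact smul_left_injective O h0 (by simpa [hf] using (pow_eig (h g) e).symm)

variable {p : ℕ} [hp : Fact p.Prime] [Finite L]

theorem eig_sep (hL : IsPGroup p L) (hY : ∀ g, ∀ y ∈ Y, f g • y ∈ Y)
    (hf : ∀ g (y : V), f g ^ e • y = y) (χ : Chs Y f) (m : ℕ) (s : Finset (Chs Y f)) (hs : χ ∉ s)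
    (hm : s.card < p ^ m) : ∃ T : V →ₗ[O] V, (∀ y ∈ Y, T y ∈ Y) ∧
      (∀ y ∈ eig Y f Set.univ χ.1, T y = (e : O) ^ m • y) ∧
      ∀ ψ ∈ s, ∀ y ∈ eig Y f Set.univ ψ.1, T y = 0 := by
  classical
  induction m generalizing s with
  | zero =>
    obtain rfl : s = ∅ := by simpa using hm
    exact ⟨LinearMap.id, fun _ h => h, by simp, by simp⟩
  | succ m ih =>
    obtain ⟨g, hg⟩ := d_avg hL s (fun ψ => ψ.hom.eqLocus χ.hom) fun ψ hψ h => hs <| by
      rwa [← show ψ = χ from Subtype.ext (funext fun g => (h.ge (Subgroup.mem_top g) :))]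
    obtain ⟨T, h1, h2, h3⟩ := ih _ (fun h => hs (mem_filter.1 h).1)
      (Nat.lt_of_mul_lt_mul_right (hg.trans_lt (hm.trans_eq (pow_succ p m))))
    refine ⟨T ∘ₗ prj e (f g) (χ.1 g), fun y hy => h1 _ (prj_mem hY g _ hy), fun y hy => ?_,
      fun ψ hψ y hy => ?_⟩
    · rw [LinearMap.comp_apply, prj_eig (hy.2 g trivial), prj_same (χ.pow hf g), map_smul, h2 y hy,
        smul_smul, pow_succ']
    · rw [LinearMap.comp_apply, prj_eig (hy.2 g trivial), map_smul]
      by_cases h : ψ.1 g = χ.1 g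
      · rw [h3 ψ (mem_filter.2 ⟨hψ, h⟩) y hy, smul_zero]
      · rw [prj_ne (χ.pow hf g) (ψ.pow hf g) h, zero_smul]

variable [CharZero O]

theorem eig_ind (he : 0 < e) (hL : IsPGroup p L) (hY : ∀ g, ∀ y ∈ Y, f g • y ∈ Y)
    (hf : ∀ g (y : V), f g ^ e • y = y) : iSupIndep fun χ : Chs Y f => eig Y f Set.univ χ.1 := by
  classical
  refine fun χ => Submodule.disjoint_def.2 fun y hy hy' => ?_
  obtain ⟨s, hs⟩ := Submodule.mem_iSup_iff_exists_finset.1 hy'
  obtain ⟨T, -, h2, h3⟩ := eig_sep hL hY hf χ _ (s.erase χ) (notMem_erase _ _)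
    (Nat.lt_pow_self hp.out.one_lt)
  have : y ∈ LinearMap.ker T := (iSup₂_le fun ψ hψ => iSup_le fun h x hx =>
    h3 ψ (mem_erase.2 ⟨h, hψ⟩) x hx : _ ≤ LinearMap.ker T) hs
  rw [LinearMap.mem_ker, h2 y hy] at this
  exact (smul_eq_zero.1 this).resolve_left (pow_ne_zero _ (Nat.cast_ne_zero.2 he.ne'))

theorem eig_dec [Module.Finite O V] {ζ : O} (hζ : IsPrimitiveRoot ζ e) (he : 0 < e)
    (hL : IsPGroup p L) (hY : ∀ g, ∀ y ∈ Y, f g • y ∈ Y)
    (hc : ∀ g h, ∀ y ∈ Y, f g • f h • y = f h • f g • y) (hf : ∀ g (y : V), f g ^ e • y = y)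
    {m : ℕ} (hm : Module.finrank O V < p ^ m) {y : V} (hy : y ∈ Y) :
    e ^ m • y ∈ ⨆ χ : Chs Y f, (eig Y f Set.univ χ.1).toAddSubgroup := by
  classical
  have := Fintype.ofFinite L
  choose v hv h0 using fun χ : Chs Y f => (Submodule.ne_bot_iff _).1 χ.2
  have hli := (eig_ind he hL hY hf).linearIndependent _ hv h0
  have := hli.finite
  have := Fintype.ofFinite (Chs Y f)
  choose T h1 h2 h3 using fun χ : Chs Y f => eig_sep hL hY hf χ m (univ.erase χ) (notMem_erase _ _)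
    (card_erase_le.trans_lt (hli.fintype_card_le_finrank.trans_lt hm))
  have h4 := eig_mult hζ he hY hc hf univ hy
  have hc0 : (e : O) ^ (univ : Finset L).card ≠ 0 := pow_ne_zero _ (Nat.cast_ne_zero.2 he.ne')
  have h5 : ∀ x ∈ ⨆ χ, eig Y f (univ : Finset L) χ,
      (∀ χ, T χ x ∈ eig Y f Set.univ χ.1) ∧ ∑ χ, T χ x = (e : O) ^ m • x := fun x hx => by
    refine Submodule.iSup_induction _ (motive := fun x =>
      (∀ χ, T χ x ∈ eig Y f Set.univ χ.1) ∧ ∑ χ, T χ x = (e : O) ^ m • x) hx (fun ψ x hx => ?_)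
      (by simp) fun x y hx hy => ⟨fun χ => map_add (T χ) x y ▸ add_mem (hx.1 χ) (hy.1 χ), by
        simp only [map_add, sum_add_distrib, hx.2, hy.2, smul_add]⟩
    rw [coe_univ] at hx
    by_cases h : x = 0
    · simp [h]
    let ψ' : Chs Y f := ⟨ψ, (Submodule.ne_bot_iff _).2 ⟨x, hx, h⟩⟩
    have h6 : ∀ χ, χ ≠ ψ' → T χ x = 0 := fun χ h => h3 χ ψ' (by simp [h.symm]) x hx
    refine ⟨fun χ => ?_, by rw [sum_eq_single ψ' (fun χ _ => h6 χ) (by simp), h2 ψ' x hx]⟩
    by_cases h : χ = ψ'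
    · rw [h, h2 ψ' x hx]
      exact Submodule.smul_mem _ _ hx
    · simp [h6 χ h]
  obtain ⟨h6, h7⟩ := h5 _ h4
  simp only [map_smul, ← smul_sum] at h6 h7
  rw [smul_comm] at h7
  rw [← Nat.cast_smul_eq_nsmul O, Nat.cast_pow, ← smul_right_injective V hc0 h7]
  refine AddSubgroup.sum_mem _ fun χ _ => AddSubgroup.mem_iSup_of_mem χ ⟨h1 χ y hy, fun g hg => ?_⟩
  refine smul_right_injective V hc0 ?_
  simpa only [smul_comm (f g), smul_comm (χ.1 g)] using (h6 χ).2 g hg

end Pool.Agent.MP_db5b97_nt.H85
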