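import Mathlib

/-! Cocycles on lattices, units of fields as modules, divisors. -/

namespace Pool.Agent.MP_db5b97_nt.H85

open NumberField IsDedekindDomain

/-- the algebraic numbers -/
abbrev Om : Type := AlgebraicClosure ℚ

/-- the absolute Galois group -/
abbrev Ga : Type := Om ≃ₐ[ℚ] Om

/-- permutation modules -/
noncomputable scoped instance pmAct {G X R : Type} [Group G] [MulAction G X] [AddCommMonoid R] :
    DistribMulAction G (X →₀ R) := Finsupp.comapDistribMulAction

section Coc

variable {G V A : Type} [Group G] [AddCommGroup V] [DistribMulAction G V] [AddCommGroup A]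
  [DistribMulAction G A]

/-- additive on `Y` -/
def AddOn (Y : AddSubgroup V) (β : V → A) : Prop := ∀ x ∈ Y, ∀ y ∈ Y, β (x + y) = β x + β y

/-- `Y` is stable under `U` -/
def Stab (U : Subgroup G) (Y : AddSubgroup V) : Prop := ∀ s ∈ U, ∀ y ∈ Y, s • y ∈ Y

/-- cocycles of `U` with values in `Hom (Y, A)` -/
def Coc (U : Subgroup G) (Y : AddSubgroup V) (c : G → V → A) : Prop :=
  (∀ s ∈ U, AddOn Y (c s)) ∧ ∀ s ∈ U, ∀ t ∈ U, ∀ y ∈ Y, c (s * t) y = c s (t • y) + s • c t y

/-- `n • c` is the coboundary of `β` -/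
def Bd (U : Subgroup G) (Y : AddSubgroup V) (n : ℕ) (c : G → V → A) (β : V → A) : Prop :=
  AddOn Y β ∧ ∀ s ∈ U, ∀ y ∈ Y, n • c s y = s • β y - β (s • y)

variable (A) in
/-- `n` kills the first cohomology of `U` with values in `Hom (Y, A)` -/
def Kill (U : Subgroup G) (Y : AddSubgroup V) (n : ℕ) : Prop :=
  ∀ c : G → V → A, Coc U Y c → ∃ β, Bd U Y n c β

variable (A) in
/-- the first cohomology of `U` with values in `A` vanishes -/
def H90 (U : Subgroup G) : Prop :=
  ∀ c : G → A, (∀ s ∈ U, ∀ t ∈ U, c (s * t) = c s + s • c t) → ∃ a, ∀ s ∈ U, c s = s • a - a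

variable (A) in
/-- invariants -/
def Fix (Q : Subgroup G) : AddSubgroup A where
  carrier := {x | ∀ s ∈ Q, s • x = x}
  add_mem' := fun hx hy s hs => by rw [smul_add, hx s hs, hy s hs]
  zero_mem' := fun s _ => smul_zero s
  neg_mem' := fun hx s hs => by rw [smul_neg, hx s hs]

/-- the sum of the first `p` powers of `σ` -/
def Nm (σ : G) (p : ℕ) : A →+ A :=
  ∑ i ∈ Finset.range p, DistribSMul.toAddMonoidHom A (σ ^ i)

/-- the operator `σ - 1` -/
def Df (σ : G) : A →+ A := DistribSMul.toAddMonoidHom A σ - AddMonoidHom.id A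

theorem mem_Fix {Q : Subgroup G} {x : A} : x ∈ Fix A Q ↔ ∀ s ∈ Q, s • x = x := Iff.rfl

theorem Nm_apply (σ : G) (p : ℕ) (x : A) : Nm σ p x = ∑ i ∈ Finset.range p, σ ^ i • x := by
  simp [Nm, AddMonoidHom.finsetSum_apply]

theorem Df_apply (σ : G) (x : A) : Df σ x = σ • x - x := rfl

end Coc

/-- order of the group `ker f / im g` (zero when infinite) -/
noncomputable def hc {A : Type} [AddCommGroup A] (f g : A →+ A) : ℕ := g.range.relIndex f.ker

/-- exponent for the period -/
def jb (k : ℕ) : ℕ := k * (1 + k * (k + 1))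

/-- exponent for the index -/
def Jb (k : ℕ) : ℕ := k + jb k

/-- `E'` contains the part of `E0` over an open subgroup -/
def Opn {E : Type} [Group E] (π : E →* Ga) (E0 E' : Subgroup E) : Prop :=
  ∃ H : Subgroup Ga, IsOpen (H : Set Ga) ∧ ∀ e ∈ E0, π e ∈ H → e ∈ E'

/-! ### Units -/

/-- the multiplicative group of a field, written additively -/
def Un (F : Type) [Field F] : Type := Additive Fˣ

namespace Un

variable {F E : Type} [Field F] [Field E]

instance : AddCommGroup (Un F) := inferInstanceAs (AddCommGroup (Additive Fˣ))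

/-- the underlying element -/
def val (x : Un F) : F := ((Additive.toMul (α := Fˣ) x : Fˣ) : F)

/-- a nonzero element -/
def mk (x : F) (h : x ≠ 0) : Un F := Additive.ofMul (Units.mk0 x h)

@[simp] theorem val_mk (x : F) (h : x ≠ 0) : (mk x h).val = x := rfl

@[simp] theorem val_ne (x : Un F) : x.val ≠ 0 := Units.ne_zero _

@[ext] theorem ext {x y : Un F} (h : x.val = y.val) : x = y :=
  Additive.toMul.injective (Units.ext h)

@[simp] theorem val_add (x y : Un F) : (x + y).val = x.val * y.val := rfl

@[simp] theorem val_zero : (0 : Un F).val = 1 := rfl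

@[simp] theorem val_neg (x : Un F) : (-x).val = x.val⁻¹ := Units.val_inv_eq_inv_val _

@[simp] theorem val_sub (x y : Un F) : (x - y).val = x.val / y.val := by
  rw [sub_eq_add_neg, val_add, val_neg, div_eq_mul_inv]

@[simp] theorem val_nsmul (n : ℕ) (x : Un F) : (n • x).val = x.val ^ n :=
  Units.val_pow_eq_pow_val _ _

@[simp] theorem val_zsmul (n : ℤ) (x : Un F) : (n • x).val = x.val ^ n :=
  Units.val_zpow_eq_zpow_val _ _

theorem val_sum {ι : Type} (s : Finset ι) (f : ι → Un F) :
    (∑ i ∈ s, f i).val = ∏ i ∈ s, (f i).val := by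
  classical
  induction s using Finset.induction_on with
  | empty => simp
  | insert i s h ih => rw [Finset.sum_insert h, Finset.prod_insert h, val_add, ih]

/-- functoriality -/
def map (φ : E →*₀ F) : Un E →+ Un F where
  toFun x := mk (φ x.val) (by simp)
  map_zero' := by ext; simp
  map_add' x y := by ext; simp

@[simp] theorem val_map (φ : E →*₀ F) (x : Un E) : (map φ x).val = φ x.val := rfl

/-- inclusion along an extension of fields -/
def inc (E F : Type) [Field E] [Field F] [Algebra E F] : Un E →+ Un F :=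
  map (algebraMap E F).toMonoidWithZeroHom

@[simp] theorem val_inc [Algebra E F] (x : Un E) : (inc E F x).val = algebraMap E F x.val := rfl

/-- the norm of a finite extension -/
noncomputable def nrm (E F : Type) [Field E] [Field F] [Algebra E F] [FiniteDimensional E F] :
    Un F →+ Un E where
  toFun x := mk (Algebra.norm E x.val) (by simp)
  map_zero' := by ext; simp
  map_add' x y := by ext; simp

@[simp] theorem val_nrm [Algebra E F] [FiniteDimensional E F] (x : Un F) :
    (nrm E F x).val = Algebra.norm E x.val := rfl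

instance {G : Type} [Group G] [MulSemiringAction G F] : DistribMulAction G (Un F) where
  smul s x := mk (s • x.val) (by simp [smul_eq_zero_iff_eq])
  one_smul x := Un.ext (one_smul G x.val)
  mul_smul s t x := Un.ext (mul_smul s t x.val)
  smul_zero s := Un.ext (smul_one s)
  smul_add s x y := Un.ext (smul_mul' s x.val y.val)

@[simp] theorem val_smul {G : Type} [Group G] [MulSemiringAction G F] (s : G) (x : Un F) :
    (s • x).val = s • x.val := rfl

end Un

/-! ### Divisors -/

section Div

/-- elements that become integral after multiplication by an integer prime to `l` -/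
def Rl (F : Type) [Field F] (l : ℕ) : Subring F where
  carrier := {x | ∃ s : ℕ, s.Coprime l ∧ IsIntegral ℤ ((s : F) * x)}
  zero_mem' := ⟨1, by simp, by simpa using isIntegral_zero⟩
  one_mem' := ⟨1, by simp, by simpa using isIntegral_one⟩
  neg_mem' := fun ⟨s, hs, h⟩ => ⟨s, hs, by simpa using h.neg⟩
  add_mem' := by
    rintro x y ⟨s, hs, h⟩ ⟨t, ht, h'⟩
    refine ⟨s * t, Nat.Coprime.mul_left hs ht, ?_⟩
    have e : ((s * t : ℕ) : F) * (x + y) = s * x * algebraMap ℤ F t + t * y * algebraMap ℤ F s := by
      simp only [algebraMap_int_eq, eq_intCast, Int.cast_natCast, Nat.cast_mul]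
      ring
    rw [e]
    exact (h.mul isIntegral_algebraMap).add (h'.mul isIntegral_algebraMap)
  mul_mem' := by
    rintro x y ⟨s, hs, h⟩ ⟨t, ht, h'⟩
    refine ⟨s * t, Nat.Coprime.mul_left hs ht, ?_⟩
    have e : ((s * t : ℕ) : F) * (x * y) = s * x * (t * y) := by
      rw [Nat.cast_mul]
      ring
    rw [e]
    exact h.mul h'

variable (F : Type) [Field F] [NumberField F] (l : ℕ)

/-- all primes -/
abbrev Sp : Type := HeightOneSpectrum (𝓞 F)

/-- primes not dividing `l` -/
def Pr : Type := {w : Sp F // (l : 𝓞 F) ∉ w.asIdeal}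

/-- primes dividing `l` -/
def Pl : Type := {w : Sp F // (l : 𝓞 F) ∈ w.asIdeal}

/-- divisors prime to `l` -/
abbrev Dv : Type := Pr F l →₀ ℤ

variable {F} in
/-- order of vanishing -/
noncomputable def ord (w : Sp F) : Un F →+ ℤ where
  toFun x := -WithZero.log (w.valuation F x.val)
  map_zero' := by simp
  map_add' x y := by
    rw [Un.val_add, map_mul, WithZero.log_mul (by simp) (by simp), neg_add]

theorem ord_finite (x : Un F) : {w : Sp F | ord w x ≠ 0}.Finite := by
  refine ((HeightOneSpectrum.Support.finite (𝓞 F) x.val).union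
    (HeightOneSpectrum.Support.finite (𝓞 F) x.val⁻¹)).subset fun w hw => ?_
  have h : w.valuation F x.val ≠ 1 := fun h => hw (by simp [ord, h])
  rcases lt_or_gt_of_ne h with h | h
  · refine Or.inr ?_
    show 1 < w.valuation F x.val⁻¹
    rw [map_inv₀]
    exact (one_lt_inv₀ (by simp [zero_lt_iff])).2 h
  · exact Or.inl h

/-- the part prime to `l` of the divisor -/
noncomputable def dv : Un F →+ Dv F l where
  toFun x := Finsupp.ofSupportFinite (fun w => ord w.1 x)
    ((ord_finite F x).preimage Subtype.val_injective.injOn)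
  map_zero' := by ext w; simp [Finsupp.ofSupportFinite_coe]
  map_add' x y := by ext w; simp [Finsupp.ofSupportFinite_coe]

@[simp] theorem dv_apply (x : Un F) (w : Pr F l) : dv F l x w = ord w.1 x := rfl

/-- units at the primes dividing `l` -/
def Ru : AddSubgroup (Un F) where
  carrier := {x | ∀ w : Sp F, (l : 𝓞 F) ∈ w.asIdeal → w.valuation F x.val = 1}
  zero_mem' := by simp
  add_mem' := fun hx hy w hw => by rw [Un.val_add, map_mul, hx w hw, hy w hw, mul_one]
  neg_mem' := fun hx w hw => by rw [Un.val_neg, map_inv₀, hx w hw, inv_one]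

/-- the ray modulo `l ^ M` -/
def Ray (M : ℕ) : AddSubgroup (Un F) where
  carrier := {x | x ∈ Ru F l ∧ ∀ w : Sp F, (l : 𝓞 F) ∈ w.asIdeal →
    w.valuation F (x.val - 1) ≤ w.valuation F (l : F) ^ M}
  zero_mem' := ⟨zero_mem _, by simp⟩
  add_mem' := by
    rintro x y ⟨hx, hx'⟩ ⟨hy, hy'⟩
    refine ⟨add_mem hx hy, fun w hw => ?_⟩
    have : (x + y).val - 1 = x.val * (y.val - 1) + (x.val - 1) := by rw [Un.val_add]; ring
    rw [this]
    refine Valuation.map_add_le _ ?_ (hx' w hw)
    rw [map_mul, hx w hw, one_mul]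
    exact hy' w hw
  neg_mem' := by
    rintro x ⟨hx, hx'⟩
    refine ⟨neg_mem hx, fun w hw => ?_⟩
    have : (-x).val - 1 = -(x.val⁻¹ * (x.val - 1)) := by
      rw [Un.val_neg, mul_sub, inv_mul_cancel₀ x.val_ne]; ring
    rw [this, Valuation.map_neg, map_mul, map_inv₀, hx w hw, inv_one, one_mul]
    exact hx' w hw

variable (k : Type) [Field k] [NumberField k] [Algebra k F]

variable {F} in
/-- the prime below -/
noncomputable def und (w : Sp F) : Sp k := w.under (𝓞 k)

variable {F l} in
/-- the prime below -/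
noncomputable def Pr.und (w : Pr F l) : Pr k l :=
  ⟨H85.und k w.1, fun h => w.2 (by simpa [H85.und, Ideal.mem_comap] using h)⟩

variable {F l} in
/-- the prime below -/
noncomputable def Pl.und (w : Pl F l) : Pl k l :=
  ⟨H85.und k w.1, by simpa [H85.und, Ideal.mem_comap] using w.2⟩

/-- the norm of a divisor -/
noncomputable def nrD : Dv F l →+ Dv k l :=
  Finsupp.liftAddHom fun w => (Finsupp.singleAddHom (w.und k)).comp
    (AddMonoidHom.mulRight (w.1.asIdeal.inertiaDeg (𝓞 k) : ℤ))

variable {G : Type} [Group G] [MulSemiringAction G F]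

open scoped Pointwise in
noncomputable instance : MulAction G (Sp F) where
  smul s w := ⟨s • w.asIdeal, w.isPrime.smul s, fun h => w.ne_bot ((smul_eq_zero_iff_eq s).1 h)⟩
  one_smul w := HeightOneSpectrum.ext (one_smul G w.asIdeal)
  mul_smul s t w := HeightOneSpectrum.ext (mul_smul s t w.asIdeal)

omit [NumberField F] in
variable {F} in
theorem mem_smul_iff (s : G) (w : Sp F) (x : 𝓞 F) :
    x ∈ (s • w).asIdeal ↔ s⁻¹ • x ∈ w.asIdeal := Ideal.mem_pointwise_smul_iff_inv_smul_mem

omit [NumberField F] in
theorem smul_natCast (s : G) : s • (l : 𝓞 F) = l :=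
  map_natCast (MulSemiringAction.toRingHom G _ s) l

noncomputable instance : MulAction G (Pr F l) where
  smul s w := ⟨s • w.1, by rw [mem_smul_iff, smul_natCast]; exact w.2⟩
  one_smul w := Subtype.ext (one_smul G w.1)
  mul_smul s t w := Subtype.ext (mul_smul s t w.1)

noncomputable instance : MulAction G (Pl F l) where
  smul s w := ⟨s • w.1, by rw [mem_smul_iff, smul_natCast]; exact w.2⟩
  one_smul w := Subtype.ext (one_smul G w.1)
  mul_smul s t w := Subtype.ext (mul_smul s t w.1)

end Div

end Pool.Agent.MP_db5b97_nt.H85
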