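import Pool.Agent.MP_db5b97_nt.H85.TR
import Pool.Agent.MP_db5b97_nt.H85.Spec2

/-! The index is bounded in terms of the period. -/

namespace Pool.Agent.MP_db5b97_nt.H85

open NumberField Polynomial MulAction

variable {S T N H : Subgroup Ga}

/-- an integer in the field it generates -/
noncomputable def genI (S : Subgroup Ga) {α : Om} (h : IsIntegral ℤ α) : 𝓞 (Fx (S ⊓ stabilizer Ga α)) :=
  ⟨gen S α, (isIntegral_algebraMap_iff (B := Om) Subtype.val_injective).1 h⟩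

theorem int_inj : Function.Injective (algebraMap (𝓞 (Fx S)) Om) :=
  (algebraMap (Fx S) Om).injective.comp RingOfIntegers.coe_injective

instance [Fact (S ≤ T)] : IsScalarTower (𝓞 (Fx T)) (𝓞 (Fx S)) Om :=
  IsScalarTower.of_algebraMap_eq fun _ => rfl

theorem aeval_genI {α : Om} (h : IsIntegral ℤ α) {g : (𝓞 (Fx S))[X]} (h0 : aeval α g = 0) :
    aeval (genI S h) g = 0 := by
  apply int_inj
  rw [← aeval_algebraMap_apply, map_zero]
  exact h0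

theorem Nrm.inf [h : Nrm H N] (α : Om) : Nrm (H ⊓ stabilizer Ga α) (N ⊓ stabilizer Ga α) :=
  ⟨fun s hs t ht => ⟨h.conj s hs.1 t ht.1, mul_mem (mul_mem hs.2 ht.2) (Subgroup.inv_mem _ hs.2)⟩⟩

theorem Nrm.mono [h : Nrm H N] (hS : S ≤ H) : Nrm S N := ⟨fun s hs => h.conj s (hS hs)⟩

theorem key_step (hR : RowRES) {p a l : ℕ} (hp : p.Prime) [Ope N] [Ope H] [Nrm H N]
    [hNH : Fact (N ≤ H)] (hexp : ∀ σ ∈ H, ∃ q : ℕ, q.Coprime p ∧ σ ^ (q * p ^ a) ∈ N) {α : Om}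
    (hα : IsIntegral ℤ α) {g : (𝓞 (Fx H))[X]} (hg : g.Monic) (h0 : aeval α g = 0)
    (hd : g.natDegree = p ^ a)
    (hi : ∀ v : Pl (Fx H) l, Irreducible (g.map (Ideal.Quotient.mk v.1.asIdeal)))
    [Fact (N ⊓ stabilizer Ga α ≤ H ⊓ stabilizer Ga α)] (w : Pl (Fx (N ⊓ stabilizer Ga α)) l) :
    (w.1.asIdeal.inertiaDeg (𝓞 (Fx (H ⊓ stabilizer Ga α)))).Coprime p := by
  have : Fact (N ⊓ stabilizer Ga α ≤ H) := ⟨inf_le_left.trans hNH.out⟩
  refine hR.key p a hp (Fx H) (Fx N) _ _ (Qt H N) (genI H hα) g w.1 (fun q => ?_) hg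
    (aeval_genI hα h0) hd (adjoin_gen N α) (hi (w.und _))
  induction q using QuotientGroup.induction_on with
  | H s =>
    obtain ⟨q, hq, e⟩ := hexp s s.2
    exact ⟨q, hq, by rw [← QuotientGroup.mk_pow, QuotientGroup.eq_one_iff]; exact e⟩

/-- the preimage of a subgroup of a quotient -/
noncomputable def pre [Nrm H N] (P : Subgroup (Qt H N)) : Subgroup Ga :=
  (P.comap (QuotientGroup.mk' _)).map H.subtype

theorem mem_pre [Nrm H N] {P : Subgroup (Qt H N)} {s : Ga} :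
    s ∈ pre P ↔ ∃ h : s ∈ H, ((⟨s, h⟩ : H) : Qt H N) ∈ P :=
  ⟨fun ⟨t, ht, e⟩ => by subst e; exact ⟨t.2, ht⟩, fun ⟨h, h'⟩ => ⟨⟨s, h⟩, h', rfl⟩⟩

theorem pre_le [Nrm H N] (P : Subgroup (Qt H N)) : pre P ≤ H := fun _ h => (mem_pre.1 h).1

theorem le_pre [Nrm H N] (P : Subgroup (Qt H N)) (h : N ≤ H) : N ≤ pre P := fun s hs =>
  mem_pre.2 ⟨h hs, by rw [(QuotientGroup.eq_one_iff _).2 (by exact hs)]; exact one_mem P⟩

theorem relIndex_pre [Nrm H N] (P : Subgroup (Qt H N)) : (pre P).relIndex H = P.index := by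
  rw [← P.index_comap_of_surjective (QuotientGroup.mk'_surjective _), Subgroup.relIndex, pre,
    Subgroup.subgroupOf, Subgroup.comap_map_eq_self_of_injective H.subtype_injective]

variable {V : Type} [AddCommGroup V] [DistribMulAction Ga V] {M : AddSubgroup V}
  {c : Ga → V → Un Om}

theorem Coc.mul_right (hc : Coc H M c) (hNH : N ≤ H) (hNM : ∀ ν ∈ N, ∀ y ∈ M, ν • y = y)
    (hcN : ∀ ν ∈ N, ∀ y ∈ M, c ν y = 0) {s ν : Ga} (hs : s ∈ H) (hν : ν ∈ N) {y : V} (hy : y ∈ M) :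
    c (s * ν) y = c s y := by
  rw [hc.2 s hs ν (hNH hν) y hy, hNM ν hν y hy, hcN ν hν y hy, smul_zero, add_zero]

theorem Coc.fix [Nrm H N] (hc : Coc H M c) (hNH : N ≤ H) (hM : Stab H M)
    (hNM : ∀ ν ∈ N, ∀ y ∈ M, ν • y = y) (hcN : ∀ ν ∈ N, ∀ y ∈ M, c ν y = 0) {s ν : Ga}
    (hs : s ∈ H) (hν : ν ∈ N) {y : V} (hy : y ∈ M) : ν • c s y = c s y := by
  have h1 := hc.2 ν (hNH hν) s hs y hy
  rw [hcN ν hν _ (hM s hs y hy), zero_add, show ν * s = s * (s⁻¹ * ν * s) by group,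
    hc.mul_right hNH hNM hcN hs (Nrm.conj' hs hν) hy] at h1
  exact h1.symm

theorem core_step (hC : RowCORE) {p l : ℕ} (hp : p.Prime) (hl : 2 ≤ l) [Module.Free ℤ M]
    [Ope N] [Ope T] [Nrm H N] [Nrm H T] [hNT : Fact (N ≤ T)] (hNH : N ≤ H) (hHT : H ⊓ T ≤ N)
    (P : Subgroup (Qt H N)) (hP : IsPGroup p P) (hM : Stab H M)
    (hNM : ∀ ν ∈ N, ∀ y ∈ M, ν • y = y) (hc : Coc H M c) (hcN : ∀ ν ∈ N, ∀ y ∈ M, c ν y = 0)
    (hcT : ∀ s ∈ H, ∀ y ∈ M, ∀ t ∈ T, t • c s y = c s y)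
    (i : Om) (hi : i ^ 2 = -1) (hiH : ∀ s ∈ H, s i = i) (hiT : ∀ s ∈ T, s i = i)
    (θ : 𝓞 (Fx T)) (hθ : ∀ s : H, (s : Ga) ∉ N → ∀ w : Pr (Fx T) l,
      (s : Qt H N) • θ - θ ∉ w.1.asIdeal)
    (hres : ∀ (w : Pl (Fx T) l) (x : 𝓞 (Fx T)),
      ∃ y : 𝓞 (Fx T), (∀ s : P, s • y = y) ∧ x - y ∈ w.1.asIdeal)
    (α : 𝓞 (Fx N)) (g : (𝓞 (Fx T))[X]) (hg : g.Monic) (h0 : aeval α g = 0)
    (hd : g.natDegree = N.relIndex T)
    (hirr : ∀ w : Pl (Fx T) l, Irreducible (g.map (Ideal.Quotient.mk w.1.asIdeal)))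
    (hα : ∀ s : Qt H N, s • α = α) (hgH : ∀ (s : Qt H N) n, s • g.coeff n = g.coeff n)
    (hcl : ∀ s ∈ H, ∀ y ∈ M, dv (Fx T) l (lft T (c s y)) = 0) {β : V → Un Om}
    (hβ : Bd (pre P) M g.natDegree c β) (hβT : ∀ y ∈ M, ∀ t ∈ T, t • β y = β y)
    (hβl : ∀ y ∈ M, dv (Fx T) l (lft T (β y)) = 0) : ∃ β', Bd (pre P) M 1 c β' := by
  let _ := Qt.mact (N := N) hM hNM
  have := Qt.faithful (S := H) hHT
  have hout : ∀ s : H, ∀ y ∈ M, c (s : Qt H N).out y = c s y := fun s y hy => by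
    obtain ⟨ν, e⟩ := QuotientGroup.mk_out_eq_mul (N.subgroupOf H) s
    rw [e]
    exact hc.mul_right hNH hNM hcN s.2 ν.2 hy
  have hI : ∀ (s : H) (y : M), Un.inc (Fx T) Om (lft T (c (s : Qt H N).out y)) = c s y :=
    fun s y => by rw [hout s y y.2, inc_lft (hcT s s.2 y y.2)]
  have hB : ∀ y : M, Un.inc (Fx T) Om (lft T (β y)) = β y := fun y => inc_lft (hβT y y.2)
  have he : ∀ (q : Qt H N) (x : Fx T), algebraMap _ (Fx N) (q • x) = q • algebraMap _ (Fx N) x :=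
    fun q x => Quotient.inductionOn' q fun _ => rfl
  have hi' : ∀ q : Qt H N, q • (⟨i, mem_fx.2 hiT⟩ : Fx T) = ⟨i, mem_fx.2 hiT⟩ :=
    fun q => Quotient.inductionOn' q fun s => Subtype.ext (hiH s s.2)
  rw [hd, ← finrank_fx_rel] at hβ
  have hco : Coc ⊤ ⊤ fun (s : P) (y : M) => lft T (c (s : Qt H N).out y) := by
    refine ⟨fun ⟨q, _⟩ _ x _ y _ => inc_inj _ Om ?_, fun ⟨q, _⟩ _ ⟨r, _⟩ _ y _ => inc_inj _ Om ?_⟩
    · induction q using QuotientGroup.induction_on with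
      | H s => rw [map_add, hI, hI, hI]; exact hc.1 s s.2 x x.2 y y.2
    · induction q using QuotientGroup.induction_on with
      | H s =>
        induction r using QuotientGroup.induction_on with
        | H t =>
          have := hc.2 s s.2 t t.2 y y.2
          rw [← hI t y] at this
          rw [map_add, hI]
          exact (hI (s * t) y).trans this
  have hbd : Bd ⊤ ⊤ (Module.finrank (Fx T) (Fx N)) (fun (s : P) (y : M) =>
      lft T (c (s : Qt H N).out y)) fun y => lft T (β y) := by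
    refine ⟨fun x _ y _ => inc_inj _ Om ?_, fun ⟨q, hq⟩ _ y _ => inc_inj _ Om ?_⟩
    · rw [map_add, hB, hB, hB]
      exact hβ.1 x x.2 y y.2
    · induction q using QuotientGroup.induction_on with
      | H s =>
        have := hβ.2 s (mem_pre.2 ⟨s.2, hq⟩) y y.2
        rw [← hB y] at this
        rw [map_nsmul, map_sub, hI, hB]
        exact this
  obtain ⟨β', h1, h2⟩ := hC p hp P (Fx T) (Fx N) M l α g hP
    (fun q => he q) ⟨⟨i, mem_fx.2 hiT⟩, Subtype.ext hi, fun q => hi' q⟩ hl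
    ⟨θ, fun ⟨q, hq⟩ h => by
      induction q using QuotientGroup.induction_on with
      | H s => exact hθ s fun hs => h (Subtype.ext ((QuotientGroup.eq_one_iff s).2 hs))⟩
    hres hg h0 (hd.trans finrank_fx_rel.symm) hirr (fun s => hα s) (fun s => hgH s)
    _ hco (fun s y => hcl _ (Subtype.prop _) y y.2)
    _ hbd (fun y => hβl y y.2)
  refine ⟨extH ((Un.inc _ Om).comp (AddMonoidHom.mk' β' fun x y => h1 x trivial y trivial)),
    extH_addOn _, fun s hs y hy => ?_⟩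
  obtain ⟨hs, hs'⟩ := mem_pre.1 hs
  have := congrArg (Un.inc _ Om) (h2 ⟨_, hs'⟩ trivial ⟨y, hy⟩ trivial)
  rw [extH_apply _ hy, extH_apply _ (hM s hs y hy)]
  rw [one_smul, inc_inc, hI, map_sub] at this
  rw [one_smul]
  exact this

omit [DistribMulAction Ga V] in
theorem dv_lft [Ope T] {l n : ℕ} {v : Fin n → M} (hv : Submodule.span ℤ (Set.range v) = ⊤)
    {γ : V → Un Om} (hγ : AddOn M γ) (hT : ∀ y ∈ M, ∀ t ∈ T, t • γ y = γ y)
    (h : ∀ i, dv (Fx T) l (lft T (γ (v i))) = 0) (y : V) (hy : y ∈ M) :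
    dv (Fx T) l (lft T (γ y)) = 0 := by
  let φ : M →+ Un (Fx T) := AddMonoidHom.mk' (fun y => lft T (γ y)) fun x y => inc_inj _ Om <| by
    rw [map_add, inc_lft (hT _ x.2), inc_lft (hT _ y.2), inc_lft (hT _ (x + y).2)]
    exact hγ x x.2 y y.2
  exact LinearMap.congr_fun (LinearMap.ext_on_range hv (f := ((dv _ l).comp φ).toIntLinearMap)
    (g := 0) h) ⟨y, hy⟩

theorem val_lft {x : Un Om} (h : ∀ t ∈ T, t • x = x) : ((lft T x).val : Om) = x.val :=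
  congrArg Un.val (inc_lft h)

theorem second (hR : RowRES) (hC : RowCORE) {p l j : ℕ} (hp : p.Prime) (hl : 2 ≤ l)
    [Module.Free ℤ M] {H1 N1 : Subgroup Ga} [Ope N1] [Ope H1] [Nrm H N] [Nrm H1 N1]
    [hF1 : Fact (N1 ≤ H1)] (hNH : N ≤ H) (hH1 : H1 ≤ H) (hN1 : N1 ≤ N)
    (hk : ∀ w : Pl (Fx N1) l, (w.1.asIdeal.inertiaDeg (𝓞 (Fx H1))).Coprime p) (hM : Stab H M)
    (hNM : ∀ ν ∈ N, ∀ y ∈ M, ν • y = y) (hc : Coc H M c) (hcN : ∀ ν ∈ N, ∀ y ∈ M, c ν y = 0)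
    (i : Om) (hi : i ^ 2 = -1) (hiH : ∀ s ∈ H, s i = i) (θ : 𝓞 (Fx N1))
    (hθ : ∀ s ∈ H1, s ∉ N1 → ∀ x : Un (Fx N1), (x.val : Om) = s (θ : Fx N1) - (θ : Fx N1) →
      dv _ l x = 0) (hθ' : ∀ s ∈ H1, s (θ : Fx N1) = (θ : Fx N1) → s ∈ N1)
    (hcl : ∀ s ∈ H, ∀ y ∈ M, dv (Fx N1) l (lft N1 (c s y)) = 0)
    (hβ : ∀ S : Subgroup Ga, N ≤ S → S ≤ H → (∀ σ ∈ S, ∃ k, σ ^ p ^ k ∈ N) →
      ∃ β, Bd S M (p ^ j) c β ∧ ∀ y ∈ M, dv (Fx N1) l (lft N1 (β y)) = 0) :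
    ∃ H' : Subgroup Ga, Ope H' ∧ H' ≤ H1 ∧ H'.relIndex H1 = p ^ j ∧
      ∃ t : ℕ, t.Coprime p ∧ ∃ β, Bd H' M t c β := by
  have : Fact p.Prime := ⟨hp⟩
  obtain ⟨g2, hg2, hd2, hi2⟩ := hR.ex (Fx H1) l (p ^ j) (by omega) (pow_pos hp.pos j)
  obtain ⟨α, h2, hα⟩ := exists_root hg2 (hd2 ▸ pow_pos hp.pos j)
  have r2 := relIndex_stab hg2 (hR.fld _ l g2 hl hg2 hi2) h2
  have hi3 : ∀ w : Pl (Fx N1) l, Irreducible ((g2.map (algebraMap _ (𝓞 (Fx N1)))).map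
      (Ideal.Quotient.mk w.1.asIdeal)) := fun w =>
    hR.up _ _ w.1 g2 hg2 (hi2 (w.und _)) (hd2 ▸ (hk w).pow_right j)
  have h3 : aeval α (g2.map (algebraMap _ (𝓞 (Fx N1)))) = 0 := by rwa [aeval_map_algebraMap]
  have r3 := relIndex_stab (hg2.map _) (hR.fld _ l _ hl (hg2.map _) hi3) h3
  have := Nrm.inf (H := H1) (N := N1) α
  have : Nrm (H1 ⊓ stabilizer Ga α) N1 := Nrm.mono inf_le_left
  have hH2 : H1 ⊓ stabilizer Ga α ≤ H := inf_le_left.trans hH1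
  obtain ⟨P⟩ : Nonempty (Sylow p (Qt (H1 ⊓ stabilizer Ga α) (N1 ⊓ stabilizer Ga α))) :=
    inferInstance
  let φ : Qt (H1 ⊓ stabilizer Ga α) (N1 ⊓ stabilizer Ga α) →* Qt H N :=
    QuotientGroup.map _ _ (Subgroup.inclusion hH2) fun s hs => hN1 hs.1
  obtain ⟨β, hS, hβl⟩ := hβ (pre (P.1.map φ)) (le_pre _ hNH) (pre_le _) fun s hs => by
    obtain ⟨h, h'⟩ := mem_pre.1 hs
    obtain ⟨k, hk⟩ := P.isPGroup'.map φ ⟨_, h'⟩
    exact ⟨k, (QuotientGroup.eq_one_iff ((⟨s, h⟩ : H) ^ p ^ k)).1 (congrArg Subtype.val hk)⟩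
  have hβN : ∀ y ∈ M, ∀ t ∈ N1, t • β y = β y := fun y hy t ht => by
    have := hS.2 t (le_pre _ hNH (hN1 ht)) y hy
    rwa [hcN t (hN1 ht) y hy, smul_zero, hNM t (hN1 ht) y hy, eq_comm, sub_eq_zero] at this
  have hP : pre P.1 ≤ pre (P.1.map φ) := fun s hs =>
    mem_pre.2 ⟨hH2 (pre_le _ hs), _, (mem_pre.1 hs).2, rfl⟩
  have hfix : ∀ (q : Qt (H1 ⊓ stabilizer Ga α) (N1 ⊓ stabilizer Ga α)) (x : Fx H1),
      q • algebraMap _ (Fx N1) x = algebraMap _ (Fx N1) x := fun q x =>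
    Quotient.inductionOn' q fun s => Subtype.ext (x.fix s.2.1)
  obtain ⟨β', hβ'⟩ := core_step (H := H1 ⊓ stabilizer Ga α) (N := N1 ⊓ stabilizer Ga α) (T := N1)
    hC hp hl (inf_le_inf_right _ hF1.out)
    (fun s hs => ⟨hs.2, hs.1.2⟩) P.1 P.isPGroup' (hM.mono hH2) (fun ν h => hNM ν (hN1 h.1))
    (hc.mono hH2 le_rfl) (fun ν h => hcN ν (hN1 h.1))
    (fun s hs y hy t ht => hc.fix hNH hM hNM hcN (hH2 hs) (hN1 ht) hy) i hi
    (fun s hs => hiH s (hH2 hs)) (fun s hs => hiH s (hNH (hN1 hs))) θ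
    (fun s hs w => by
      have hs' : (s : Ga) ∉ N1 := fun h => hs ⟨h, s.2.2⟩
      have hne : (s : Qt (H1 ⊓ stabilizer Ga α) (N1 ⊓ stabilizer Ga α)) • θ - θ ≠ 0 := fun h =>
        hs' (hθ' s s.2.1 (by exact congrArg (algebraMap _ Om) (sub_eq_zero.1 h)))
      have := DFunLike.congr_fun (hθ s s.2.1 hs' (mkI _ hne) rfl) w
      exact (val_eq_one_iff _ _).1 ((ord_eq_zero_iff _ _).1 this))
    (fun w => hR.res p hp P (Fx H1) (Fx N1) w.1 P.isPGroup' (fun q x => hfix q x) (hk w))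
    (genI N1 hα) _ (hg2.map _) (aeval_genI hα h3) r3.symm hi3
    (fun q => Quotient.inductionOn' q fun s => int_inj s.2.2)
    (fun q n => by rw [coeff_map]; exact RingOfIntegers.ext (hfix q _))
    (fun s hs => hcl s (hH2 hs)) (β := β)
    (by rw [hg2.natDegree_map, hd2]; exact hS.mono hP le_rfl) hβN hβl
  have : Ope (pre P.1) := Ope.mono (le_pre _ (inf_le_inf_right _ hF1.out))
  obtain ⟨γ, hγ⟩ := cores relIndex_ne (hM.mono hH2) (hc.mono hH2 le_rfl) hβ'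
  refine ⟨_, inferInstance, inf_le_left, r2.trans hd2, _, ?_, γ, hγ⟩
  rw [mul_one, relIndex_pre]
  exact ((Nat.Prime.coprime_iff_not_dvd hp).2 P.not_dvd_index).symm

theorem rowIDX (hR : RowRES) (hC : RowCORE) : RowIDX := by
  intro p hp V _ _ H N M _ _ c a j hN hNH hnorm ⟨i, hi, hiH⟩ hM hNM hc hcN hexp hβ
  have : Ope N := ⟨hN⟩
  have : Ope H := Ope.mono hNH
  have : Nrm H N := ⟨hnorm⟩
  have : Fact (N ≤ H) := ⟨hNH⟩
  choose! β hβ using hβ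
  obtain ⟨θ, hθ⟩ := exists_theta N
  obtain ⟨n, v, hv⟩ := Module.Finite.exists_fin (R := ℤ) (M := M)
  obtain ⟨l, hl, hlu⟩ := hR.lu ((⋃ i, (fun s => (c s (v i)).val) '' H) ∪
    (⋃ i, (fun S => (β S (v i)).val) '' {S | N ≤ S}) ∪
    (fun s : Ga => s (θ : Fx N) - (θ : Fx N)) '' H \ {0})
    (((Set.finite_iUnion fun i => finite_image (N := N) _ fun s hs ν hν => by
      rw [hc.mul_right hNH hNM hcN hs hν (v i).2]).union
      (Set.finite_iUnion fun i => (finite_over N).image _)).union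
      ((finite_image (N := N) _ fun s _ ν hν => by
        rw [AlgEquiv.mul_apply, Fx.fix _ hν]).subset Set.sdiff_subset)) (by simp)
  obtain ⟨g, hg, hd, hi1⟩ := hR.ex (Fx H) l (p ^ a) (by omega) (pow_pos hp.pos a)
  obtain ⟨α, h1, hα⟩ := exists_root hg (hd ▸ pow_pos hp.pos a)
  have r1 := relIndex_stab hg (hR.fld _ l g hl hg hi1) h1
  have : Fact (N ⊓ stabilizer Ga α ≤ H ⊓ stabilizer Ga α) := ⟨inf_le_inf_right _ hNH⟩
  have := Nrm.inf (H := H) (N := N) α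
  have hcT : ∀ s ∈ H, ∀ y ∈ M, ∀ t ∈ N ⊓ stabilizer Ga α, t • c s y = c s y :=
    fun s hs y hy t ht => hc.fix hNH hM hNM hcN hs ht.1 hy
  obtain ⟨H', ho, hle, hr, h⟩ := second (H1 := H ⊓ stabilizer Ga α) (N1 := N ⊓ stabilizer Ga α)
    (j := j) hR hC hp hl hNH inf_le_left inf_le_left (key_step hR hp hexp hα hg h1 hd hi1) hM hNM hc
    hcN i hi hiH (algebraMap _ _ θ)
    (fun s hs _ x hx => hlu _ x (Or.inr ⟨⟨s, hs.1, hx.symm⟩, fun h => x.val_ne (Subtype.ext h)⟩))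
    (fun s hs h => ⟨hθ s h, hs.2⟩)
    (fun s hs => dv_lft hv (hc.1 s hs) (hcT s hs) fun i => hlu _ _ <| Or.inl <| Or.inl <|
      Set.mem_iUnion.2 ⟨i, s, hs, (val_lft (hcT s hs _ (v i).2)).symm⟩)
    fun S h1 h2 h3 => by
      have hS := hβ S h1 h2 h3
      have hβN : ∀ y ∈ M, ∀ t ∈ N ⊓ stabilizer Ga α, t • β S y = β S y := fun y hy t ht => by
        have := hS.2 t (h1 ht.1) y hy
        rwa [hcN t ht.1 y hy, smul_zero, hNM t ht.1 y hy, eq_comm, sub_eq_zero] at this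
      exact ⟨β S, hS, dv_lft hv hS.1 hβN fun i => hlu _ _ <| Or.inl <| Or.inr <|
        Set.mem_iUnion.2 ⟨i, S, h1, (val_lft (hβN _ (v i).2)).symm⟩⟩
  refine ⟨H', ho.out, hle.trans inf_le_left, ?_, h⟩
  rw [← Subgroup.relIndex_mul_relIndex _ _ _ hle inf_le_left, hr, r1, hd, pow_add, mul_comm]

end Pool.Agent.MP_db5b97_nt.H85
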